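import Pool.Agent.H.MP_1611f1_gt.Defs

/-!
Leaf paths: general criteria.
-/

namespace Pool.Agent.H.MP_1611f1_gt

open Topology Set Filter

variable {Y : Type*} [TopologicalSpace Y] (F : Foliation Y)

/-- equality of the last coordinates does not depend on the chart -/
theorem Foliation.eq_iff {c c' : OpenPartialHomeomorph Y ((ℝ × ℝ) × ℝ)} (hc : c ∈ F.charts)
    (hc' : c' ∈ F.charts) {y : Y} (hy : y ∈ c.source) (hy' : y ∈ c'.source) :
    ∃ N ∈ 𝓝 y, ∀ z ∈ N, ∀ z' ∈ N, (c z).2 = (c z').2 ↔ (c' z).2 = (c' z').2 := by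
  obtain ⟨N, hN, h⟩ := F.compat c hc c' hc' y hy hy'
  refine ⟨N, hN, fun z hz z' hz' => ?_⟩
  have h1 := h z hz z' hz'
  have h2 := h z' hz' z hz
  constructor
  · intro e
    exact le_antisymm (not_lt.1 fun k => (h2.2 k).ne' e) (not_lt.1 fun k => (h1.2 k).ne e)
  · intro e
    exact le_antisymm (not_lt.1 fun k => (h2.1 k).ne' e) (not_lt.1 fun k => (h1.1 k).ne e)

/-- it suffices to check a leaf path in one chart at every point -/
theorem Foliation.leafPath_of {y y' : Y} (γ : Path y y')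
    (h : ∀ s : unitInterval, ∃ c ∈ F.charts, γ s ∈ c.source ∧
      ∀ᶠ s' in 𝓝 s, (c (γ s')).2 = (c (γ s)).2) : F.LeafPath γ := by
  intro s c' hc' hs'
  obtain ⟨c, hc, hs, hev⟩ := h s
  obtain ⟨N, hN, hiff⟩ := F.eq_iff hc hc' hs hs'
  have h1 : ∀ᶠ s' in 𝓝 s, γ s' ∈ N := γ.continuous.continuousAt hN
  filter_upwards [hev, h1] with s' h2 h3
  exact (hiff _ h3 _ (mem_of_mem_nhds hN)).1 h2

theorem Foliation.SameLeaf.refl (y : Y) : F.SameLeaf y y := by
  refine ⟨Path.refl y, F.leafPath_of _ fun s => ?_⟩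
  obtain ⟨c, hc, hy⟩ := F.cover y
  exact ⟨c, hc, hy, Eventually.of_forall fun s' => rfl⟩

theorem Foliation.SameLeaf.symm {y y' : Y} (h : F.SameLeaf y y') : F.SameLeaf y' y := by
  obtain ⟨γ, hγ⟩ := h
  refine ⟨γ.symm, F.leafPath_of _ fun s => ?_⟩
  obtain ⟨c, hc, hy⟩ := F.cover (γ.symm s)
  refine ⟨c, hc, hy, ?_⟩
  have h1 := hγ (unitInterval.symm s) c hc hy
  have h2 : Tendsto unitInterval.symm (𝓝 s) (𝓝 (unitInterval.symm s)) :=
    unitInterval.continuous_symm.continuousAt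
  exact h2.eventually h1

theorem Foliation.SameLeaf.trans {y y' y'' : Y} (h : F.SameLeaf y y') (h' : F.SameLeaf y' y'') :
    F.SameLeaf y y'' := by
  obtain ⟨γ, hγ⟩ := h
  obtain ⟨γ', hγ'⟩ := h'
  refine ⟨γ.trans γ', F.leafPath_of _ fun s => ?_⟩
  obtain ⟨c, hc, hy⟩ := F.cover ((γ.trans γ') s)
  refine ⟨c, hc, hy, ?_⟩
  let φ : unitInterval → unitInterval := fun t => Set.projIcc 0 1 zero_le_one (2 * (t : ℝ))
  let ψ : unitInterval → unitInterval := fun t => Set.projIcc 0 1 zero_le_one (2 * (t : ℝ) - 1)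
  have hφ : Continuous φ := continuous_projIcc.comp (by fun_prop)
  have hψ : Continuous ψ := continuous_projIcc.comp (by fun_prop)
  have h1 : ∀ t : unitInterval, (t : ℝ) ≤ 1 / 2 → (γ.trans γ') t = γ (φ t) := by
    intro t ht
    show (if (t : ℝ) ≤ 1 / 2 then γ.extend (2 * (t : ℝ)) else γ'.extend (2 * (t : ℝ) - 1)) = _
    rw [if_pos ht]
    rfl
  have h2 : ∀ t : unitInterval, 1 / 2 ≤ (t : ℝ) → (γ.trans γ') t = γ' (ψ t) := by
    intro t ht
    rcases eq_or_lt_of_le ht with ht | ht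
    · rw [h1 t ht.ge]
      have e1 : φ t = 1 := by
        show Set.projIcc 0 1 zero_le_one (2 * (t : ℝ)) = 1
        rw [← ht]
        norm_num [Set.projIcc]
      have e2 : ψ t = 0 := by
        show Set.projIcc 0 1 zero_le_one (2 * (t : ℝ) - 1) = 0
        rw [← ht]
        norm_num [Set.projIcc]
      rw [e1, e2, γ.target, γ'.source]
    · show (if (t : ℝ) ≤ 1 / 2 then γ.extend (2 * (t : ℝ)) else γ'.extend (2 * (t : ℝ) - 1)) = _
      rw [if_neg (not_le.2 ht)]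
      rfl
  have h3 : ∀ᶠ t : unitInterval in 𝓝 s, (t : ℝ) ≤ 1 / 2 →
      (c ((γ.trans γ') t)).2 = (c ((γ.trans γ') s)).2 := by
    by_cases hs : (s : ℝ) ≤ 1 / 2
    · rw [h1 s hs] at hy
      have h4 := (hφ.continuousAt (x := s)).eventually (hγ (φ s) c hc hy)
      filter_upwards [h4] with t ht ht'
      rw [h1 t ht', h1 s hs]
      exact ht
    · have h4 : ∀ᶠ t : unitInterval in 𝓝 s, 1 / 2 < (t : ℝ) :=
        (continuous_subtype_val.continuousAt (x := s)).eventually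
          (lt_mem_nhds (not_le.1 hs))
      filter_upwards [h4] with t ht ht'
      exact absurd ht' (not_le.2 ht)
  have h5 : ∀ᶠ t : unitInterval in 𝓝 s, 1 / 2 ≤ (t : ℝ) →
      (c ((γ.trans γ') t)).2 = (c ((γ.trans γ') s)).2 := by
    by_cases hs : 1 / 2 ≤ (s : ℝ)
    · rw [h2 s hs] at hy
      have h4 := (hψ.continuousAt (x := s)).eventually (hγ' (ψ s) c hc hy)
      filter_upwards [h4] with t ht ht'
      rw [h2 t ht', h2 s hs]
      exact ht
    · have h4 : ∀ᶠ t : unitInterval in 𝓝 s, (t : ℝ) < 1 / 2 :=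
        (continuous_subtype_val.continuousAt (x := s)).eventually
          (gt_mem_nhds (not_le.1 hs))
      filter_upwards [h4] with t ht ht'
      exact absurd ht' (not_le.2 ht)
  filter_upwards [h3, h5] with t ht ht'
  rcases le_total (t : ℝ) (1 / 2) with h6 | h6
  · exact ht h6
  · exact ht' h6

/-- a leaf path given by a function on the unit interval -/
theorem Foliation.sameLeaf_of (g : unitInterval → Y) (hg : Continuous g)
    (h : ∀ s : unitInterval, ∃ c ∈ F.charts, g s ∈ c.source ∧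
      ∀ᶠ s' in 𝓝 s, (c (g s')).2 = (c (g s)).2) : F.SameLeaf (g 0) (g 1) :=
  ⟨⟨⟨g, hg⟩, rfl, rfl⟩, F.leafPath_of _ h⟩

/-- it suffices to check transversality in one chart at every point -/
theorem Foliation.transversal_of (l : ℝ → Y) (hl : Continuous l) (hp : ∀ s, l (s + 1) = l s)
    (h : ∀ s, ∃ c ∈ F.charts, l s ∈ c.source ∧
      ∃ ε > 0, StrictMonoOn (fun s' => (c (l s')).2) (Ioo (s - ε) (s + ε))) :
    F.ClosedTransversal l := by
  refine ⟨hl, hp, fun s c' hc' hs' => ?_⟩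
  obtain ⟨c, hc, hs, ε, hε, hmono⟩ := h s
  obtain ⟨N, hN, hcmp⟩ := F.compat c hc c' hc' (l s) hs hs'
  obtain ⟨δ, hδ, hball⟩ := Metric.mem_nhds_iff.1 (hl.continuousAt (x := s) hN)
  refine ⟨min ε δ, lt_min hε hδ, ?_⟩
  have key : ∀ t ∈ Ioo (s - min ε δ) (s + min ε δ), t ∈ Ioo (s - ε) (s + ε) ∧ l t ∈ N := by
    intro t ht
    have h1 : min ε δ ≤ ε := min_le_left _ _
    have h2 : min ε δ ≤ δ := min_le_right _ _
    refine ⟨⟨by linarith [ht.1], by linarith [ht.2]⟩, ?_⟩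
    have h3 : t ∈ Metric.ball s δ := by
      rw [Metric.mem_ball, Real.dist_eq, abs_lt]
      exact ⟨by linarith [ht.1], by linarith [ht.2]⟩
    exact hball h3
  intro a ha b hb hab
  obtain ⟨ha1, ha2⟩ := key a ha
  obtain ⟨hb1, hb2⟩ := key b hb
  exact (hcmp _ ha2 _ hb2).1 (hmono ha1 hb1 hab)

end Pool.Agent.H.MP_1611f1_gt
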