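import Pool.Agent.H.MP_1611f1_gt.SlA

/-!
The chain of homeomorphisms from the factorization of the monodromy.
-/

namespace Pool.Agent.H.MP_1611f1_gt

open Topology Set Filter

variable {S : Type*} [TopologicalSpace S] {J K : Type*} {E : Surf S J} {col : J → K} {L : J → ℕ}
  {A : Arcs E col L} {n : ℕ}

/-- group theoretic part: partial products -/
theorem exists_psi {G : Type*} [Group G] (n : ℕ) (hn : 0 < n) (g h : Fin (2 * n) → G) :
    ∃ ψ : ℤ → G, ψ 0 = 1 ∧
      (∀ i, ψ (i + 4 * n) = ψ i * (List.ofFn fun i => h i * g i).prod) ∧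
      (∀ i, Odd i → ∃ k, ψ i = g k * ψ (i - 1)) ∧
      (∀ i, Even i → ∃ k, ψ i = h k * ψ (i - 1)) := by
  classical
  obtain ⟨g', hg'⟩ : ∃ g' : ℕ → G, ∀ k (hk : k < 2 * n), g' k = g ⟨k, hk⟩ :=
    ⟨fun k => if hk : k < 2 * n then g ⟨k, hk⟩ else 1, fun k hk => by simp [hk]⟩
  obtain ⟨h', hh'⟩ : ∃ h' : ℕ → G, ∀ k (hk : k < 2 * n), h' k = h ⟨k, hk⟩ :=
    ⟨fun k => if hk : k < 2 * n then h ⟨k, hk⟩ else 1, fun k hk => by simp [hk]⟩
  set φ : G := (List.ofFn fun i => h i * g i).prod with hφ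
  obtain ⟨x, hx1, hx2⟩ : ∃ x : ℕ → G, (∀ l, x (2 * l + 1) = g' (2 * n - (l + 1))) ∧
      (∀ l, x (2 * l) = h' (2 * n - l)) := by
    refine ⟨fun r => if r % 2 = 1 then g' (2 * n - (r + 1) / 2) else h' (2 * n - r / 2),
      fun l => ?_, fun l => ?_⟩
    · have h1 : (2 * l + 1) % 2 = 1 := by omega
      have h2 : (2 * l + 1 + 1) / 2 = l + 1 := by omega
      simp only [h1, h2, if_true]
    · have h1 : ¬ (2 * l) % 2 = 1 := by omega
      have h2 : (2 * l) / 2 = l := by omega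
      simp only [h1, h2, if_false]
  obtain ⟨P, hP0, hPs⟩ : ∃ P : ℕ → G, P 0 = 1 ∧ ∀ m, P (m + 1) = x (m + 1) * P m :=
    ⟨fun m => Nat.rec 1 (fun m p => x (m + 1) * p) m, rfl, fun _ => rfl⟩
  have hPl : ∀ l ≤ 2 * n, P (2 * l) =
      ((List.range' (2 * n - l) l).map fun k => h' k * g' k).prod := by
    intro l
    induction l with
    | zero => intro _; simp [hP0]
    | succ l ih =>
      intro hl
      have e1 : 2 * (l + 1) = 2 * l + 1 + 1 := by ring
      rw [e1, hPs, hPs, ih (by omega), hx1, show 2 * l + 1 + 1 = 2 * (l + 1) by ring, hx2,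
        List.range'_succ, List.map_cons, List.prod_cons,
        show 2 * n - (l + 1) + 1 = 2 * n - l by omega, mul_assoc]
  have hPN : P (4 * n) = φ := by
    have h1 := hPl (2 * n) le_rfl
    rw [show 2 * (2 * n) = 4 * n by ring, Nat.sub_self] at h1
    rw [h1, hφ]
    congr 1
    apply List.ext_getElem
    · simp
    · intro i hi1 hi2
      have hi : i < 2 * n := by simpa using hi1
      simp [hg' i hi, hh' i hi]
  have hN : (0 : ℤ) < 4 * n := by positivity
  -- the period map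
  obtain ⟨ψ, hψ⟩ : ∃ ψ : ℤ → G, ∀ (r : ℕ) (q : ℤ), r < 4 * n → ψ (4 * n * q + r) = P r * φ ^ q := by
    refine ⟨fun i => P (i % (4 * n)).toNat * φ ^ (i / (4 * n)), fun r q hr => ?_⟩
    have hr' : (r : ℤ) < 4 * n := by exact_mod_cast hr
    have h1 : (4 * (n : ℤ) * q + r) % (4 * n) = r := by
      rw [Int.mul_add_emod_self_left]
      exact Int.emod_eq_of_lt (by positivity) hr'
    have h2 : (4 * (n : ℤ) * q + r) / (4 * n) = q := by
      rw [Int.mul_add_ediv_left _ _ hN.ne', Int.ediv_eq_zero_of_lt (by positivity) hr', add_zero]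
    simp only [h1, h2, Int.toNat_natCast]
  have hdec : ∀ i : ℤ, ∃ (r : ℕ) (q : ℤ), r < 4 * n ∧ i = 4 * n * q + r := by
    intro i
    refine ⟨(i % (4 * n)).toNat, i / (4 * n), ?_, ?_⟩
    · have := Int.emod_lt_of_pos i hN
      have := Int.emod_nonneg i hN.ne'
      omega
    · rw [Int.toNat_of_nonneg (Int.emod_nonneg i hN.ne')]
      exact (Int.mul_ediv_add_emod i (4 * n)).symm
  -- the steps
  have hstep : ∀ (r : ℕ) (q : ℤ), 1 ≤ r → r ≤ 4 * n →
      ψ (4 * n * q + r) = x r * ψ (4 * n * q + r - 1) := by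
    intro r q h1 h2
    obtain ⟨r, rfl⟩ : ∃ r', r = r' + 1 := ⟨r - 1, by omega⟩
    have e1 : (4 * (n : ℤ) * q + ((r + 1 : ℕ) : ℤ) - 1) = 4 * n * q + (r : ℕ) := by
      push_cast; ring
    rw [e1, hψ r q (by omega)]
    rcases Nat.lt_or_ge (r + 1) (4 * n) with h3 | h3
    · rw [hψ (r + 1) q h3, hPs, mul_assoc]
    · have h4 : r + 1 = 4 * n := by omega
      have e2 : (4 * (n : ℤ) * q + ((r + 1 : ℕ) : ℤ)) = 4 * n * (q + 1) + (0 : ℕ) := by
        rw [h4]; push_cast; ring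
      rw [e2, hψ 0 (q + 1) (by omega), hP0, one_mul, ← mul_assoc, ← hPs, h4, hPN,
        ← zpow_one_add, add_comm]
  refine ⟨ψ, ?_, ?_, ?_, ?_⟩
  · have := hψ 0 0 (by omega)
    simpa [hP0] using this
  · intro i
    obtain ⟨r, q, hr, rfl⟩ := hdec i
    have e1 : 4 * (n : ℤ) * q + r + 4 * n = 4 * n * (q + 1) + r := by ring
    rw [e1, hψ r (q + 1) hr, hψ r q hr, zpow_add_one, mul_assoc]
  · intro i hi
    obtain ⟨r, q, hr, rfl⟩ := hdec i
    have hr1 : r % 2 = 1 := by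
      obtain ⟨c, hc⟩ : ∃ c : ℤ, 4 * (n : ℤ) * q = 2 * c := ⟨2 * n * q, by ring⟩
      rw [hc, Int.odd_iff] at hi
      omega
    obtain ⟨l, rfl⟩ : ∃ l, r = 2 * l + 1 := ⟨r / 2, by omega⟩
    refine ⟨⟨2 * n - (l + 1), by omega⟩, ?_⟩
    rw [hstep (2 * l + 1) q (by omega) hr.le, hx1, hg']
  · intro i hi
    obtain ⟨r, q, hr, rfl⟩ := hdec i
    have hr1 : r % 2 = 0 := by
      obtain ⟨c, hc⟩ : ∃ c : ℤ, 4 * (n : ℤ) * q = 2 * c := ⟨2 * n * q, by ring⟩
      rw [hc, Int.even_iff] at hi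
      omega
    obtain ⟨l, rfl⟩ : ∃ l, r = 2 * l := ⟨r / 2, by omega⟩
    rcases Nat.eq_zero_or_pos l with h0 | h0
    · subst h0
      refine ⟨⟨0, by omega⟩, ?_⟩
      have h1 := hstep (4 * n) (q - 1) (by omega) le_rfl
      have e1 : 4 * (n : ℤ) * (q - 1) + ((4 * n : ℕ) : ℤ) = 4 * n * q + ((2 * 0 : ℕ) : ℤ) := by
        push_cast; ring
      rw [e1] at h1
      rw [h1, show 4 * n = 2 * (2 * n) by ring, hx2, Nat.sub_self, hh' 0 (by omega)]
    · refine ⟨⟨2 * n - l, by omega⟩, ?_⟩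
      rw [hstep (2 * l) q (by omega) hr.le, hx2, hh']

theorem exists_chain (hn : 0 < n) (Φ : Factors A n) : Nonempty (Chain A n Φ.phi) := by
  obtain ⟨ψ, h0, hper, hodd, heven⟩ := exists_psi n hn Φ.g Φ.h
  have hcol_step : ∀ i j z, ψ i (E.collar j z) = E.collar j z ↔
      ψ (i - 1) (E.collar j z) = E.collar j z := by
    intro i j z
    rcases Int.even_or_odd i with hi | hi
    · obtain ⟨k, hk⟩ := heven i hi
      rw [hk, Homeomorph.mul_apply]
      constructor
      · intro h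
        have := h.trans (Φ.h_collar k j z).symm
        exact (Φ.h k).injective this
      · intro h
        rw [h, Φ.h_collar]
    · obtain ⟨k, hk⟩ := hodd i hi
      rw [hk, Homeomorph.mul_apply]
      constructor
      · intro h
        have := h.trans (Φ.g_collar k j z).symm
        exact (Φ.g k).injective this
      · intro h
        rw [h, Φ.g_collar]
  refine ⟨⟨ψ, hper, fun i j z => ?_, fun i hi j x => ?_, fun i hi j x => ?_⟩⟩
  · induction i using Int.induction_on with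
    | zero => rw [h0]; rfl
    | succ i ih =>
      rw [hcol_step]
      simpa using ih
    | pred i ih => exact (hcol_step _ j z).1 ih
  · obtain ⟨k, hk⟩ := hodd i hi
    rw [hk, Homeomorph.mul_apply, Φ.g_a]
  · obtain ⟨k, hk⟩ := heven i hi
    rw [hk, Homeomorph.mul_apply, Φ.h_b]

end Pool.Agent.H.MP_1611f1_gt
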