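import Pool.Agent.H.MP_1611f1_gt.Hol

/-!
The piecewise linear conjugating function.
-/

namespace Pool.Agent.H.MP_1611f1_gt

open Set

/-- the ramp of slope one on `[0, 1] + 4 ℤ` -/
noncomputable def OneB_R (u : ℝ) : ℝ := (⌊u / 4⌋ : ℝ) + min (4 * Int.fract (u / 4)) 1

theorem OneB_R_eq (q : ℤ) (y : ℝ) (h1 : -3 ≤ y) (h2 : y ≤ 4) :
    OneB_R (4 * q + y) = q + max 0 (min y 1) := by
  have key : ∀ (m : ℤ) (x : ℝ), 0 ≤ x → x < 4 → OneB_R (4 * m + x) = m + min x 1 := by
    intro m x hx0 hx4
    have hf : ⌊(4 * (m : ℝ) + x) / 4⌋ = m := by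
      rw [Int.floor_eq_iff]
      constructor <;> linarith
    unfold OneB_R
    rw [Int.fract, hf]
    congr 2
    ring
  rcases lt_or_ge y 0 with hy | hy
  · have h3 := key (q - 1) (y + 4) (by linarith) (by linarith)
    have h4 : 4 * ((q - 1 : ℤ) : ℝ) + (y + 4) = 4 * q + y := by push_cast; ring
    rw [h4] at h3
    rw [h3, min_eq_right (by linarith), max_eq_left (by
      rw [min_eq_left (by linarith)]; linarith)]
    push_cast
    ring
  · rcases lt_or_ge y 4 with hy4 | hy4
    · rw [key q y hy hy4, max_eq_right (le_min hy zero_le_one)]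
    · have hy5 : y = 4 := le_antisymm h2 hy4
      subst hy5
      have h3 := key (q + 1) 0 le_rfl (by norm_num)
      have h4 : 4 * ((q + 1 : ℤ) : ℝ) + 0 = 4 * q + 4 := by push_cast; ring
      rw [h4] at h3
      rw [h3]
      push_cast
      norm_num

theorem OneB_R_mono : Monotone OneB_R := by
  intro u v huv
  have hq : ⌊u / 4⌋ ≤ ⌊v / 4⌋ := Int.floor_le_floor (by linarith)
  unfold OneB_R
  rcases hq.eq_or_lt with h | h
  · rw [h]
    have h1 : Int.fract (u / 4) ≤ Int.fract (v / 4) := by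
      rw [Int.fract, Int.fract, h]
      linarith
    have h2 : min (4 * Int.fract (u / 4)) 1 ≤ min (4 * Int.fract (v / 4)) 1 :=
      min_le_min (by linarith) le_rfl
    linarith
  · have h1 : (⌊u / 4⌋ : ℝ) + 1 ≤ (⌊v / 4⌋ : ℝ) := by exact_mod_cast h
    have h2 : min (4 * Int.fract (u / 4)) 1 ≤ 1 := min_le_right _ _
    have h3 : 0 ≤ min (4 * Int.fract (v / 4)) 1 :=
      le_min (by have := Int.fract_nonneg (v / 4); linarith) zero_le_one
    linarith

theorem OneB_R_cont : Continuous OneB_R := by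
  have h1 : Continuous ((fun x : ℝ => min (4 * x) 1 - x) ∘ (Int.fract : ℝ → ℝ)) := by
    apply ContinuousOn.comp_fract''
    · fun_prop
    · norm_num
  have h2 : OneB_R = fun u => u / 4 + ((fun x : ℝ => min (4 * x) 1 - x) ∘ (Int.fract : ℝ → ℝ)) (u / 4) := by
    funext u
    unfold OneB_R
    simp only [Function.comp]
    have := Int.floor_add_fract (u / 4)
    linarith
  rw [h2]
  exact (continuous_id.div_const 4).add (h1.comp (continuous_id.div_const 4))

theorem OneB_R_add (u : ℝ) : OneB_R (u + 4) = OneB_R u + 1 := by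
  unfold OneB_R
  have h1 : (u + 4) / 4 = u / 4 + 1 := by ring
  rw [h1, Int.floor_add_one, Int.fract_add_one]
  push_cast
  ring

theorem OneB_R_sum (u : ℝ) : OneB_R u + OneB_R (u - 1) + OneB_R (u - 2) + OneB_R (u - 3) = u := by
  obtain ⟨q, x, hu, hx0, hx4⟩ : ∃ (q : ℤ) (x : ℝ), u = 4 * q + x ∧ 0 ≤ x ∧ x < 4 := by
    refine ⟨⌊u / 4⌋, u - 4 * ⌊u / 4⌋, by ring, ?_, ?_⟩
    · have := Int.floor_le (u / 4)
      linarith
    · have := Int.lt_floor_add_one (u / 4)
      linarith
  have h0 := OneB_R_eq q x (by linarith) (by linarith)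
  have h1 := OneB_R_eq q (x - 1) (by linarith) (by linarith)
  have h2 := OneB_R_eq q (x - 2) (by linarith) (by linarith)
  have h3 := OneB_R_eq q (x - 3) (by linarith) (by linarith)
  rw [← add_sub_assoc, ← hu] at h1 h2 h3
  rw [← hu] at h0
  rw [h0, h1, h2, h3, hu]
  have c : ∀ z : ℝ, 1 ≤ z → max 0 (min z 1) = 1 := fun z hz => by
    rw [min_eq_right hz, max_eq_right zero_le_one]
  have d : ∀ z : ℝ, z ≤ 0 → max 0 (min z 1) = 0 := fun z hz => by
    rw [min_eq_left (by linarith), max_eq_left hz]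
  have e : ∀ z : ℝ, 0 ≤ z → z ≤ 1 → max 0 (min z 1) = z := fun z hz hz1 => by
    rw [min_eq_left hz1, max_eq_right hz]
  rcases le_total x 1 with hx | hx
  · rw [e x hx0 hx, d (x - 1) (by linarith), d (x - 2) (by linarith), d (x - 3) (by linarith)]
    ring
  · rcases le_total x 2 with hx' | hx'
    · rw [c x hx, e (x - 1) (by linarith) (by linarith), d (x - 2) (by linarith),
        d (x - 3) (by linarith)]
      ring
    · rcases le_total x 3 with hx'' | hx''
      · rw [c x hx, c (x - 1) (by linarith), e (x - 2) (by linarith) (by linarith),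
          d (x - 3) (by linarith)]
        ring
      · rw [c x hx, c (x - 1) (by linarith), c (x - 2) (by linarith),
          e (x - 3) (by linarith) (by linarith)]
        ring

/-- the piecewise linear function with slopes `1, r, r², r` -/
theorem exists_th (r : ℝ) (h0 : 0 < r) (h1 : r < 1) :
    ∃ th : ℝ → ℝ, StrictMono th ∧ Continuous th ∧ (∀ t, th (t + 4) = th t + (1 + r) ^ 2) ∧
      (∀ t ∈ Icc (-3 : ℝ) (-2), th t = -r - r ^ 2 + r * (t + 2)) ∧
      (∀ t ∈ Icc (-2 : ℝ) (-1), th t = -r + r ^ 2 * (t + 1)) ∧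
      (∀ t ∈ Icc (-1 : ℝ) 0, th t = r * t) ∧
      (∀ t ∈ Icc (0 : ℝ) 1, th t = t) ∧
      (∀ t ∈ Icc (1 : ℝ) 2, th t = 1 + r * (t - 1)) ∧
      (∀ t ∈ Icc (2 : ℝ) 3, th t = 1 + r + r ^ 2 * (t - 2)) ∧
      (∀ t ∈ Icc (3 : ℝ) 4, th t = 1 + r + r ^ 2 + r * (t - 3)) := by
  have c : ∀ z : ℝ, 1 ≤ z → max 0 (min z 1) = 1 := fun z hz => by
    rw [min_eq_right hz, max_eq_right zero_le_one]
  have d : ∀ z : ℝ, z ≤ 0 → max 0 (min z 1) = 0 := fun z hz => by
    rw [min_eq_left (by linarith), max_eq_left hz]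
  have e : ∀ z : ℝ, 0 ≤ z → z ≤ 1 → max 0 (min z 1) = z := fun z hz hz1 => by
    rw [min_eq_left hz1, max_eq_right hz]
  have z0 : ∀ y : ℝ, -3 ≤ y → y ≤ 4 → OneB_R y = max 0 (min y 1) := by
    intro y h1 h2
    have h := OneB_R_eq 0 y h1 h2
    simpa using h
  have z1 : ∀ y : ℝ, -7 ≤ y → y ≤ 0 → OneB_R y = -1 + max 0 (min (y + 4) 1) := by
    intro y h1 h2
    have h := OneB_R_eq (-1) (y + 4) (by linarith) (by linarith)
    have h3 : 4 * ((-1 : ℤ) : ℝ) + (y + 4) = y := by push_cast; ring
    rw [h3] at h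
    rw [h]
    push_cast
    ring
  refine ⟨fun t => OneB_R t + r * OneB_R (t - 1) + r ^ 2 * OneB_R (t - 2) + r * OneB_R (t - 3),
    ?_, ?_, ?_, ?_, ?_, ?_, ?_, ?_, ?_, ?_⟩
  · intro s t hst
    have a0 := OneB_R_mono hst.le
    have a1 : OneB_R (s - 1) ≤ OneB_R (t - 1) := OneB_R_mono (by linarith)
    have a2 : OneB_R (s - 2) ≤ OneB_R (t - 2) := OneB_R_mono (by linarith)
    have a3 : OneB_R (s - 3) ≤ OneB_R (t - 3) := OneB_R_mono (by linarith)
    have b1 := OneB_R_sum s
    have b2 := OneB_R_sum t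
    have hr2 : r ^ 2 ≤ 1 := by nlinarith
    have hr3 : r ^ 2 ≤ r := by nlinarith
    have hr4 : 0 < r ^ 2 := by positivity
    have m0 : r ^ 2 * (OneB_R t - OneB_R s) ≤ 1 * (OneB_R t - OneB_R s) :=
      mul_le_mul_of_nonneg_right hr2 (by linarith)
    have m1 : r ^ 2 * (OneB_R (t - 1) - OneB_R (s - 1)) ≤ r * (OneB_R (t - 1) - OneB_R (s - 1)) :=
      mul_le_mul_of_nonneg_right hr3 (by linarith)
    have m3 : r ^ 2 * (OneB_R (t - 3) - OneB_R (s - 3)) ≤ r * (OneB_R (t - 3) - OneB_R (s - 3)) :=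
      mul_le_mul_of_nonneg_right hr3 (by linarith)
    have m4 : 0 < r ^ 2 * (t - s) := mul_pos hr4 (by linarith)
    have m5 : r ^ 2 * (t - s) = r ^ 2 * (OneB_R t - OneB_R s) +
        r ^ 2 * (OneB_R (t - 1) - OneB_R (s - 1)) + r ^ 2 * (OneB_R (t - 2) - OneB_R (s - 2)) +
        r ^ 2 * (OneB_R (t - 3) - OneB_R (s - 3)) := by
      have b3 : t - s = (OneB_R t - OneB_R s) + (OneB_R (t - 1) - OneB_R (s - 1)) +
        (OneB_R (t - 2) - OneB_R (s - 2)) + (OneB_R (t - 3) - OneB_R (s - 3)) := by linarith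
      rw [b3]
      ring
    show OneB_R s + r * OneB_R (s - 1) + r ^ 2 * OneB_R (s - 2) + r * OneB_R (s - 3) <
      OneB_R t + r * OneB_R (t - 1) + r ^ 2 * OneB_R (t - 2) + r * OneB_R (t - 3)
    linarith
  · have h := OneB_R_cont
    have k1 : Continuous fun t : ℝ => OneB_R (t - 1) := h.comp (continuous_sub_right 1)
    have k2 : Continuous fun t : ℝ => OneB_R (t - 2) := h.comp (continuous_sub_right 2)
    have k3 : Continuous fun t : ℝ => OneB_R (t - 3) := h.comp (continuous_sub_right 3)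
    exact ((h.add (continuous_const.mul k1)).add (continuous_const.mul k2)).add
      (continuous_const.mul k3)
  · intro t
    show OneB_R (t + 4) + r * OneB_R (t + 4 - 1) + r ^ 2 * OneB_R (t + 4 - 2) +
      r * OneB_R (t + 4 - 3) = _
    have e1 : t + 4 - 1 = (t - 1) + 4 := by ring
    have e2 : t + 4 - 2 = (t - 2) + 4 := by ring
    have e3 : t + 4 - 3 = (t - 3) + 4 := by ring
    rw [e1, e2, e3, OneB_R_add, OneB_R_add, OneB_R_add, OneB_R_add]
    ring
  · rintro t ⟨h1, h2⟩
    simp only []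
    rw [z0 t (by linarith) (by linarith), z1 (t - 1) (by linarith) (by linarith),
      z1 (t - 2) (by linarith) (by linarith), z1 (t - 3) (by linarith) (by linarith),
      d t (by linarith), e (t - 1 + 4) (by linarith) (by linarith), d (t - 2 + 4) (by linarith),
      d (t - 3 + 4) (by linarith)]
    ring
  · rintro t ⟨h1, h2⟩
    simp only []
    rw [z0 t (by linarith) (by linarith), z0 (t - 1) (by linarith) (by linarith),
      z1 (t - 2) (by linarith) (by linarith), z1 (t - 3) (by linarith) (by linarith),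
      d t (by linarith), d (t - 1) (by linarith), e (t - 2 + 4) (by linarith) (by linarith),
      d (t - 3 + 4) (by linarith)]
    ring
  · rintro t ⟨h1, h2⟩
    simp only []
    rw [z0 t (by linarith) (by linarith), z0 (t - 1) (by linarith) (by linarith),
      z0 (t - 2) (by linarith) (by linarith), z1 (t - 3) (by linarith) (by linarith),
      d t (by linarith), d (t - 1) (by linarith), d (t - 2) (by linarith),
      e (t - 3 + 4) (by linarith) (by linarith)]
    ring
  · rintro t ⟨h1, h2⟩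
    simp only []
    rw [z0 t (by linarith) (by linarith), z0 (t - 1) (by linarith) (by linarith),
      z0 (t - 2) (by linarith) (by linarith), z0 (t - 3) (by linarith) (by linarith),
      e t (by linarith) (by linarith), d (t - 1) (by linarith), d (t - 2) (by linarith),
      d (t - 3) (by linarith)]
    ring
  · rintro t ⟨h1, h2⟩
    simp only []
    rw [z0 t (by linarith) (by linarith), z0 (t - 1) (by linarith) (by linarith),
      z0 (t - 2) (by linarith) (by linarith), z0 (t - 3) (by linarith) (by linarith),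
      c t (by linarith), e (t - 1) (by linarith) (by linarith), d (t - 2) (by linarith),
      d (t - 3) (by linarith)]
    ring
  · rintro t ⟨h1, h2⟩
    simp only []
    rw [z0 t (by linarith) (by linarith), z0 (t - 1) (by linarith) (by linarith),
      z0 (t - 2) (by linarith) (by linarith), z0 (t - 3) (by linarith) (by linarith),
      c t (by linarith), c (t - 1) (by linarith), e (t - 2) (by linarith) (by linarith),
      d (t - 3) (by linarith)]
    ring
  · rintro t ⟨h1, h2⟩
    simp only []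
    rw [z0 t (by linarith) (by linarith), z0 (t - 1) (by linarith) (by linarith),
      z0 (t - 2) (by linarith) (by linarith), z0 (t - 3) (by linarith) (by linarith),
      c t (by linarith), c (t - 1) (by linarith), c (t - 2) (by linarith),
      e (t - 3) (by linarith) (by linarith)]
    ring

end Pool.Agent.H.MP_1611f1_gt
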