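import Pool.Agent.H.MP_1611f1_gt.Hol

/-!
The crossing relations.
-/

namespace Pool.Agent.H.MP_1611f1_gt

open Set

theorem OneC_shift (f : ℝ → ℝ) (c d : ℝ) (hf : ∀ t, f (t + d) = f t + c) (k : ℤ) (t : ℝ) :
    f (t + k * d) = f t + k * c := by
  induction k using Int.induction_on with
  | zero => simp
  | succ i ih =>
    have h1 : t + ((i : ℤ) + 1 : ℤ) * d = (t + ((i : ℤ) : ℝ) * d) + d := by push_cast; ring
    rw [h1, hf, ih]
    push_cast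
    ring
  | pred i ih =>
    have h1 := hf (t + (((-(i : ℤ) - 1 : ℤ)) : ℝ) * d)
    have h2 : t + (((-(i : ℤ) - 1 : ℤ)) : ℝ) * d + d = t + ((-(i : ℤ) : ℤ) : ℝ) * d := by
      push_cast; ring
    rw [h2, ih] at h1
    push_cast at h1 ⊢
    linarith

theorem OneC_reduce (P : ℝ → Prop) (h : ∀ t ∈ Icc (0 : ℝ) 4, ∀ k : ℤ, P (t + k * 4)) :
    ∀ t, P t := by
  intro t
  have h1 : 0 ≤ Int.fract (t / 4) := Int.fract_nonneg _
  have h2 : Int.fract (t / 4) < 1 := Int.fract_lt_one _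
  have h3 : t = Int.fract (t / 4) * 4 + (⌊t / 4⌋ : ℝ) * 4 := by
    have := Int.fract_add_floor (t / 4)
    linarith
  rw [h3]
  exact h _ ⟨by linarith, by linarith⟩ _

/-- the values of the inverse of `e` -/
theorem OneC_symm (r : ℝ) (h0 : 0 < r) (e : ℝ ≃o ℝ)
    (he : e 0 = 0 ∧ e 2 = 2 ∧ (∀ x ≤ r, e x = x / r) ∧
      (∀ x, r ≤ x → x ≤ 1 → e x = 1 + (x - r)) ∧
      (∀ x, 1 ≤ x → e x = 2 - r + r * (x - 1))) :
    (∀ s ≤ (1 : ℝ), e.symm s = r * s) ∧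
    (∀ s, 1 ≤ s → s ≤ 2 - r → e.symm s = s - 1 + r) ∧
    (∀ s, 2 - r ≤ s → e.symm s = 1 + (s - 2 + r) / r) := by
  obtain ⟨-, -, e1, e2, e3⟩ := he
  refine ⟨fun s hs => ?_, fun s h1 h2 => ?_, fun s hs => ?_⟩
  · rw [OrderIso.symm_apply_eq, e1 _ (by nlinarith)]
    field_simp
  · rw [OrderIso.symm_apply_eq, e2 _ (by linarith) (by linarith)]
    ring
  · have h4 : 0 ≤ (s - 2 + r) / r := div_nonneg (by linarith) h0.le
    rw [OrderIso.symm_apply_eq, e3 _ (by linarith)]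
    field_simp
    ring

/-- the two crossing relations -/
theorem crossing (r : ℝ) (h0 : 0 < r) (h1 : r < 1) (e A : ℝ ≃o ℝ) (th : ℝ → ℝ)
    (he : e 0 = 0 ∧ e 2 = 2 ∧ (∀ x ≤ r, e x = x / r) ∧
      (∀ x, r ≤ x → x ≤ 1 → e x = 1 + (x - r)) ∧
      (∀ x, 1 ≤ x → e x = 2 - r + r * (x - 1)))
    (hA4 : ∀ t, A (t + 4) = A t + 4)
    (hA1 : ∀ t ∈ Icc (0 : ℝ) 2, A t = e t) (hA2 : ∀ t ∈ Icc (2 : ℝ) 4, A t = e.symm (t - 2) + 2)
    (ht4 : ∀ t, th (t + 4) = th t + (1 + r) ^ 2)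
    (ht : (∀ t ∈ Icc (-3 : ℝ) (-2), th t = -r - r ^ 2 + r * (t + 2)) ∧
      (∀ t ∈ Icc (-2 : ℝ) (-1), th t = -r + r ^ 2 * (t + 1)) ∧
      (∀ t ∈ Icc (-1 : ℝ) 0, th t = r * t) ∧
      (∀ t ∈ Icc (0 : ℝ) 1, th t = t) ∧
      (∀ t ∈ Icc (1 : ℝ) 2, th t = 1 + r * (t - 1)) ∧
      (∀ t ∈ Icc (2 : ℝ) 3, th t = 1 + r + r ^ 2 * (t - 2)) ∧
      (∀ t ∈ Icc (3 : ℝ) 4, th t = 1 + r + r ^ 2 + r * (t - 3))) :
    (∀ t, th (A t - 1) = th t - r) ∧ (∀ t, th (A t - 2) = th (t - 3) + r) := by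
  obtain ⟨t1, t2, t3, t4, t5, t6, t7⟩ := ht
  have hs := OneC_symm r h0 e he
  obtain ⟨s1, s2, s3⟩ := hs
  obtain ⟨-, -, e1, e2, e3⟩ := he
  have hAk : ∀ (k : ℤ) (t : ℝ), A (t + k * 4) = A t + k * 4 := fun k t =>
    OneC_shift (fun x => A x) 4 4 hA4 k t
  have htk : ∀ (k : ℤ) (t : ℝ), th (t + k * 4) = th t + k * (1 + r) ^ 2 := fun k t =>
    OneC_shift th _ 4 ht4 k t
  -- the values of `A` on a period
  have c1 : ∀ t, 0 ≤ t → t ≤ r → A t = t / r := fun t h h' => by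
    rw [hA1 t ⟨h, by linarith⟩, e1 t h']
  have c2 : ∀ t, r ≤ t → t ≤ 1 → A t = 1 + (t - r) := fun t h h' => by
    rw [hA1 t ⟨by linarith, by linarith⟩, e2 t h h']
  have c3 : ∀ t, 1 ≤ t → t ≤ 2 → A t = 2 - r + r * (t - 1) := fun t h h' => by
    rw [hA1 t ⟨by linarith, h'⟩, e3 t h]
  have c4 : ∀ t, 2 ≤ t → t ≤ 3 → A t = r * (t - 2) + 2 := fun t h h' => by
    rw [hA2 t ⟨h, by linarith⟩, s1 _ (by linarith)]
  have c5 : ∀ t, 3 ≤ t → t ≤ 4 - r → A t = t - 2 - 1 + r + 2 := fun t h h' => by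
    rw [hA2 t ⟨by linarith, by linarith⟩, s2 _ (by linarith) (by linarith)]
  have c6 : ∀ t, 4 - r ≤ t → t ≤ 4 → A t = 1 + (t - 2 - 2 + r) / r + 2 := fun t h h' => by
    rw [hA2 t ⟨by linarith, h'⟩, s3 _ (by linarith)]
  constructor
  · apply OneC_reduce
    rintro t ⟨h0t, h4t⟩ k
    have r1 : A (t + k * 4) - 1 = (A t - 1) + k * 4 := by rw [hAk]; ring
    rw [r1, htk, htk]
    suffices h : th (A t - 1) = th t - r by rw [h]; ring
    rcases le_total t r with h | h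
    · have q1 : 0 ≤ t / r := div_nonneg h0t h0.le
      have q2 : t / r ≤ 1 := (div_le_one h0).2 h
      rw [c1 t h0t h, t3 _ ⟨by linarith, by linarith⟩, t4 t ⟨h0t, by linarith⟩]
      field_simp
    rcases le_total t 1 with h' | h'
    · rw [c2 t h h', t4 _ ⟨by linarith, by linarith⟩, t4 t ⟨h0t, h'⟩]
      ring
    rcases le_total t 2 with h'' | h''
    · rw [c3 t h' h'', t4 _ ⟨by nlinarith, by nlinarith⟩, t5 t ⟨h', h''⟩]
      ring
    rcases le_total t 3 with h3 | h3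
    · rw [c4 t h'' h3, t5 _ ⟨by nlinarith, by nlinarith⟩, t6 t ⟨h'', h3⟩]
      ring
    rcases le_total t (4 - r) with h5 | h5
    · rw [c5 t h3 h5, t5 _ ⟨by nlinarith, by nlinarith⟩, t7 t ⟨h3, h4t⟩]
      ring
    · have q1 : 0 ≤ (t - 2 - 2 + r) / r := div_nonneg (by linarith) h0.le
      have q2 : (t - 2 - 2 + r) / r ≤ 1 := (div_le_one h0).2 (by linarith)
      rw [c6 t h5 h4t, t6 _ ⟨by linarith, by linarith⟩, t7 t ⟨h3, h4t⟩]
      field_simp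
      ring
  · apply OneC_reduce
    rintro t ⟨h0t, h4t⟩ k
    have r1 : A (t + k * 4) - 2 = (A t - 2) + k * 4 := by rw [hAk]; ring
    have r2 : t + k * 4 - 3 = (t - 3) + k * 4 := by ring
    rw [r1, r2, htk, htk]
    suffices h : th (A t - 2) = th (t - 3) + r by rw [h]; ring
    rcases le_total t r with h | h
    · have q1 : 0 ≤ t / r := div_nonneg h0t h0.le
      have q2 : t / r ≤ 1 := (div_le_one h0).2 h
      rw [c1 t h0t h, t2 _ ⟨by linarith, by linarith⟩, t1 (t - 3) ⟨by linarith, by linarith⟩]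
      field_simp
      ring
    rcases le_total t 1 with h' | h'
    · rw [c2 t h h', t3 _ ⟨by linarith, by linarith⟩, t1 (t - 3) ⟨by linarith, by linarith⟩]
      ring
    rcases le_total t 2 with h'' | h''
    · rw [c3 t h' h'', t3 _ ⟨by nlinarith, by nlinarith⟩, t2 (t - 3) ⟨by linarith, by linarith⟩]
      ring
    rcases le_total t 3 with h3 | h3
    · rw [c4 t h'' h3, t4 _ ⟨by nlinarith, by nlinarith⟩, t3 (t - 3) ⟨by linarith, by linarith⟩]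
      ring
    rcases le_total t (4 - r) with h5 | h5
    · rw [c5 t h3 h5, t4 _ ⟨by nlinarith, by nlinarith⟩, t4 (t - 3) ⟨by linarith, by linarith⟩]
      ring
    · have q1 : 0 ≤ (t - 2 - 2 + r) / r := div_nonneg (by linarith) h0.le
      have q2 : (t - 2 - 2 + r) / r ≤ 1 := (div_le_one h0).2 (by linarith)
      rw [c6 t h5 h4t, t5 _ ⟨by linarith, by linarith⟩, t4 (t - 3) ⟨by linarith, by linarith⟩]
      field_simp
      ring

end Pool.Agent.H.MP_1611f1_gt
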