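import Pool.Agent.H.MP_1611f1_gt.OneA
import Pool.Agent.H.MP_1611f1_gt.OneB
import Pool.Agent.H.MP_1611f1_gt.OneC

/-!
The one-dimensional lemma.
-/

namespace Pool.Agent.H.MP_1611f1_gt

open Set

theorem exists_hol_pos (σ : ℝ) (h0 : 0 < σ) (h1 : σ < 1) : Nonempty (Hol σ) := by
  obtain ⟨s, hs0, hs1, hs2⟩ : ∃ s : ℝ, 0 < s ∧ s < 1 ∧ s * s = σ := by
    refine ⟨Real.sqrt σ, Real.sqrt_pos.2 h0, ?_, Real.mul_self_sqrt h0.le⟩
    rw [Real.sqrt_lt' one_pos]
    simpa using h1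
  obtain ⟨r, hr⟩ : ∃ r : ℝ, r = (1 - s) / (1 + s) := ⟨_, rfl⟩
  have hr0 : 0 < r := by
    rw [hr]
    apply div_pos <;> linarith
  have hr1 : r < 1 := by
    rw [hr, div_lt_one (by linarith)]
    linarith
  have hrs : 1 - r = s * (1 + r) := by
    rw [hr]
    field_simp
    ring
  obtain ⟨e, A, he, hA4, hAf, hA1, hA2⟩ := exists_A r hr0 hr1
  obtain ⟨th0, hm, hc, ht4, ht⟩ := exists_th r hr0 hr1
  obtain ⟨R1, R2⟩ := crossing r hr0 hr1 e A th0 he hA4 hA1 hA2 ht4 ht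
  let B : ℝ ≃o ℝ := ((OrderIso.addRight (-1 : ℝ)).trans A).trans (OrderIso.addRight (1 : ℝ))
  have hB : ∀ t, B t = A (t - 1) + 1 := by
    intro t
    change A (t + -1) + 1 = A (t - 1) + 1
    rw [← sub_eq_add_neg]
  have hr2 : 0 < (1 + r) ^ 2 := by positivity
  refine ⟨⟨A, B, fun t => 4 / (1 + r) ^ 2 * th0 t, ?_, ?_, hA4, ?_, ?_, hAf, ?_, ?_⟩⟩
  · exact hm.const_mul (by positivity)
  · exact continuous_const.mul hc
  · intro t
    rw [hB, hB]
    have : t + 4 - 1 = (t - 1) + 4 := by ring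
    rw [this, hA4]
    ring
  · intro t
    rw [ht4]
    field_simp
  · intro m
    rw [hB]
    have : (2 * m + 1 - 1 : ℝ) = 2 * m := by ring
    rw [this, hAf]
  · intro t
    obtain ⟨x1, hx1⟩ : ∃ x, x = A t := ⟨_, rfl⟩
    obtain ⟨x2, hx2⟩ : ∃ x, x = B x1 := ⟨_, rfl⟩
    obtain ⟨x3, hx3⟩ : ∃ x, x = A.symm x2 := ⟨_, rfl⟩
    obtain ⟨x4, hx4⟩ : ∃ x, x = B.symm x3 := ⟨_, rfl⟩
    rw [← hx1, ← hx2, ← hx3, ← hx4]
    have e1 := R1 t
    rw [← hx1] at e1
    have e2 := R1 (x1 - 1)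
    have g2 : A (x1 - 1) - 1 = x2 - 2 := by
      rw [hx2, hB]
      ring
    rw [g2] at e2
    have e3 := R2 x3
    have g3 : A x3 = x2 := by rw [hx3, OrderIso.apply_symm_apply]
    rw [g3] at e3
    have e4 := R2 (x4 - 1)
    have g4 : B x4 = x3 := by rw [hx4, OrderIso.apply_symm_apply]
    rw [hB] at g4
    have g5 : A (x4 - 1) - 2 = x3 - 3 := by rw [← g4]; ring
    have g6 : x4 - 1 - 3 = x4 - 4 := by ring
    rw [g5, g6] at e4
    have e5 := ht4 (x4 - 4)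
    rw [sub_add_cancel] at e5
    have e6 : th0 x4 = th0 t + (1 - r) ^ 2 := by
      rw [e5]
      have : th0 (x4 - 4) = th0 t - 4 * r := by linarith
      rw [this]
      ring
    rw [e6, hrs, ← hs2]
    field_simp

/-- **one-dimensional lemma** -/
theorem exists_hol (σ : ℝ) (hσ : |σ| < 1) : Nonempty (Hol σ) := by
  rcases lt_trichotomy σ 0 with h | h | h
  · rw [abs_of_neg h] at hσ
    obtain ⟨D⟩ := exists_hol_pos (-σ) (by linarith) hσ
    have hA4 : ∀ t, D.A.symm (t + 4) = D.A.symm t + 4 := by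
      intro t
      apply D.A.injective
      rw [D.A4, OrderIso.apply_symm_apply, OrderIso.apply_symm_apply]
    refine ⟨⟨D.A.symm, D.B, fun t => D.th (D.A.symm t), ?_, ?_, hA4, D.B4, ?_, ?_, D.Bfix, ?_⟩⟩
    · exact D.mono.comp D.A.symm.strictMono
    · exact D.cont.comp D.A.symm.continuous
    · intro t
      rw [hA4, D.th4]
    · intro m
      apply D.A.injective
      rw [D.Afix, OrderIso.apply_symm_apply]
    · intro t
      simp only [OrderIso.symm_symm]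
      have h1 := D.rot (D.A.symm (D.B.symm (D.A (D.B (D.A.symm t)))))
      rw [OrderIso.apply_symm_apply, OrderIso.apply_symm_apply, OrderIso.symm_apply_apply,
        OrderIso.symm_apply_apply] at h1
      linarith
  · subst h
    refine ⟨⟨OrderIso.refl ℝ, OrderIso.refl ℝ, id, strictMono_id, continuous_id, ?_, ?_, ?_, ?_, ?_,
      ?_⟩⟩ <;> intro t <;> simp
  · rw [abs_of_pos h] at hσ
    exact exists_hol_pos σ h hσ

end Pool.Agent.H.MP_1611f1_gt
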