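import Pool.Agent.H.MP_1611f1_gt.Defs

/-!
Order germs, and charts from fibrewise monotone functions.
-/

namespace Pool.Agent.H.MP_1611f1_gt

open Topology Set Filter

/-- `f` and `g` define the same order near `z₀` -/
def OrdEq {X : Type*} [TopologicalSpace X] (z₀ : X) (f g : X → ℝ) : Prop :=
  ∃ N ∈ 𝓝 z₀, ∀ z ∈ N, ∀ z' ∈ N, f z < f z' ↔ g z < g z'

theorem OrdEq.refl {X : Type*} [TopologicalSpace X] (z₀ : X) (f : X → ℝ) : OrdEq z₀ f f :=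
  ⟨univ, univ_mem, fun _ _ _ _ => Iff.rfl⟩

theorem OrdEq.symm {X : Type*} [TopologicalSpace X] {z₀ : X} {f g : X → ℝ} (h : OrdEq z₀ f g) :
    OrdEq z₀ g f := by
  obtain ⟨N, hN, h⟩ := h
  exact ⟨N, hN, fun z hz z' hz' => (h z hz z' hz').symm⟩

theorem OrdEq.trans {X : Type*} [TopologicalSpace X] {z₀ : X} {f g k : X → ℝ}
    (h : OrdEq z₀ f g) (h' : OrdEq z₀ g k) : OrdEq z₀ f k := by
  obtain ⟨N, hN, h⟩ := h
  obtain ⟨N', hN', h'⟩ := h'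
  exact ⟨N ∩ N', inter_mem hN hN', fun z hz z' hz' =>
    (h z hz.1 z' hz'.1).trans (h' z hz.2 z' hz'.2)⟩

/-- locally `g = G ∘ f` with `G` strictly increasing -/
theorem OrdEq.of_comp {X : Type*} [TopologicalSpace X] {z₀ : X} {f g : X → ℝ} (G : ℝ → ℝ)
    (hG : StrictMono G) (h : ∀ᶠ z in 𝓝 z₀, g z = G (f z)) : OrdEq z₀ f g := by
  refine ⟨{z | g z = G (f z)}, h, fun z hz z' hz' => ?_⟩
  rw [mem_setOf_eq] at hz hz'
  rw [hz, hz', hG.lt_iff_lt]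

theorem OrdEq.congr {X : Type*} [TopologicalSpace X] {z₀ : X} {f g f' g' : X → ℝ}
    (h : OrdEq z₀ f g) (hf : ∀ᶠ z in 𝓝 z₀, f' z = f z) (hg : ∀ᶠ z in 𝓝 z₀, g' z = g z) :
    OrdEq z₀ f' g' :=
  ((OrdEq.of_comp id strictMono_id (hf.mono fun _ h => h)).symm.trans h).trans
    (OrdEq.of_comp id strictMono_id (hg.mono fun _ h => h))

/-- transfer along open maps -/
theorem OrdEq.of_openMap {X Y : Type*} [TopologicalSpace X] [TopologicalSpace Y] {R : X → Y}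
    (hR : IsOpenMap R) {z₀ : X} {f g : Y → ℝ} (h : OrdEq z₀ (f ∘ R) (g ∘ R)) :
    OrdEq (R z₀) f g := by
  obtain ⟨N, hN, h⟩ := h
  refine ⟨R '' N, hR.image_mem_nhds hN, ?_⟩
  rintro _ ⟨z, hz, rfl⟩ _ ⟨z', hz', rfl⟩
  exact h z hz z' hz'

theorem OrdEq.comp_cont {X Y : Type*} [TopologicalSpace X] [TopologicalSpace Y] {R : X → Y}
    {z₀ : X} (hR : ContinuousAt R z₀) {f g : Y → ℝ} (h : OrdEq (R z₀) f g) :
    OrdEq z₀ (f ∘ R) (g ∘ R) := by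
  obtain ⟨N, hN, h⟩ := h
  exact ⟨R ⁻¹' N, hR hN, fun z hz z' hz' => h _ hz _ hz'⟩

/-- the map sending x, t to (ξ x, f(x,t)) is open on U × (c,d) -/
theorem Fib_isOpenMap {S : Type*} [TopologicalSpace S]
    (ξ : OpenPartialHomeomorph S (ℝ × ℝ)) {U : Set S} (hU : IsOpen U)
    (hUξ : U ⊆ ξ.source) {c d : ℝ} (f : S × ℝ → ℝ)
    (hf : ContinuousOn f (U ×ˢ Ioo c d))
    (hmono : ∀ x ∈ U, StrictMonoOn (fun t => f (x, t)) (Ioo c d)) :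
    IsOpenMap ((U ×ˢ Ioo c d).domRestrict (fun z : S × ℝ => (ξ z.1, f z))) := by
  have hWo : IsOpen (U ×ˢ Ioo c d) := hU.prod isOpen_Ioo
  apply IsOpenMap.of_nhds_le
  rintro ⟨⟨x₀, t₀⟩, hz₀⟩ M hM
  have hx₀ : x₀ ∈ U := hz₀.1
  have ht₀ : t₀ ∈ Ioo c d := hz₀.2
  -- the preimage of `M` in the product
  have hM1 : {z : S × ℝ | z ∈ U ×ˢ Ioo c d ∧ (ξ z.1, f z) ∈ M} ∈ 𝓝 (x₀, t₀) := by
    have h1 := hWo.isOpenMap_subtype_val.image_mem_nhds (mem_map.mp hM)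
    refine mem_of_superset h1 ?_
    rintro _ ⟨z, hz, rfl⟩
    exact ⟨z.2, hz⟩
  obtain ⟨U1, hU1, V1, hV1, hUV⟩ := mem_nhds_prod_iff.mp hM1
  obtain ⟨ε, hε, hεV⟩ := Metric.nhds_basis_closedBall.mem_iff.mp hV1
  rw [Real.closedBall_eq_Icc] at hεV
  have hx₀1 : x₀ ∈ U1 := mem_of_mem_nhds hU1
  have hmem : ∀ x ∈ U1, ∀ t ∈ Icc (t₀ - ε) (t₀ + ε),
      (x, t) ∈ U ×ˢ Ioo c d ∧ (ξ x, f (x, t)) ∈ M := fun x hx t ht => hUV ⟨hx, hεV ht⟩
  have hl : t₀ - ε ∈ Icc (t₀ - ε) (t₀ + ε) := ⟨le_rfl, by linarith⟩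
  have hr : t₀ + ε ∈ Icc (t₀ - ε) (t₀ + ε) := ⟨by linarith, le_rfl⟩
  have hl0 := (hmem x₀ hx₀1 _ hl).1
  have hr0 := (hmem x₀ hx₀1 _ hr).1
  have h1 : f (x₀, t₀ - ε) < f (x₀, t₀) := hmono x₀ hx₀ hl0.2 ht₀ (by linarith)
  have h2 : f (x₀, t₀) < f (x₀, t₀ + ε) := hmono x₀ hx₀ ht₀ hr0.2 (by linarith)
  obtain ⟨a, ha1, ha2⟩ := exists_between h1
  obtain ⟨b, hb1, hb2⟩ := exists_between h2
  have hcl : ContinuousAt (fun x => f (x, t₀ - ε)) x₀ := by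
    have h3 : ContinuousAt f (x₀, t₀ - ε) := hf.continuousAt (hWo.mem_nhds hl0)
    exact h3.comp (f := fun x => (x, t₀ - ε)) (by fun_prop)
  have hcr : ContinuousAt (fun x => f (x, t₀ + ε)) x₀ := by
    have h3 : ContinuousAt f (x₀, t₀ + ε) := hf.continuousAt (hWo.mem_nhds hr0)
    exact h3.comp (f := fun x => (x, t₀ + ε)) (by fun_prop)
  have hA : {x | x ∈ U1 ∧ f (x, t₀ - ε) < a ∧ b < f (x, t₀ + ε)} ∈ 𝓝 x₀ := by
    filter_upwards [hU1, hcl.eventually_lt_const ha1, hcr.eventually_const_lt hb2]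
      with x hx1 hx2 hx3 using ⟨hx1, hx2, hx3⟩
  have h4 := ξ.image_mem_nhds (hUξ hx₀) hA
  have h5 : Ioo a b ∈ 𝓝 (f (x₀, t₀)) := Ioo_mem_nhds ha2 hb1
  refine mem_of_superset (prod_mem_nhds h4 h5) ?_
  rintro ⟨_, s⟩ ⟨⟨x, ⟨hx1, hx2, hx3⟩, rfl⟩, hs⟩
  have hs1 : a < s := hs.1
  have hs2 : s < b := hs.2
  have hcx : ContinuousOn (fun t => f (x, t)) (Icc (t₀ - ε) (t₀ + ε)) := by
    apply hf.comp (f := fun t => (x, t)) (by fun_prop)
    intro t ht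
    exact (hmem x hx1 t ht).1
  obtain ⟨t, ht, hts⟩ := intermediate_value_Icc (by linarith) hcx
    (show s ∈ Icc (f (x, t₀ - ε)) (f (x, t₀ + ε)) from ⟨by linarith, by linarith⟩)
  have h6 := (hmem x hx1 t ht).2
  simp only at hts
  rw [hts] at h6
  exact h6

/-- Charts from fibrewise monotone functions: `P : S × ℝ → Y` is a local homeomorphism, injective
on `U × (c,d)`. -/
theorem exists_chart {S Y : Type*} [TopologicalSpace S] [TopologicalSpace Y] {P : S × ℝ → Y}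
    (hP : IsLocalHomeomorph P) (ξ : OpenPartialHomeomorph S (ℝ × ℝ)) {U : Set S} (hU : IsOpen U)
    (hUξ : U ⊆ ξ.source) {c d : ℝ} (hinj : InjOn P (U ×ˢ Ioo c d)) (f : S × ℝ → ℝ)
    (hf : ContinuousOn f (U ×ˢ Ioo c d))
    (hmono : ∀ x ∈ U, StrictMonoOn (fun t => f (x, t)) (Ioo c d)) :
    ∃ C : OpenPartialHomeomorph Y ((ℝ × ℝ) × ℝ), C.source = P '' (U ×ˢ Ioo c d) ∧
      ∀ z ∈ U ×ˢ Ioo c d, C (P z) = (ξ z.1, f z) := by
  have hne : Nonempty (S × ℝ) := ⟨(ξ.symm (0, 0), 0)⟩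
  have hWo : IsOpen (U ×ˢ Ioo c d) := hU.prod isOpen_Ioo
  -- first chart: `P`
  let e1 : OpenPartialHomeomorph (S × ℝ) Y :=
    OpenPartialHomeomorph.ofContinuousOpen (hinj.toPartialEquiv P (U ×ˢ Ioo c d))
      hP.continuous.continuousOn hP.isOpenMap hWo
  have he1 : ∀ z, e1 z = P z := fun z => rfl
  have he1s : e1.source = U ×ˢ Ioo c d := rfl
  have he1t : e1.target = P '' (U ×ˢ Ioo c d) := rfl
  -- second chart
  have hinj2 : InjOn (fun z : S × ℝ => (ξ z.1, f z)) (U ×ˢ Ioo c d) := by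
    rintro ⟨x, t⟩ hz ⟨x', t'⟩ hz' h
    simp only [Prod.mk.injEq] at h
    have hx : x = x' := ξ.injOn (hUξ hz.1) (hUξ hz'.1) h.1
    subst hx
    have ht : t = t' := (hmono x hz.1).injOn hz.2 hz'.2 h.2
    rw [ht]
  have hcont2 : ContinuousOn (fun z : S × ℝ => (ξ z.1, f z)) (U ×ˢ Ioo c d) := by
    apply ContinuousOn.prodMk _ hf
    exact ξ.continuousOn.comp continuous_fst.continuousOn (fun z hz => hUξ hz.1)
  let e2 : OpenPartialHomeomorph (S × ℝ) ((ℝ × ℝ) × ℝ) :=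
    OpenPartialHomeomorph.ofContinuousOpenRestrict
      (hinj2.toPartialEquiv (fun z : S × ℝ => (ξ z.1, f z)) (U ×ˢ Ioo c d)) hcont2
      (Fib_isOpenMap ξ hU hUξ f hf hmono) hWo
  have he2 : ∀ z, e2 z = (ξ z.1, f z) := fun z => rfl
  have he2s : e2.source = U ×ˢ Ioo c d := rfl
  refine ⟨e1.symm.trans e2, ?_, ?_⟩
  · rw [OpenPartialHomeomorph.trans_source, OpenPartialHomeomorph.symm_source, he1t]
    apply inter_eq_left.mpr
    intro y hy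
    rw [mem_preimage, he2s, ← he1s]
    exact e1.map_target hy
  · intro z hz
    rw [OpenPartialHomeomorph.coe_trans, Function.comp_apply, ← he1 z, e1.left_inv hz, he2]

end Pool.Agent.H.MP_1611f1_gt
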