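import Mathlib

/-!
Definitions for taut foliations in Dehn fillings of surface bundles.
-/

namespace Pool.Agent.H.MP_1611f1_gt

open Topology Set Filter

/-- A co-oriented codimension one foliation of class `C^0` of a `3`-manifold `Y`: an atlas of
charts to `ℝ² × ℝ` whose transition maps preserve, locally, the order of the last coordinate
(so they preserve the horizontal plaques `last coordinate = const` and the co-orientation). -/
structure Foliation (Y : Type*) [TopologicalSpace Y] where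
  charts : Set (OpenPartialHomeomorph Y ((ℝ × ℝ) × ℝ))
  cover : ∀ y : Y, ∃ c ∈ charts, y ∈ c.source
  compat : ∀ c ∈ charts, ∀ c' ∈ charts, ∀ y : Y, y ∈ c.source → y ∈ c'.source →
    ∃ N ∈ 𝓝 y, ∀ z ∈ N, ∀ z' ∈ N, (c z).2 < (c z').2 ↔ (c' z).2 < (c' z').2

namespace Foliation

variable {Y : Type*} [TopologicalSpace Y] (F : Foliation Y)

/-- a path which stays in one leaf -/
def LeafPath {y y' : Y} (γ : Path y y') : Prop :=
  ∀ s : unitInterval, ∀ c ∈ F.charts, γ s ∈ c.source →
    ∀ᶠ s' in 𝓝 s, (c (γ s')).2 = (c (γ s)).2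

/-- two points in one leaf -/
def SameLeaf (y y' : Y) : Prop := ∃ γ : Path y y', F.LeafPath γ

/-- a closed curve, given as a map of period `1`, positively transverse to the foliation -/
def ClosedTransversal (l : ℝ → Y) : Prop :=
  Continuous l ∧ (∀ s, l (s + 1) = l s) ∧
    ∀ s, ∀ c ∈ F.charts, l s ∈ c.source →
      ∃ ε > 0, StrictMonoOn (fun s' => (c (l s')).2) (Ioo (s - ε) (s + ε))

/-- every leaf meets a closed transversal -/
def Taut : Prop := ∀ y, ∃ l : ℝ → Y, ∃ s : ℝ, F.ClosedTransversal l ∧ F.SameLeaf y (l s)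

end Foliation

/-- A surface `S` (without boundary) with ends: `collar j` is an open annulus
`(ℝ/ℤ) × (1,2)`, whose part near radius `1` goes to the `j`-th end of `S`. -/
structure Surf (S : Type*) [TopologicalSpace S] (J : Type*) where
  flat : ∀ x : S, ∃ c : OpenPartialHomeomorph S (ℝ × ℝ), x ∈ c.source
  collar : J → AddCircle (1 : ℝ) × Ioo (1 : ℝ) 2 → S
  emb : ∀ j, IsOpenEmbedding (collar j)
  disj : ∀ i j z w, collar i z = collar j w → i = j
  closed : ∀ j, ∀ r : ℝ, r < 2 → IsClosed (collar j '' {z | (z.2 : ℝ) ≤ r})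

/-- Pairs of arc systems `a k`, `b k` (one pair for every colour `k`), given by their collapse maps
`S → ℝ/ℤ` (the value is `0` outside a co-oriented strip around the arcs, and runs from `0` to `1`
when one crosses the strip). All strips are disjoint. Every end `j` has a colour `col j`; the
strips of `a k`, `b k` end at the ends of colour `k` only, and going once around the end `j` one
crosses `a, b, a, b` (of the colour of `j`, in the directions `+, +, -, -`), `L j` times.
Every point outside the (slightly smaller closed) strips can be joined, outside of the strips, to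
an end. -/
structure Arcs {S : Type*} [TopologicalSpace S] {J K : Type*} (E : Surf S J) (col : J → K)
    (L : J → ℕ) where
  a : K → C(S, AddCircle (1 : ℝ))
  b : K → C(S, AddCircle (1 : ℝ))
  disj_ab : ∀ i k x, a i x = 0 ∨ b k x = 0
  disj_aa : ∀ i k x, i ≠ k → a i x = 0 ∨ a k x = 0
  disj_bb : ∀ i k x, i ≠ k → b i x = 0 ∨ b k x = 0
  other : ∀ k j z, k ≠ col j → a k (E.collar j z) = 0 ∧ b k (E.collar j z) = 0
  end_a : ∀ (j : J) (k : ℕ) (u : ℝ) (r : Ioo (1 : ℝ) 2), u ∈ Icc (0 : ℝ) 1 →
    a (col j) (E.collar j ((((k + u) / (4 * L j) : ℝ) : AddCircle (1 : ℝ)), r)) =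
      ((if k % 4 = 0 then u else if k % 4 = 2 then -u else 0 : ℝ) : AddCircle (1 : ℝ))
  end_b : ∀ (j : J) (k : ℕ) (u : ℝ) (r : Ioo (1 : ℝ) 2), u ∈ Icc (0 : ℝ) 1 →
    b (col j) (E.collar j ((((k + u) / (4 * L j) : ℝ) : AddCircle (1 : ℝ)), r)) =
      ((if k % 4 = 1 then u else if k % 4 = 3 then -u else 0 : ℝ) : AddCircle (1 : ℝ))
  reach : ∀ x ∈ {x : S | ∀ k, ‖a k x‖ < 1 / 4 ∧ ‖b k x‖ < 1 / 4},
    ∃ j z, JoinedIn {x : S | ∀ k, ‖a k x‖ < 1 / 4 ∧ ‖b k x‖ < 1 / 4} x (E.collar j z)

/-- Homeomorphisms `g i` preserving the systems `a`, and `h i` preserving the systems `b`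
(`i = 0, …, 2 n - 1`), which are the identity on the collars. -/
structure Factors {S : Type*} [TopologicalSpace S] {J K : Type*} {E : Surf S J} {col : J → K}
    {L : J → ℕ} (A : Arcs E col L) (n : ℕ) where
  g : Fin (2 * n) → (S ≃ₜ S)
  h : Fin (2 * n) → (S ≃ₜ S)
  g_collar : ∀ i j z, g i (E.collar j z) = E.collar j z
  h_collar : ∀ i j z, h i (E.collar j z) = E.collar j z
  g_a : ∀ i k x, A.a k (g i x) = A.a k x
  h_b : ∀ i k x, A.b k (h i x) = A.b k x

/-- the monodromy `h₀ g₀ h₁ g₁ ⋯ h₂ₙ₋₁ g₂ₙ₋₁` -/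
def Factors.phi {S : Type*} [TopologicalSpace S] {J K : Type*} {E : Surf S J} {col : J → K}
    {L : J → ℕ} {A : Arcs E col L} {n : ℕ} (Φ : Factors A n) : S ≃ₜ S :=
  (List.ofFn fun i => Φ.h i * Φ.g i).prod

/-- the point of the open disc of radius `2` with polar coordinates `r`, `ψ` -/
noncomputable def polar (r : Ioo (1 : ℝ) 2) (ψ : AddCircle (1 : ℝ)) : Metric.ball (0 : ℂ) 2 :=
  ⟨(r : ℝ) * (AddCircle.toCircle ψ : ℂ), by
    have h1 := r.2.1
    have h2 := r.2.2
    rw [mem_ball_zero_iff, norm_mul, Circle.norm_coe, mul_one, Complex.norm_real,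
      Real.norm_of_nonneg (by linarith)]
    exact h2⟩

/-- `Y` is the Dehn filling of the mapping torus of `phi` (mapping torus: `p`; solid tori: `q j`).
Over the collar `j` the solid torus is glued by the matrix `(al, be; ga, de)`: the point
`(θ, r, t)` is glued to the point with polar coordinates `(r, al θ + be t)` and height
`ga θ + de t`; the meridian disc is `height = const`. -/
structure Filling {S : Type*} [TopologicalSpace S] {J : Type*} (E : Surf S J) (phi : S ≃ₜ S)
    (al be ga de : J → ℤ) (Y : Type*) [TopologicalSpace Y] where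
  p : S × ℝ → Y
  q : J → Metric.ball (0 : ℂ) 2 × AddCircle (1 : ℝ) → Y
  p_loc : IsLocalHomeomorph p
  p_eq : ∀ x t x' t', p (x, t) = p (x', t') ↔ ∃ k : ℤ, t' = t + k ∧ x = (phi ^ k) x'
  q_emb : ∀ j, IsOpenEmbedding (q j)
  q_disj : ∀ i j z w, q i z = q j w → i = j
  glue : ∀ (j : J) (θ : AddCircle (1 : ℝ)) (r : Ioo (1 : ℝ) 2) (t : ℝ),
    p (E.collar j (θ, r), t) =
      q j (polar r (al j • θ + ((be j * t : ℝ) : AddCircle (1 : ℝ))),
        ga j • θ + ((de j * t : ℝ) : AddCircle (1 : ℝ)))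
  overlap : ∀ x t j z, p (x, t) = q j z → ∃ w, x = E.collar j w
  cover : ∀ y, (∃ z, p z = y) ∨ ∃ j z, q j z = y

end Pool.Agent.H.MP_1611f1_gt
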