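import Mathlib

/-!
The lift of the points of the circle.
-/

namespace Pool.Agent.H.MP_1611f1_gt

open Topology Set Filter

/-- the lift to `[0,1)` -/
noncomputable def lft (κ : AddCircle (1 : ℝ)) : ℝ := (AddCircle.equivIco 1 0 κ : ℝ)

theorem lft_coe {u : ℝ} (hu : u ∈ Ico (0 : ℝ) 1) : lft (u : AddCircle (1 : ℝ)) = u := by
  have h : u ∈ Ico (0 : ℝ) (0 + 1) := by
    rw [zero_add]
    exact hu
  unfold lft
  rw [AddCircle.equivIco_coe_eq h]

theorem coe_lft (κ : AddCircle (1 : ℝ)) : ((lft κ : ℝ) : AddCircle (1 : ℝ)) = κ := by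
  unfold lft
  exact AddCircle.coe_equivIco

theorem lft_mem (κ : AddCircle (1 : ℝ)) : lft κ ∈ Ico (0 : ℝ) 1 := by
  have h := (AddCircle.equivIco (1 : ℝ) 0 κ).2
  exact ⟨h.1, h.2.trans_le (zero_add (1 : ℝ)).le⟩

theorem lft_pos {κ : AddCircle (1 : ℝ)} (h : κ ≠ 0) : 0 < lft κ := by
  refine lt_of_le_of_ne (lft_mem κ).1 fun h0 => h ?_
  rw [← coe_lft κ, ← h0]
  rfl

theorem lft_contAt {κ : AddCircle (1 : ℝ)} (h : κ ≠ 0) : ContinuousAt lft κ := by
  have h1 : κ ≠ ((0 : ℝ) : AddCircle (1 : ℝ)) := by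
    intro h2
    exact h (h2.trans rfl)
  exact continuous_subtype_val.continuousAt.comp (AddCircle.continuousAt_equivIco (1 : ℝ) 0 h1)

/-- the norm in terms of the lift -/
theorem norm_lt_iff (κ : AddCircle (1 : ℝ)) :
    ‖κ‖ < 1 / 4 ↔ lft κ < 1 / 4 ∨ 3 / 4 < lft κ := by
  have hm := lft_mem κ
  obtain ⟨u, hu⟩ : ∃ u, u = lft κ := ⟨_, rfl⟩
  have hκ : κ = (u : AddCircle (1 : ℝ)) := by
    rw [hu]
    exact (coe_lft κ).symm
  rw [← hu] at hm ⊢
  rw [hκ, UnitAddCircle.norm_eq]
  rcases lt_or_ge u (1 / 2) with h | h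
  · have hr : round u = 0 := by
      rw [round_eq, Int.floor_eq_iff]
      push_cast
      constructor
      · linarith [hm.1]
      · linarith
    rw [hr, Int.cast_zero, sub_zero, abs_of_nonneg hm.1]
    constructor
    · intro h1
      exact Or.inl h1
    · rintro (h1 | h1)
      · exact h1
      · linarith
  · have hr : round u = 1 := by
      rw [round_eq, Int.floor_eq_iff]
      push_cast
      constructor
      · linarith
      · linarith [hm.2]
    rw [hr, Int.cast_one, abs_of_nonpos (by linarith [hm.2])]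
    constructor
    · intro h1
      exact Or.inr (by linarith)
    · rintro (h1 | h1)
      · linarith
      · linarith

end Pool.Agent.H.MP_1611f1_gt
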