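import Pool.Agent.H.MP_1611f1_gt.Defs

/-!
The mapping torus part of the filled manifold.
-/

namespace Pool.Agent.H.MP_1611f1_gt

open Topology Set Filter

variable {S : Type*} [TopologicalSpace S] {J K : Type*} {E : Surf S J} {col : J → K} {L : J → ℕ}
  {phi : S ≃ₜ S} {al be ga de : J → ℤ} {Y : Type*} [TopologicalSpace Y]

/-- the mapping torus part, with the time rescaled so that the deck transformation is `4 n` -/
noncomputable def PP (Fl : Filling E phi al be ga de Y) (n : ℕ) (z : S × ℝ) : Y :=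
  Fl.p (z.1, z.2 / (4 * n))

/-- the collar part in the coordinates `(y, r, t)` -/
noncomputable def QQ (Fl : Filling E phi al be ga de Y) (L : J → ℕ) (n : ℕ) (j : J)
    (z : ℝ × Ioo (1 : ℝ) 2 × ℝ) : Y :=
  PP Fl n (E.collar j (((z.1 / (4 * L j) : ℝ) : AddCircle (1 : ℝ)), z.2.1), z.2.2)

variable (Fl : Filling E phi al be ga de Y) {n : ℕ}

/-- the rescaling of time -/
noncomputable def ChA_scale (S : Type*) [TopologicalSpace S] (n : ℕ) (hn : 0 < n) :
    (S × ℝ) ≃ₜ (S × ℝ) :=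
  (Homeomorph.refl S).prodCongr
    (Homeomorph.mulRight₀ ((4 * (n : ℝ))⁻¹) (inv_ne_zero (by positivity)))

theorem PP_loc (hn : 0 < n) : IsLocalHomeomorph (PP Fl n) := by
  have h : PP Fl n = Fl.p ∘ (ChA_scale S n hn) := by
    funext z
    obtain ⟨x, t⟩ := z
    simp [PP, ChA_scale, div_eq_mul_inv, Homeomorph.prodCongr]
  rw [h]
  exact Fl.p_loc.comp (ChA_scale S n hn).isLocalHomeomorph

theorem PP_cont (hn : 0 < n) : Continuous (PP Fl n) := (PP_loc Fl hn).continuous

theorem PP_open (hn : 0 < n) : IsOpenMap (PP Fl n) := (PP_loc Fl hn).isOpenMap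

theorem PP_eq (hn : 0 < n) (x : S) (t : ℝ) (x' : S) (t' : ℝ) :
    PP Fl n (x, t) = PP Fl n (x', t') ↔ ∃ k : ℤ, t' = t + 4 * n * k ∧ x = (phi ^ k) x' := by
  have hn' : (4 * (n : ℝ)) ≠ 0 := by positivity
  simp only [PP]
  rw [Fl.p_eq]
  refine exists_congr fun k => and_congr_left fun _ => ?_
  constructor
  · intro h
    field_simp at h
    linarith
  · rintro rfl
    field_simp

theorem PP_inj (hn : 0 < n) (U : Set S) {c d : ℝ} (hcd : d - c ≤ 4) :
    InjOn (PP Fl n) (U ×ˢ Ioo c d) := by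
  rintro ⟨x, t⟩ ⟨_, ht⟩ ⟨x', t'⟩ ⟨_, ht'⟩ h
  obtain ⟨k, h1, h2⟩ := (PP_eq Fl hn x t x' t').1 h
  simp only [mem_Ioo] at ht ht'
  have hn1 : (1 : ℝ) ≤ n := by exact_mod_cast hn
  have hk : k = 0 := by
    by_contra hk
    have h3 : (1 : ℝ) ≤ |(k : ℝ)| := by
      rw [← Int.cast_abs]
      exact_mod_cast Int.one_le_abs hk
    have h4 : |t' - t| < 4 := by
      rw [abs_lt]
      constructor <;> linarith [ht.1, ht.2, ht'.1, ht'.2]
    have h5 : t' - t = 4 * n * k := by linarith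
    rw [h5, abs_mul, abs_mul, Nat.abs_cast] at h4
    norm_num at h4
    nlinarith
  subst hk
  simp only [Int.cast_zero, mul_zero, add_zero] at h1
  simp only [zpow_zero, Homeomorph.one_apply] at h2
  rw [h1, h2]

end Pool.Agent.H.MP_1611f1_gt
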