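import Pool.Agent.H.MP_1611f1_gt.ChA

/-!
The collars of the filled manifold.
-/

namespace Pool.Agent.H.MP_1611f1_gt

open Topology Set Filter

variable {S : Type*} [TopologicalSpace S] {J K : Type*} {E : Surf S J} {col : J → K} {L : J → ℕ}
  {phi : S ≃ₜ S} {al be ga de : J → ℤ} {Y : Type*} [TopologicalSpace Y]

variable (Fl : Filling E phi al be ga de Y) {n : ℕ}

theorem ChB_coe_cont (c : ℝ) : Continuous (fun y : ℝ => ((y / c : ℝ) : AddCircle (1 : ℝ))) :=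
  (AddCircle.continuous_mk' (1 : ℝ)).comp (continuous_id.div_const c)

theorem ChB_coe_open (c : ℝ) (hc : c ≠ 0) :
    IsOpenMap (fun y : ℝ => ((y / c : ℝ) : AddCircle (1 : ℝ))) := by
  have h1 : IsOpenMap (fun y : ℝ => y / c) := by
    have h2 := (Homeomorph.mulRight₀ c⁻¹ (inv_ne_zero hc)).isOpenMap
    have h3 : (fun y : ℝ => y / c) = (Homeomorph.mulRight₀ c⁻¹ (inv_ne_zero hc) : ℝ → ℝ) := by
      funext y
      simp [div_eq_mul_inv]
    rw [h3]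
    exact h2
  exact IsOpenMap.comp (f := fun y : ℝ => y / c) QuotientAddGroup.isOpenMap_coe h1

theorem ChB_zpow_fix (hcol : ∀ j z, phi (E.collar j z) = E.collar j z) (k : ℤ) (j : J)
    (z : AddCircle (1 : ℝ) × Ioo (1 : ℝ) 2) : (phi ^ k) (E.collar j z) = E.collar j z := by
  have hinv : (phi⁻¹ : S ≃ₜ S) (E.collar j z) = E.collar j z := by
    have h : phi.symm (E.collar j z) = E.collar j z := by
      rw [Homeomorph.symm_apply_eq]
      exact (hcol j z).symm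
    exact h
  induction k using Int.induction_on with
  | zero => simp
  | succ i ih =>
    rw [zpow_add_one]
    change (phi ^ (i : ℤ)) (phi (E.collar j z)) = _
    rw [hcol, ih]
  | pred i ih =>
    rw [zpow_sub_one]
    change (phi ^ (-(i : ℤ))) ((phi⁻¹ : S ≃ₜ S) (E.collar j z)) = _
    rw [hinv, ih]

theorem QQ_cont (hn : 0 < n) (j : J) : Continuous (QQ Fl L n j) := by
  have h1 : Continuous (fun z : ℝ × Ioo (1 : ℝ) 2 × ℝ =>
      ((((z.1 / (4 * L j) : ℝ) : AddCircle (1 : ℝ)), z.2.1) :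
        AddCircle (1 : ℝ) × Ioo (1 : ℝ) 2)) :=
    ((ChB_coe_cont (4 * L j)).comp continuous_fst).prodMk (continuous_fst.comp continuous_snd)
  have h2 : Continuous (fun z : ℝ × Ioo (1 : ℝ) 2 × ℝ =>
      (E.collar j (((z.1 / (4 * L j) : ℝ) : AddCircle (1 : ℝ)), z.2.1), z.2.2)) :=
    ((E.emb j).continuous.comp h1).prodMk (continuous_snd.comp continuous_snd)
  exact (PP_cont Fl hn).comp h2

theorem QQ_open (hn : 0 < n) (j : J) (hL : 0 < L j) : IsOpenMap (QQ Fl L n j) := by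
  have hc : (4 * (L j : ℝ)) ≠ 0 := by positivity
  have h1 : IsOpenMap (Prod.map (fun y : ℝ => ((y / (4 * L j) : ℝ) : AddCircle (1 : ℝ)))
      (id : Ioo (1 : ℝ) 2 → Ioo (1 : ℝ) 2)) := (ChB_coe_open _ hc).prodMap IsOpenMap.id
  have h2 := ((E.emb j).isOpenMap.comp h1).prodMap (IsOpenMap.id (X := ℝ))
  have h3 := h2.comp (Homeomorph.prodAssoc ℝ (Ioo (1 : ℝ) 2) ℝ).symm.isOpenMap
  exact (PP_open Fl hn).comp h3

theorem QQ_torus (hn : 0 < n) (j : J) (z : ℝ × Ioo (1 : ℝ) 2 × ℝ) :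
    QQ Fl L n j z = Fl.q j
      (polar z.2.1 (al j • ((z.1 / (4 * L j) : ℝ) : AddCircle (1 : ℝ)) +
        ((be j * (z.2.2 / (4 * n)) : ℝ) : AddCircle (1 : ℝ))),
        ga j • ((z.1 / (4 * L j) : ℝ) : AddCircle (1 : ℝ)) +
        ((de j * (z.2.2 / (4 * n)) : ℝ) : AddCircle (1 : ℝ))) :=
  Fl.glue j _ _ _

/-- points with the same image in the collar part -/
theorem QQ_eq (hn : 0 < n) (hcol : ∀ j z, phi (E.collar j z) = E.collar j z) (j j' : J)
    (hL : 0 < L j) (z z' : ℝ × Ioo (1 : ℝ) 2 × ℝ) (h : QQ Fl L n j z = QQ Fl L n j' z') :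
    j = j' ∧ z.2.1 = z'.2.1 ∧ ∃ k m : ℤ, z'.1 = z.1 + 4 * L j * m ∧ z'.2.2 = z.2.2 + 4 * n * k := by
  obtain ⟨k, hk, hx⟩ := (PP_eq Fl hn _ _ _ _).mp h
  rw [ChB_zpow_fix hcol] at hx
  have hj : j = j' := E.disj _ _ _ _ hx
  subst hj
  have hw := (E.emb j).injective hx
  have hr : z.2.1 = z'.2.1 := congrArg Prod.snd hw
  have hy : ((z.1 / (4 * L j) : ℝ) : AddCircle (1 : ℝ)) =
      ((z'.1 / (4 * L j) : ℝ) : AddCircle (1 : ℝ)) := congrArg Prod.fst hw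
  rw [QuotientAddGroup.eq, AddSubgroup.mem_zmultiples_iff] at hy
  obtain ⟨m, hm⟩ := hy
  refine ⟨rfl, hr, k, m, ?_, hk⟩
  have hc : (L j : ℝ) ≠ 0 := by positivity
  rw [zsmul_eq_mul, mul_one] at hm
  rw [hm]
  field_simp
  ring

theorem QQ_per (hn : 0 < n) (hcol : ∀ j z, phi (E.collar j z) = E.collar j z) (j : J)
    (hL : 0 < L j) (y : ℝ) (r : Ioo (1 : ℝ) 2) (t : ℝ) (k m : ℤ) :
    QQ Fl L n j (y + 4 * L j * m, r, t + 4 * n * k) = QQ Fl L n j (y, r, t) := by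
  symm
  refine (PP_eq Fl hn _ _ _ _).mpr ⟨k, rfl, ?_⟩
  rw [ChB_zpow_fix hcol]
  have hc : (L j : ℝ) ≠ 0 := by positivity
  have h1 : ((((y + 4 * L j * m) / (4 * L j) : ℝ)) : AddCircle (1 : ℝ)) =
      ((y / (4 * L j) : ℝ) : AddCircle (1 : ℝ)) := by
    symm
    rw [QuotientAddGroup.eq, AddSubgroup.mem_zmultiples_iff]
    refine ⟨m, ?_⟩
    rw [zsmul_eq_mul, mul_one]
    field_simp
    ring
  show E.collar j (((y / (4 * L j) : ℝ) : AddCircle (1 : ℝ)), r) =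
    E.collar j ((((y + 4 * L j * m) / (4 * L j) : ℝ) : AddCircle (1 : ℝ)), r)
  rw [h1]

end Pool.Agent.H.MP_1611f1_gt
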