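import Pool.Agent.H.MP_1611f1_gt.ChA

/-!
Points over the collars.
-/

namespace Pool.Agent.H.MP_1611f1_gt

open Topology Set Filter

variable {S : Type*} [TopologicalSpace S] {J K : Type*} {E : Surf S J} {col : J → K} {L : J → ℕ}
  {phi : S ≃ₜ S} {al be ga de : J → ℤ} {Y : Type*} [TopologicalSpace Y]

variable (Fl : Filling E phi al be ga de Y) {n : ℕ}

/-- every point over a collar is in the image of `QQ` -/
theorem exists_QQ (j : J) (hL : 0 < L j) (w : AddCircle (1 : ℝ) × Ioo (1 : ℝ) 2) (t : ℝ) :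
    ∃ y : ℝ, PP Fl n (E.collar j w, t) = QQ Fl L n j (y, w.2, t) ∧
      E.collar j w = E.collar j (((y / (4 * L j) : ℝ) : AddCircle (1 : ℝ)), w.2) := by
  obtain ⟨u, hu⟩ := QuotientAddGroup.mk_surjective w.1
  have hL' : (4 * (L j : ℝ)) ≠ 0 := by positivity
  have h1 : ((u * (4 * L j)) / (4 * L j) : ℝ) = u := by field_simp
  have h2 : E.collar j w =
      E.collar j ((((u * (4 * L j)) / (4 * L j) : ℝ) : AddCircle (1 : ℝ)), w.2) := by
    rw [h1]
    exact congrArg (E.collar j) (Prod.ext hu.symm rfl)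
  exact ⟨u * (4 * L j), by unfold QQ; rw [← h2], h2⟩

/-- the outer part of the solid torus is in the image of `QQ`, with the same radius -/
theorem exists_QQ_torus (hn : 0 < n) (hdet : ∀ j, al j * de j - be j * ga j = 1) (j : J)
    (hL : 0 < L j) (w : Metric.ball (0 : ℂ) 2) (h : AddCircle (1 : ℝ)) (hw : 1 < ‖(w : ℂ)‖) :
    ∃ z : ℝ × Ioo (1 : ℝ) 2 × ℝ, Fl.q j (w, h) = QQ Fl L n j z ∧ (z.2.1 : ℝ) = ‖(w : ℂ)‖ := by
  have hr : ‖(w : ℂ)‖ ∈ Ioo (1 : ℝ) 2 := ⟨hw, mem_ball_zero_iff.1 w.2⟩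
  obtain ⟨b, hb⟩ := QuotientAddGroup.mk_surjective h
  set a : ℝ := Complex.arg (w : ℂ) / (2 * Real.pi) with ha
  have hpol : polar ⟨‖(w : ℂ)‖, hr⟩ ((a : ℝ) : AddCircle (1 : ℝ)) = w := by
    apply Subtype.ext
    show ((‖(w : ℂ)‖ : ℝ) : ℂ) * (AddCircle.toCircle ((a : ℝ) : AddCircle (1 : ℝ)) : ℂ) = w
    rw [AddCircle.toCircle_apply_mk, Circle.coe_exp]
    have h3 : 2 * Real.pi / 1 * a = Complex.arg (w : ℂ) := by
      rw [ha]
      field_simp
    rw [h3]
    exact Complex.norm_mul_exp_arg_mul_I _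
  have hL' : (4 * (L j : ℝ)) ≠ 0 := by positivity
  have hn' : (4 * (n : ℝ)) ≠ 0 := by positivity
  have hd : (al j : ℝ) * de j - be j * ga j = 1 := by exact_mod_cast hdet j
  refine ⟨((de j * a - be j * b) * (4 * L j), ⟨‖(w : ℂ)‖, hr⟩,
    (-(ga j) * a + al j * b) * (4 * n)), ?_, rfl⟩
  show Fl.q j (w, h) = Fl.p (E.collar j
    (((((de j * a - be j * b) * (4 * L j)) / (4 * L j) : ℝ) : AddCircle (1 : ℝ)),
      ⟨‖(w : ℂ)‖, hr⟩), ((-(ga j) * a + al j * b) * (4 * n)) / (4 * n))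
  have h1 : ((de j * a - be j * b) * (4 * L j)) / (4 * L j) = de j * a - be j * b := by
    field_simp
  have h2 : ((-(ga j) * a + al j * b) * (4 * n)) / (4 * n) = -(ga j) * a + al j * b := by
    field_simp
  rw [h1, h2, Fl.glue]
  have e1 : al j • (((de j * a - be j * b : ℝ)) : AddCircle (1 : ℝ)) +
      ((be j * (-(ga j) * a + al j * b) : ℝ) : AddCircle (1 : ℝ)) =
      ((a : ℝ) : AddCircle (1 : ℝ)) := by
    rw [← AddCircle.coe_zsmul, ← AddCircle.coe_add]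
    congr 1
    rw [zsmul_eq_mul]
    linear_combination a * hd
  have e2 : ga j • (((de j * a - be j * b : ℝ)) : AddCircle (1 : ℝ)) +
      ((de j * (-(ga j) * a + al j * b) : ℝ) : AddCircle (1 : ℝ)) =
      ((b : ℝ) : AddCircle (1 : ℝ)) := by
    rw [← AddCircle.coe_zsmul, ← AddCircle.coe_add]
    congr 1
    rw [zsmul_eq_mul]
    linear_combination b * hd
  rw [e1, e2, hpol]
  exact congrArg (fun x => Fl.q j (w, x)) hb.symm

end Pool.Agent.H.MP_1611f1_gt
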