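import Pool.Agent.H.MP_1611f1_gt.ColA

/-!
Blending with the linear function.
-/

namespace Pool.Agent.H.MP_1611f1_gt

open Topology Set Filter

variable {σ : ℝ} (H : Hol σ)

/-- the weight of `MM` at the radius `r` -/
noncomputable def lam (r : ℝ) : ℝ := max 0 (min 1 (3 * r - 4))

theorem lam_cont : Continuous lam := by
  unfold lam; fun_prop

theorem lam_nonneg (r : ℝ) : 0 ≤ lam r := le_max_left _ _

theorem lam_le_one (r : ℝ) : lam r ≤ 1 := max_le zero_le_one (min_le_left _ _)

theorem lam_zero {r : ℝ} (h : r ≤ 4 / 3) : lam r = 0 := by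
  unfold lam
  exact max_eq_left ((min_le_right _ _).trans (by linarith))

theorem lam_one {r : ℝ} (h : 5 / 3 ≤ r) : lam r = 1 := by
  unfold lam
  rw [min_eq_left (by linarith), max_eq_right zero_le_one]

/-- the blended function -/
noncomputable def MR (y r t : ℝ) : ℝ := lam r * MM H y t + (1 - lam r) * (t - σ * y)

theorem MR_cont : Continuous fun z : ℝ × ℝ × ℝ => MR H z.1 z.2.1 z.2.2 := by
  have h1 : Continuous fun z : ℝ × ℝ × ℝ => MM H z.1 z.2.2 :=
    (MM_cont H).comp (continuous_fst.prodMk (continuous_snd.comp continuous_snd))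
  have h2 : Continuous fun z : ℝ × ℝ × ℝ => lam z.2.1 :=
    lam_cont.comp (continuous_fst.comp continuous_snd)
  have h3 : Continuous fun z : ℝ × ℝ × ℝ => z.2.2 - σ * z.1 :=
    (continuous_snd.comp continuous_snd).sub (continuous_const.mul continuous_fst)
  exact (h2.mul h1).add ((continuous_const.sub h2).mul h3)

theorem MR_mono (y r : ℝ) : StrictMono (MR H y r) := by
  intro t t' h
  have h1 : MM H y t < MM H y t' := MM_mono H y h
  have h0 := lam_nonneg r
  have h2 := lam_le_one r
  change lam r * MM H y t + (1 - lam r) * (t - σ * y) <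
    lam r * MM H y t' + (1 - lam r) * (t' - σ * y)
  rcases h0.eq_or_lt with h3 | h3
  · rw [← h3]
    linarith
  · have h4 : lam r * MM H y t < lam r * MM H y t' := mul_lt_mul_of_pos_left h1 h3
    have h5 : (1 - lam r) * (t - σ * y) ≤ (1 - lam r) * (t' - σ * y) :=
      mul_le_mul_of_nonneg_left (by linarith) (by linarith)
    linarith

theorem MR_y (y r t : ℝ) (k : ℤ) : MR H (y + 4 * k) r t = MR H y r t - 4 * σ * k := by
  unfold MR
  rw [MM_y]
  ring

theorem MR_t (y r t : ℝ) (k : ℤ) : MR H y r (t + 4 * k) = MR H y r t + 4 * k := by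
  unfold MR
  rw [MM_t]
  ring

theorem MR_outer (y t : ℝ) {r : ℝ} (hr : 5 / 3 ≤ r) : MR H y r t = MM H y t := by
  rw [MR, lam_one hr]; ring

theorem MR_inner (y t : ℝ) {r : ℝ} (hr : r ≤ 4 / 3) : MR H y r t = t - σ * y := by
  rw [MR, lam_zero hr]; ring

/-- the leaves over a radial segment: for every `y, r, t, r'` there is a unique `t'` on the same
level, depending continuously on `r'` -/
theorem MR_solve (y c : ℝ) : ∃ g : ℝ → ℝ, Continuous g ∧ ∀ r, MR H y r (g r) = c := by
  have hmono : ∀ r, StrictMono (MR H y r) := fun r => MR_mono H y r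
  have hcont : ∀ r, Continuous (MR H y r) := fun r =>
    (MR_cont H).comp (continuous_const.prodMk (continuous_const.prodMk continuous_id))
  have htop : ∀ r, Tendsto (MR H y r) atTop atTop := by
    intro r
    refine tendsto_atTop_atTop_of_monotone (hmono r).monotone fun b => ?_
    refine ⟨0 + 4 * ((⌈(b - MR H y r 0) / 4⌉ : ℤ) : ℝ), ?_⟩
    rw [MR_t]
    have h1 := Int.le_ceil ((b - MR H y r 0) / 4)
    linarith
  have hbot : ∀ r, Tendsto (MR H y r) atBot atBot := by
    intro r
    refine tendsto_atBot_atBot_of_monotone (hmono r).monotone fun b => ?_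
    refine ⟨0 + 4 * ((⌊(b - MR H y r 0) / 4⌋ : ℤ) : ℝ), ?_⟩
    rw [MR_t]
    have h1 := Int.floor_le ((b - MR H y r 0) / 4)
    linarith
  choose g hg using fun r => (hcont r).surjective (htop r) (hbot r) c
  refine ⟨g, ?_, hg⟩
  rw [continuous_iff_continuousAt]
  intro r0
  have hr : ∀ t, Continuous fun r => MR H y r t := fun t =>
    (MR_cont H).comp (continuous_const.prodMk (continuous_id.prodMk continuous_const))
  refine tendsto_order.2 ⟨fun t ht => ?_, fun t ht => ?_⟩
  · have h1 : MR H y r0 t < c := by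
      rw [← hg r0]
      exact hmono r0 ht
    have h2 : ∀ᶠ r in 𝓝 r0, MR H y r t < c :=
      ((hr t).tendsto r0).eventually (gt_mem_nhds h1)
    filter_upwards [h2] with r h3
    rw [← hg r] at h3
    exact (hmono r).lt_iff_lt.1 h3
  · have h1 : c < MR H y r0 t := by
      rw [← hg r0]
      exact hmono r0 ht
    have h2 : ∀ᶠ r in 𝓝 r0, c < MR H y r t :=
      ((hr t).tendsto r0).eventually (lt_mem_nhds h1)
    filter_upwards [h2] with r h3
    rw [← hg r] at h3
    exact (hmono r).lt_iff_lt.1 h3

end Pool.Agent.H.MP_1611f1_gt
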