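import Pool.Agent.H.MP_1611f1_gt.TypC

/-!
Slices: the chain and the functions.
-/

namespace Pool.Agent.H.MP_1611f1_gt

open Topology Set Filter

variable {S : Type*} [TopologicalSpace S] {J K : Type*} {E : Surf S J} {col : J → K} {L : J → ℕ}

/-- A chain of homeomorphisms `ψ i` (the identification of the arc system at the times in
`[i, i+1)`): the step from `ψ (i-1)` to `ψ i` preserves the system `a` for odd `i` and the
system `b` for even `i`. -/
structure Chain (A : Arcs E col L) (n : ℕ) (phi : S ≃ₜ S) where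
  ψ : ℤ → (S ≃ₜ S)
  per : ∀ i, ψ (i + 4 * n) = ψ i * phi
  col : ∀ i j z, ψ i (E.collar j z) = E.collar j z
  step_a : ∀ i, Odd i → ∀ j x, A.a j (ψ i x) = A.a j (ψ (i - 1) x)
  step_b : ∀ i, Even i → ∀ j x, A.b j (ψ i x) = A.b j (ψ (i - 1) x)

variable (A : Arcs E col L) {σ : K → ℝ} (H : ∀ k, Hol (σ k)) {n : ℕ} {phi : S ≃ₜ S}
  (C : Chain A n phi)

/-- the step preserves the collapse maps of the active systems -/
theorem Chain.step {i : ℤ} {e : Bool × K} (h : act i e) (x : S) :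
    kap A e (C.ψ i x) = kap A e (C.ψ (i - 1) x) := by
  unfold kap
  rcases h with ⟨h1, h2⟩ | ⟨h1, h2⟩
  · rw [if_pos h2, if_pos h2]
    exact C.step_b i h1 e.2 x
  · rw [if_neg (by simp [h2]), if_neg (by simp [h2])]
    exact C.step_a i h1 e.2 x

theorem Chain.per_k (i k : ℤ) : C.ψ (i + 4 * n * k) = C.ψ i * phi ^ k := by
  induction k using Int.induction_on with
  | zero => simp
  | succ k ih =>
    have h := C.per (i + 4 * n * k)
    rw [ih] at h
    have h2 : i + 4 * (n : ℤ) * (k + 1) = i + 4 * n * k + 4 * n := by ring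
    rw [h2, h, zpow_add_one, mul_assoc]
  | pred k ih =>
    have h := C.per (i + 4 * n * (-k - 1))
    have h2 : i + 4 * (n : ℤ) * (-k - 1) + 4 * n = i + 4 * n * (-k) := by ring
    rw [h2, ih] at h
    rw [zpow_sub_one, ← mul_assoc, h, mul_inv_cancel_right]

include C in
theorem Chain.phi_col (j : J) (z) : phi (E.collar j z) = E.collar j z := by
  have h := C.per 0
  have h1 : C.ψ (0 + 4 * n) (E.collar j z) = C.ψ 0 (phi (E.collar j z)) := by
    rw [h]
    rfl
  rw [C.col] at h1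
  have h2 := C.col 0 j z
  exact (C.ψ 0).injective (h1.symm.trans h2.symm)

include C in
theorem Chain.phi_zpow_col (k : ℤ) (j : J) (z) : (phi ^ k) (E.collar j z) = E.collar j z := by
  have h := C.per_k A 0 k
  have h1 : C.ψ (0 + 4 * n * k) (E.collar j z) = C.ψ 0 ((phi ^ k) (E.collar j z)) := by
    rw [h]
    rfl
  rw [C.col] at h1
  have h2 := C.col 0 j z
  exact (C.ψ 0).injective (h1.symm.trans h2.symm)

/-- admissible pairs of types at the slice `i` -/
def Adm (i : ℤ) (a b : Option (Bool × K)) : Prop :=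
  (inaO i a ∧ inaO i b) ∨ ∃ e, act i e ∧ a = some e ∧ b = some e

/-- the domain of a pair of types -/
def DD (i : ℤ) (a b : Option (Bool × K)) : Set S :=
  {x | C.ψ (i - 1) x ∈ VV A a ∧ C.ψ i x ∈ VV A b}

/-- the function of a pair of types: `a` before the time `i`, `b` after it -/
noncomputable def Fs (i : ℤ) (a b : Option (Bool × K)) (x : S) (t : ℝ) : ℝ :=
  if t ≤ i then Fa A H a (C.ψ (i - 1) x) t else Fa A H b (C.ψ i x) t

theorem SlA_even (i k : ℤ) (n : ℕ) : Even (i + 4 * n * k) ↔ Even i := by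
  rw [Int.even_add]
  have : Even (4 * (n : ℤ) * k) := ⟨2 * n * k, by ring⟩
  simp [this]

theorem SlA_odd (i k : ℤ) (n : ℕ) : Odd (i + 4 * n * k) ↔ Odd i := by
  rw [← Int.not_even_iff_odd, ← Int.not_even_iff_odd, SlA_even]

theorem SlA_act (i k : ℤ) (n : ℕ) (e : Bool × K) : act (i + 4 * n * k) e ↔ act i e := by
  unfold act
  rw [SlA_even, SlA_odd]

theorem SlA_ina (i k : ℤ) (n : ℕ) (e : Bool × K) : ina (i + 4 * n * k) e ↔ ina i e := by
  unfold ina
  rw [SlA_even, SlA_odd]

theorem SlA_inaO (i k : ℤ) (n : ℕ) (a : Option (Bool × K)) :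
    inaO (i + 4 * n * k) a ↔ inaO i a := by
  cases a with
  | none => exact Iff.rfl
  | some e => exact SlA_ina i k n e

theorem Adm.shift {i : ℤ} {a b : Option (Bool × K)} (h : Adm i a b) (k : ℤ) :
    Adm (i + 4 * n * k) a b := by
  rcases h with ⟨h1, h2⟩ | ⟨e, h1, h2⟩
  · exact Or.inl ⟨(SlA_inaO i k n a).2 h1, (SlA_inaO i k n b).2 h2⟩
  · exact Or.inr ⟨e, (SlA_act i k n e).2 h1, h2⟩

end Pool.Agent.H.MP_1611f1_gt
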