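import Pool.Agent.H.MP_1611f1_gt.ChA
import Pool.Agent.H.MP_1611f1_gt.SlA
import Pool.Agent.H.MP_1611f1_gt.ColC

/-!
The types of charts.
-/

namespace Pool.Agent.H.MP_1611f1_gt

open Topology Set Filter

variable {S : Type*} [TopologicalSpace S] {J K : Type*} {E : Surf S J} {col : J → K} {L : J → ℕ}
  {phi : S ≃ₜ S} {al be ga de : J → ℤ} {Y : Type*} [TopologicalSpace Y]

variable (Fl : Filling E phi al be ga de Y) {n : ℕ}

/-- the outer part of the surface -/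
def Out (E : Surf S J) : Set S := {x | ∀ j w, x = E.collar j w → 5 / 3 < (w.2 : ℝ)}

theorem Out_open [Finite J] : IsOpen (Out E) := by
  have h1 : Out E = (⋃ j, E.collar j '' {z | (z.2 : ℝ) ≤ 5 / 3})ᶜ := by
    ext x
    simp only [Out, Set.mem_ofPred_eq, Set.mem_compl_iff, Set.mem_iUnion, Set.mem_image, not_exists,
      not_and]
    constructor
    · intro h j w hw hx
      exact absurd (h j w hx.symm) (not_lt.2 hw)
    · intro h j w hx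
      by_contra hw
      exact h j w (not_lt.1 hw) hx.symm
  rw [h1]
  exact (isClosed_iUnion_of_finite fun j => E.closed j (5 / 3) (by norm_num)).isOpen_compl

variable (A : Arcs E col L) {σ : K → ℝ} (H : ∀ k, Hol (σ k)) (C : Chain A n phi)

/-- charts over the outer part of the surface -/
def IsI (c : OpenPartialHomeomorph Y ((ℝ × ℝ) × ℝ)) : Prop :=
  ∃ (i : ℤ) (a b : Option (Bool × K)) (ξ : OpenPartialHomeomorph S (ℝ × ℝ)), Adm i a b ∧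
    c.source = PP Fl n '' ((ξ.source ∩ Out E ∩ DD A C i a b) ×ˢ Ioo ((i : ℝ) - 1) (i + 1)) ∧
    ∀ z ∈ (ξ.source ∩ Out E ∩ DD A C i a b) ×ˢ Ioo ((i : ℝ) - 1) (i + 1),
      (c (PP Fl n z)).2 = Fs A H C i a b z.1 z.2

/-- charts over the collars -/
def IsII (c : OpenPartialHomeomorph Y ((ℝ × ℝ) × ℝ)) : Prop :=
  ∃ (j : J) (y₀ t₀ : ℝ),
    c.source = QQ Fl L n j '' (Ioo y₀ (y₀ + 1) ×ˢ (univ ×ˢ Ioo t₀ (t₀ + 1))) ∧
    ∀ z ∈ Ioo y₀ (y₀ + 1) ×ˢ ((univ : Set (Ioo (1 : ℝ) 2)) ×ˢ Ioo t₀ (t₀ + 1)),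
      (c (QQ Fl L n j z)).2 = MR (H (col j)) z.1 z.2.1 z.2.2

/-- charts in the cores of the solid tori -/
def IsIII (c : OpenPartialHomeomorph Y ((ℝ × ℝ) × ℝ)) : Prop :=
  ∃ (j : J) (s₀ : ℝ),
    c.source = Fl.q j '' {z | ‖(z.1 : ℂ)‖ < 4 / 3 ∧ ∃ s ∈ Ioo s₀ (s₀ + 1),
      z.2 = ((s : ℝ) : AddCircle (1 : ℝ))} ∧
    ∀ (w : Metric.ball (0 : ℂ) 2) (s : ℝ), ‖(w : ℂ)‖ < 4 / 3 → s ∈ Ioo s₀ (s₀ + 1) →
      (c (Fl.q j (w, ((s : ℝ) : AddCircle (1 : ℝ))))).2 = ((de j).sign : ℝ) * s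

end Pool.Agent.H.MP_1611f1_gt
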