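import Pool.Agent.H.MP_1611f1_gt.SlA

/-!
Slices: the domains.
-/

namespace Pool.Agent.H.MP_1611f1_gt

open Topology Set Filter

variable {S : Type*} [TopologicalSpace S] {J K : Type*} {E : Surf S J} {col : J → K} {L : J → ℕ}

variable (A : Arcs E col L) {σ : K → ℝ} (H : ∀ k, Hol (σ k)) {n : ℕ} {phi : S ≃ₜ S}
  (C : Chain A n phi)

theorem DD_open [Finite J] [Finite K] (i : ℤ) (a b : Option (Bool × K)) : IsOpen (DD A C i a b) :=
  ((VV_open A a).preimage (C.ψ (i - 1)).continuous).inter
    ((VV_open A b).preimage (C.ψ i).continuous)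

/-- a point where all collapse maps vanish has type `none`; otherwise the type is the index of a
collapse map that does not vanish -/
theorem SlB_type (i : ℤ) (y : S) (h : ∀ e, act i e → kap A e y = 0) :
    ∃ a, inaO i a ∧ y ∈ VV A a := by
  by_cases h1 : ∃ e, kap A e y ≠ 0
  · obtain ⟨e, he⟩ := h1
    refine ⟨some e, ?_, he⟩
    rcases ina_or_act i e with h2 | h2
    · exact h2
    · exact absurd (h e h2) he
  · refine ⟨none, trivial, ?_⟩
    intro e
    have h2 : kap A e y = 0 := by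
      by_contra hne
      exact h1 ⟨e, hne⟩
    rw [h2, norm_zero]
    norm_num

/-- every point has an admissible pair of types -/
theorem DD_cover (i : ℤ) (x : S) : ∃ a b, Adm i a b ∧ x ∈ DD A C i a b := by
  by_cases h : ∃ e, act i e ∧ kap A e (C.ψ i x) ≠ 0
  · obtain ⟨e, he, hne⟩ := h
    refine ⟨some e, some e, Or.inr ⟨e, he, rfl, rfl⟩, ?_, hne⟩
    show kap A e (C.ψ (i - 1) x) ≠ 0
    rw [← C.step A he x]
    exact hne
  · have h0 : ∀ e, act i e → kap A e (C.ψ i x) = 0 := by
      intro e he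
      by_contra hne
      exact h ⟨e, he, hne⟩
    have h1 : ∀ e, act i e → kap A e (C.ψ (i - 1) x) = 0 := by
      intro e he
      rw [← C.step A he x]
      exact h0 e he
    obtain ⟨a, ha, hxa⟩ := SlB_type A i _ h1
    obtain ⟨b, hb, hxb⟩ := SlB_type A i _ h0
    exact ⟨a, b, Or.inl ⟨ha, hb⟩, hxa, hxb⟩

theorem DD_cover_none (i : ℤ) (x : S) (hx : C.ψ i x ∈ VV A none) :
    ∃ a, inaO i a ∧ x ∈ DD A C i a none := by
  by_cases h : ∃ e, ina i e ∧ kap A e (C.ψ (i - 1) x) ≠ 0
  · obtain ⟨e, he, hne⟩ := h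
    exact ⟨some e, he, hne, hx⟩
  · refine ⟨none, trivial, ?_, hx⟩
    intro e
    rcases ina_or_act i e with h2 | h2
    · have h3 : kap A e (C.ψ (i - 1) x) = 0 := by
        by_contra hne
        exact h ⟨e, h2, hne⟩
      rw [h3, norm_zero]
      norm_num
    · rw [← C.step A h2 x]
      exact hx e

end Pool.Agent.H.MP_1611f1_gt
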