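import Pool.Agent.H.MP_1611f1_gt.SlA

/-!
Slices: the functions.
-/

namespace Pool.Agent.H.MP_1611f1_gt

open Topology Set Filter

variable {S : Type*} [TopologicalSpace S] {J K : Type*} {E : Surf S J} {col : J → K} {L : J → ℕ}

variable (A : Arcs E col L) {σ : K → ℝ} (H : ∀ k, Hol (σ k)) {n : ℕ} {phi : S ≃ₜ S}
  (C : Chain A n phi)

theorem Fs_junction {i : ℤ} {a b : Option (Bool × K)} (h : Adm i a b) {x : S}
    (hx : x ∈ DD A C i a b) : Fa A H a (C.ψ (i - 1) x) i = Fa A H b (C.ψ i x) i := by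
  rcases h with ⟨ha, hb⟩ | ⟨e, he, rfl, rfl⟩
  · rw [Fa_fix A H ha, Fa_fix A H hb]
  · simp only [Fa]
    rw [C.step A he x]

theorem Fs_ge {i : ℤ} {a b : Option (Bool × K)} (h : Adm i a b) {x : S}
    (hx : x ∈ DD A C i a b) {t : ℝ} (ht : (i : ℝ) ≤ t) :
    Fs A H C i a b x t = Fa A H b (C.ψ i x) t := by
  unfold Fs
  rcases ht.eq_or_lt with rfl | ht
  · rw [if_pos le_rfl]
    exact Fs_junction A H C h hx
  · rw [if_neg (not_le.2 ht)]

theorem Fs_le {i : ℤ} {a b : Option (Bool × K)} {x : S} {t : ℝ} (ht : t ≤ (i : ℝ)) :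
    Fs A H C i a b x t = Fa A H a (C.ψ (i - 1) x) t := if_pos ht

theorem Fs_cont {i : ℤ} {a b : Option (Bool × K)} (h : Adm i a b) :
    ContinuousOn (fun z : S × ℝ => Fs A H C i a b z.1 z.2) (DD A C i a b ×ˢ univ) := by
  have h1 : ContinuousOn (fun z : S × ℝ => Fa A H a (C.ψ (i - 1) z.1) z.2)
      (DD A C i a b ×ˢ univ) := by
    have := (Fa_cont A H a).comp (f := fun z : S × ℝ => (C.ψ (i - 1) z.1, z.2))
      (s := DD A C i a b ×ˢ univ)
      (by
        have : Continuous (fun z : S × ℝ => (C.ψ (i - 1) z.1, z.2)) :=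
          ((C.ψ (i - 1)).continuous.comp continuous_fst).prodMk continuous_snd
        exact this.continuousOn)
      (fun z hz => ⟨hz.1.1, mem_univ _⟩)
    exact this
  have h2 : ContinuousOn (fun z : S × ℝ => Fa A H b (C.ψ i z.1) z.2)
      (DD A C i a b ×ˢ univ) := by
    have := (Fa_cont A H b).comp (f := fun z : S × ℝ => (C.ψ i z.1, z.2))
      (s := DD A C i a b ×ˢ univ)
      (by
        have : Continuous (fun z : S × ℝ => (C.ψ i z.1, z.2)) :=
          ((C.ψ i).continuous.comp continuous_fst).prodMk continuous_snd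
        exact this.continuousOn)
      (fun z hz => ⟨hz.1.2, mem_univ _⟩)
    exact this
  rw [continuousOn_iff_continuous_domRestrict] at h1 h2 ⊢
  have h3 : Continuous (fun z : (DD A C i a b ×ˢ (univ : Set ℝ)) => (z : S × ℝ).2) :=
    continuous_snd.comp continuous_subtype_val
  have h4 := Continuous.if_le (f := fun z : (DD A C i a b ×ˢ (univ : Set ℝ)) => (z : S × ℝ).2)
    (g := fun _ => (i : ℝ)) h1 h2 h3 continuous_const (by
      rintro ⟨⟨x, t⟩, ⟨hx, hu⟩⟩ hz
      have hz' : t = (i : ℝ) := hz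
      subst hz'
      exact Fs_junction A H C h hx)
  exact h4

theorem Fs_mono {i : ℤ} {a b : Option (Bool × K)} (h : Adm i a b) {x : S}
    (hx : x ∈ DD A C i a b) : StrictMono (Fs A H C i a b x) := by
  intro t t' htt
  rcases le_total t' (i : ℝ) with h1 | h1
  · rw [Fs_le A H C h1, Fs_le A H C (htt.le.trans h1)]
    exact Fa_mono A H a _ htt
  · rcases le_total (i : ℝ) t with h2 | h2
    · rw [Fs_ge A H C h hx h1, Fs_ge A H C h hx h2]
      exact Fa_mono A H b _ htt
    · rw [Fs_ge A H C h hx h1, Fs_le A H C h2]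
      have e := Fs_junction A H C h hx
      have l1 := (Fa_mono A H a (C.ψ (i - 1) x)).monotone h2
      have l2 := (Fa_mono A H b (C.ψ i x)).monotone h1
      rcases h2.eq_or_lt with h3 | h3
      · subst h3
        rw [e]
        exact Fa_mono A H b (C.ψ i x) htt
      · have l3 := Fa_mono A H a (C.ψ (i - 1) x) h3
        linarith

/-- deck transformations -/
theorem DD_shift (i k : ℤ) (a b : Option (Bool × K)) (x : S) :
    x ∈ DD A C (i + 4 * n * k) a b ↔ (phi ^ k) x ∈ DD A C i a b := by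
  have e1 : i + 4 * n * k - 1 = (i - 1) + 4 * n * k := by ring
  simp only [DD, mem_ofPred_eq]
  rw [e1, C.per_k A, C.per_k A]
  rfl

theorem Fs_shift (i k : ℤ) (a b : Option (Bool × K)) (x : S) (t : ℝ) :
    Fs A H C (i + 4 * n * k) a b x (t + 4 * n * k) = Fs A H C i a b ((phi ^ k) x) t + 4 * n * k := by
  have e1 : i + 4 * n * k - 1 = (i - 1) + 4 * n * k := by ring
  have hs : ∀ (c : Option (Bool × K)) (y : S), Fa A H c y (t + 4 * n * k) =
      Fa A H c y t + 4 * n * k := by
    intro c y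
    have := Fa_shift A H c y t (n * k)
    push_cast at this
    rw [← mul_assoc] at this
    exact this
  unfold Fs
  have hc : (t + 4 * n * k ≤ ((i + 4 * n * k : ℤ) : ℝ)) ↔ t ≤ (i : ℝ) := by
    push_cast
    constructor
    · intro h; linarith
    · intro h; linarith
  rw [e1, C.per_k A, C.per_k A]
  by_cases h : t ≤ (i : ℝ)
  · rw [if_pos (hc.2 h), if_pos h, hs]
    rfl
  · rw [if_neg (fun h' => h (hc.1 h')), if_neg h, hs]
    rfl

/-- an inactive pair takes the value `i` at the slice -/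
theorem Fs_slice {i : ℤ} {a b : Option (Bool × K)} (ha : inaO i a) (x : S) :
    Fs A H C i a b x i = i := by
  rw [Fs_le A H C le_rfl]
  exact Fa_fix A H ha _

end Pool.Agent.H.MP_1611f1_gt
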