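import Pool.Agent.H.MP_1611f1_gt.ChD
import Pool.Agent.H.MP_1611f1_gt.SlB
import Pool.Agent.H.MP_1611f1_gt.SlC
import Pool.Agent.H.MP_1611f1_gt.Fib

/-!
Existence of the charts of type I.
-/

namespace Pool.Agent.H.MP_1611f1_gt

open Topology Set Filter

variable {S : Type*} [TopologicalSpace S] {J K : Type*} {E : Surf S J} {col : J → K} {L : J → ℕ}
  {phi : S ≃ₜ S} {al be ga de : J → ℤ} {Y : Type*} [TopologicalSpace Y]

variable (Fl : Filling E phi al be ga de Y) {n : ℕ}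

variable (A : Arcs E col L) {σ : K → ℝ} (H : ∀ k, Hol (σ k)) (C : Chain A n phi)

theorem exI [Finite J] [Finite K] (hn : 0 < n) (i : ℤ) (a b : Option (Bool × K)) (h : Adm i a b)
    (ξ : OpenPartialHomeomorph S (ℝ × ℝ)) :
    ∃ c : OpenPartialHomeomorph Y ((ℝ × ℝ) × ℝ), IsI Fl A H C c ∧
      c.source = PP Fl n '' ((ξ.source ∩ Out E ∩ DD A C i a b) ×ˢ Ioo ((i : ℝ) - 1) (i + 1)) ∧
      ∀ z ∈ (ξ.source ∩ Out E ∩ DD A C i a b) ×ˢ Ioo ((i : ℝ) - 1) (i + 1),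
        (c (PP Fl n z)).2 = Fs A H C i a b z.1 z.2 := by
  have hU : IsOpen (ξ.source ∩ Out E ∩ DD A C i a b) :=
    (ξ.open_source.inter Out_open).inter (DD_open A C i a b)
  have hUξ : ξ.source ∩ Out E ∩ DD A C i a b ⊆ ξ.source := fun x hx => hx.1.1
  have hinj : InjOn (PP Fl n)
      ((ξ.source ∩ Out E ∩ DD A C i a b) ×ˢ Ioo ((i : ℝ) - 1) (i + 1)) :=
    PP_inj Fl hn _ (by linarith)
  obtain ⟨c, hc, hc'⟩ := exists_chart (PP_loc Fl hn) ξ hU hUξ hinj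
    (fun z : S × ℝ => Fs A H C i a b z.1 z.2)
    ((Fs_cont A H C h).mono (fun z hz => ⟨hz.1.2, mem_univ _⟩))
    (fun x hx => (Fs_mono A H C h hx.2).strictMonoOn _)
  have hc2 : ∀ z ∈ (ξ.source ∩ Out E ∩ DD A C i a b) ×ˢ Ioo ((i : ℝ) - 1) (i + 1),
      (c (PP Fl n z)).2 = Fs A H C i a b z.1 z.2 := by
    intro z hz
    rw [hc' z hz]
  exact ⟨c, ⟨i, a, b, ξ, h, hc, hc2⟩, hc, hc2⟩

end Pool.Agent.H.MP_1611f1_gt
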