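import Pool.Agent.H.MP_1611f1_gt.ChD
import Pool.Agent.H.MP_1611f1_gt.ChB
import Pool.Agent.H.MP_1611f1_gt.Fib

/-!
Existence of the charts of type II.
-/

namespace Pool.Agent.H.MP_1611f1_gt

open Topology Set Filter

variable {S : Type*} [TopologicalSpace S] {J K : Type*} {E : Surf S J} {col : J → K} {L : J → ℕ}
  {phi : S ≃ₜ S} {al be ga de : J → ℤ} {Y : Type*} [TopologicalSpace Y]

variable (Fl : Filling E phi al be ga de Y) {n : ℕ}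

variable {σ : K → ℝ} (H : ∀ k, Hol (σ k))

theorem ChF_inj (hn : 0 < n) (hL : ∀ j, 0 < L j)
    (hcol : ∀ j z, phi (E.collar j z) = E.collar j z) (j : J) (y₀ t₀ : ℝ) {y1 y2 t1 t2 : ℝ}
    {r1 r2 : Ioo (1 : ℝ) 2} (hy1 : y1 ∈ Ioo y₀ (y₀ + 1)) (h1 : t1 ∈ Ioo t₀ (t₀ + 1))
    (hy2 : y2 ∈ Ioo y₀ (y₀ + 1)) (h2 : t2 ∈ Ioo t₀ (t₀ + 1))
    (h : QQ Fl L n j (y1, r1, t1) = QQ Fl L n j (y2, r2, t2)) :
    ((y1, r1), t1) = ((y2, r2), t2) := by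
  obtain ⟨-, hr, k, m, hy, ht⟩ := QQ_eq Fl hn hcol j j (hL j) _ _ h
  simp only at hr hy ht
  have hLj : (1 : ℝ) ≤ L j := by exact_mod_cast hL j
  have hn1 : (1 : ℝ) ≤ n := by exact_mod_cast hn
  have hm : m = 0 := by
    by_contra hm
    have h3 : (1 : ℝ) ≤ |(m : ℝ)| := by exact_mod_cast Int.one_le_abs hm
    have h4 : |y2 - y1| = 4 * L j * |(m : ℝ)| := by
      rw [hy, add_sub_cancel_left, abs_mul, abs_of_nonneg (by positivity)]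
    have h5 : |y2 - y1| < 1 := by
      rw [abs_lt]; constructor <;> linarith [hy1.1, hy1.2, hy2.1, hy2.2]
    nlinarith
  have hk : k = 0 := by
    by_contra hk
    have h3 : (1 : ℝ) ≤ |(k : ℝ)| := by exact_mod_cast Int.one_le_abs hk
    have h4 : |t2 - t1| = 4 * n * |(k : ℝ)| := by
      rw [ht, add_sub_cancel_left, abs_mul, abs_of_nonneg (by positivity)]
    have h5 : |t2 - t1| < 1 := by
      rw [abs_lt]; constructor <;> linarith [h1.1, h1.2, h2.1, h2.2]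
    nlinarith
  subst hm hk
  have e1 : y1 = y2 := by rw [hy]; simp
  have e2 : t1 = t2 := by rw [ht]; simp
  rw [e1, e2, hr]

theorem ChF_P (hn : 0 < n) (hL : ∀ j, 0 < L j)
    (hcol : ∀ j z, phi (E.collar j z) = E.collar j z) (j : J) : IsLocalHomeomorph
    (fun z : (ℝ × Ioo (1 : ℝ) 2) × ℝ => QQ Fl L n j (z.1.1, z.1.2, z.2)) := by
  rw [isLocalHomeomorph_iff_isOpenEmbedding_restrict]
  have hc : Continuous (fun z : (ℝ × Ioo (1 : ℝ) 2) × ℝ => QQ Fl L n j (z.1.1, z.1.2, z.2)) :=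
    (QQ_cont Fl hn j).comp (by fun_prop)
  have ho : IsOpenMap (fun z : (ℝ × Ioo (1 : ℝ) 2) × ℝ => QQ Fl L n j (z.1.1, z.1.2, z.2)) :=
    (QQ_open Fl hn j (hL j)).comp
      (Homeomorph.prodAssoc ℝ (Ioo (1 : ℝ) 2) ℝ).isOpenMap
  rintro ⟨⟨y, r⟩, t⟩
  have hU : IsOpen ((Ioo (y - 1 / 2) (y - 1 / 2 + 1) ×ˢ (univ : Set (Ioo (1 : ℝ) 2))) ×ˢ
      Ioo (t - 1 / 2) (t - 1 / 2 + 1)) := (isOpen_Ioo.prod isOpen_univ).prod isOpen_Ioo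
  refine ⟨_, hU.mem_nhds ⟨⟨by constructor <;> simp; linarith, mem_univ _⟩,
    by constructor <;> simp; linarith⟩, IsOpenEmbedding.of_continuous_injective_isOpenMap
    (hc.comp continuous_subtype_val) (injOn_iff_injective.mp ?_)
    (ho.comp hU.isOpenMap_subtype_val)⟩
  rintro ⟨⟨y1, r1⟩, t1⟩ ⟨⟨hy1, -⟩, h1⟩ ⟨⟨y2, r2⟩, t2⟩ ⟨⟨hy2, -⟩, h2⟩ heq
  exact ChF_inj Fl hn hL hcol j _ _ hy1 h1 hy2 h2 heq

theorem exII (hn : 0 < n) (hL : ∀ j, 0 < L j)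
    (hcol : ∀ j z, phi (E.collar j z) = E.collar j z) (j : J) (y₀ t₀ : ℝ) :
    ∃ c : OpenPartialHomeomorph Y ((ℝ × ℝ) × ℝ), IsII (L := L) (n := n) (col := col) Fl H c ∧
      c.source = QQ Fl L n j '' (Ioo y₀ (y₀ + 1) ×ˢ (univ ×ˢ Ioo t₀ (t₀ + 1))) ∧
      ∀ z ∈ Ioo y₀ (y₀ + 1) ×ˢ ((univ : Set (Ioo (1 : ℝ) 2)) ×ˢ Ioo t₀ (t₀ + 1)),
        (c (QQ Fl L n j z)).2 = MR (H (col j)) z.1 z.2.1 z.2.2 := by
  have hne : Nonempty (ℝ × Ioo (1 : ℝ) 2) := ⟨(0, ⟨3 / 2, by norm_num, by norm_num⟩)⟩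
  have hemb : IsOpenEmbedding (fun w : ℝ × Ioo (1 : ℝ) 2 => (w.1, (w.2 : ℝ))) :=
    (IsOpenEmbedding.id (X := ℝ)).prodMap isOpen_Ioo.isOpenEmbedding_subtypeVal
  have hU : IsOpen (Ioo y₀ (y₀ + 1) ×ˢ (univ : Set (Ioo (1 : ℝ) 2))) :=
    isOpen_Ioo.prod isOpen_univ
  obtain ⟨C, hCs, hCf⟩ := exists_chart (ChF_P (L := L) Fl hn hL hcol j)
    (hemb.toOpenPartialHomeomorph _) hU
    (by intro w _; simp) (c := t₀) (d := t₀ + 1)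
    (by
      rintro ⟨⟨y1, r1⟩, t1⟩ ⟨⟨hy1, -⟩, h1⟩ ⟨⟨y2, r2⟩, t2⟩ ⟨⟨hy2, -⟩, h2⟩ heq
      exact ChF_inj Fl hn hL hcol j y₀ t₀ hy1 h1 hy2 h2 heq)
    (fun z => MR (H (col j)) z.1.1 z.1.2 z.2)
    (((MR_cont (H (col j))).comp (f := fun z : (ℝ × Ioo (1 : ℝ) 2) × ℝ =>
      (z.1.1, ((z.1.2 : ℝ), z.2))) (by fun_prop)).continuousOn)
    (fun x _ => (MR_mono (H (col j)) x.1 x.2).strictMonoOn _)
  have hsrc : C.source = QQ Fl L n j '' (Ioo y₀ (y₀ + 1) ×ˢ (univ ×ˢ Ioo t₀ (t₀ + 1))) := by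
    rw [hCs]
    ext y
    constructor
    · rintro ⟨⟨⟨y1, r1⟩, t1⟩, ⟨⟨hy1, -⟩, h1⟩, rfl⟩
      exact ⟨(y1, r1, t1), ⟨hy1, mem_univ _, h1⟩, rfl⟩
    · rintro ⟨⟨y1, r1, t1⟩, ⟨hy1, -, h1⟩, rfl⟩
      exact ⟨((y1, r1), t1), ⟨⟨hy1, mem_univ _⟩, h1⟩, rfl⟩
  have hval : ∀ z ∈ Ioo y₀ (y₀ + 1) ×ˢ ((univ : Set (Ioo (1 : ℝ) 2)) ×ˢ Ioo t₀ (t₀ + 1)),
      (C (QQ Fl L n j z)).2 = MR (H (col j)) z.1 z.2.1 z.2.2 := by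
    rintro ⟨y1, r1, t1⟩ ⟨hy1, -, h1⟩
    have h := hCf ((y1, r1), t1) ⟨⟨hy1, mem_univ _⟩, h1⟩
    exact congrArg Prod.snd h
  exact ⟨C, ⟨j, y₀, t₀, hsrc, hval⟩, hsrc, hval⟩

end Pool.Agent.H.MP_1611f1_gt
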