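import Pool.Agent.H.MP_1611f1_gt.ChD
import Pool.Agent.H.MP_1611f1_gt.Fib

/-!
Existence of the charts of type III.
-/

namespace Pool.Agent.H.MP_1611f1_gt

open Topology Set Filter

variable {S : Type*} [TopologicalSpace S] {J K : Type*} {E : Surf S J} {col : J → K} {L : J → ℕ}
  {phi : S ≃ₜ S} {al be ga de : J → ℤ} {Y : Type*} [TopologicalSpace Y]

variable (Fl : Filling E phi al be ga de Y) {n : ℕ}

theorem ChG_loc {X Z : Type*} [TopologicalSpace X] [TopologicalSpace Z] {f : X → Z}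
    (hc : Continuous f) (ho : IsOpenMap f)
    (hi : ∀ x, ∃ U ∈ 𝓝 x, IsOpen U ∧ InjOn f U) : IsLocalHomeomorph f := by
  rw [isLocalHomeomorph_iff_isOpenEmbedding_restrict]
  intro x
  obtain ⟨U, hxU, hU, hinj⟩ := hi x
  refine ⟨U, hxU, IsOpenEmbedding.of_continuous_injective_isOpenMap
    (hc.comp continuous_subtype_val) (injOn_iff_injective.mp hinj) (ho.comp hU.isOpenMap_subtype_val)⟩

theorem ChG_coe_inj {s s' s₀ : ℝ} (hs : s ∈ Ioo s₀ (s₀ + 1)) (hs' : s' ∈ Ioo s₀ (s₀ + 1))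
    (h : ((s : ℝ) : AddCircle (1 : ℝ)) = ((s' : ℝ) : AddCircle (1 : ℝ))) : s = s' := by
  rw [AddCircle.coe_eq_coe_iff_of_mem_Ico (a := s₀) ⟨hs.1.le, hs.2⟩ ⟨hs'.1.le, hs'.2⟩] at h
  exact h

/-- the parametrization of the solid torus -/
theorem ChG_P (j : J) : IsLocalHomeomorph
    (fun z : Metric.ball (0 : ℂ) 2 × ℝ => Fl.q j (z.1, ((z.2 : ℝ) : AddCircle (1 : ℝ)))) := by
  have h1 : IsLocalHomeomorph
      (fun z : Metric.ball (0 : ℂ) 2 × ℝ => (z.1, ((z.2 : ℝ) : AddCircle (1 : ℝ)))) := by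
    refine ChG_loc ?_ ?_ ?_
    · exact continuous_fst.prodMk ((AddCircle.continuous_mk' (1 : ℝ)).comp continuous_snd)
    · exact (IsOpenMap.id (X := Metric.ball (0 : ℂ) 2)).prodMap
        (QuotientAddGroup.isOpenMap_coe (N := AddSubgroup.zmultiples (1 : ℝ)))
    · rintro ⟨w, s⟩
      refine ⟨univ ×ˢ Ioo (s - 1 / 2) (s - 1 / 2 + 1), ?_, isOpen_univ.prod isOpen_Ioo, ?_⟩
      · exact (isOpen_univ.prod isOpen_Ioo).mem_nhds ⟨mem_univ _, by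
          constructor <;> simp <;> linarith⟩
      · rintro ⟨w1, s1⟩ ⟨-, h1⟩ ⟨w2, s2⟩ ⟨-, h2⟩ heq
        simp only [Prod.mk.injEq] at heq
        exact Prod.ext heq.1 (ChG_coe_inj h1 h2 heq.2)
  exact (Fl.q_emb j).isLocalHomeomorph.comp h1

theorem exIII (hde : ∀ j, de j ≠ 0) (j : J) (s₀ : ℝ) :
    ∃ c : OpenPartialHomeomorph Y ((ℝ × ℝ) × ℝ), IsIII Fl c ∧
      c.source = Fl.q j '' {z | ‖(z.1 : ℂ)‖ < 4 / 3 ∧ ∃ s ∈ Ioo s₀ (s₀ + 1),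
        z.2 = ((s : ℝ) : AddCircle (1 : ℝ))} ∧
      ∀ (w : Metric.ball (0 : ℂ) 2) (s : ℝ), ‖(w : ℂ)‖ < 4 / 3 → s ∈ Ioo s₀ (s₀ + 1) →
        (c (Fl.q j (w, ((s : ℝ) : AddCircle (1 : ℝ))))).2 = ((de j).sign : ℝ) * s := by
  have : Nonempty (Metric.ball (0 : ℂ) 2) := ⟨⟨0, by simp⟩⟩
  have hemb : IsOpenEmbedding
      (fun w : Metric.ball (0 : ℂ) 2 => Complex.equivRealProdCLM (w : ℂ)) :=
    Complex.equivRealProdCLM.toHomeomorph.isOpenEmbedding.comp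
      Metric.isOpen_ball.isOpenEmbedding_subtypeVal
  have hU : IsOpen {w : Metric.ball (0 : ℂ) 2 | ‖(w : ℂ)‖ < 4 / 3} :=
    isOpen_lt (continuous_norm.comp continuous_subtype_val) continuous_const
  obtain ⟨C, hCs, hCf⟩ := exists_chart (ChG_P Fl j) (hemb.toOpenPartialHomeomorph _) hU
    (by intro w _; simp) (c := s₀) (d := s₀ + 1)
    (by
      rintro ⟨w1, s1⟩ ⟨-, h1⟩ ⟨w2, s2⟩ ⟨-, h2⟩ heq
      have := (Fl.q_emb j).injective heq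
      simp only [Prod.mk.injEq] at this
      exact Prod.ext this.1 (ChG_coe_inj h1 h2 this.2))
    (fun z => z.2) continuous_snd.continuousOn (fun x _ => fun a _ b _ h => h)
  have hε : ((de j).sign : ℝ) ≠ 0 := by
    intro h
    have h2 : (de j).sign = 0 := by exact_mod_cast h
    exact hde j (Int.sign_eq_zero_iff_zero.mp h2)
  let m : (ℝ × ℝ) × ℝ ≃ₜ (ℝ × ℝ) × ℝ :=
    (Homeomorph.refl (ℝ × ℝ)).prodCongr (Homeomorph.mulLeft₀ ((de j).sign : ℝ) hε)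
  have hsrc : (C.transHomeomorph m).source = Fl.q j '' {z | ‖(z.1 : ℂ)‖ < 4 / 3 ∧
      ∃ s ∈ Ioo s₀ (s₀ + 1), z.2 = ((s : ℝ) : AddCircle (1 : ℝ))} := by
    rw [OpenPartialHomeomorph.transHomeomorph_source, hCs]
    ext y
    constructor
    · rintro ⟨⟨w, s⟩, ⟨hw, hs⟩, rfl⟩
      exact ⟨(w, ((s : ℝ) : AddCircle (1 : ℝ))), ⟨hw, s, hs, rfl⟩, rfl⟩
    · rintro ⟨⟨w, h⟩, ⟨hw, s, hs, hh⟩, rfl⟩
      refine ⟨(w, s), ⟨hw, hs⟩, ?_⟩
      simp only at hh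
      rw [hh]
  have hval : ∀ (w : Metric.ball (0 : ℂ) 2) (s : ℝ), ‖(w : ℂ)‖ < 4 / 3 →
      s ∈ Ioo s₀ (s₀ + 1) →
      ((C.transHomeomorph m) (Fl.q j (w, ((s : ℝ) : AddCircle (1 : ℝ))))).2 =
        ((de j).sign : ℝ) * s := by
    intro w s hw hs
    have h1 := hCf (w, s) ⟨hw, hs⟩
    rw [OpenPartialHomeomorph.transHomeomorph_apply]
    simp only [Function.comp_apply, h1]
    rfl
  exact ⟨C.transHomeomorph m, ⟨j, s₀, hsrc, hval⟩, hsrc, hval⟩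

end Pool.Agent.H.MP_1611f1_gt
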