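import Pool.Agent.H.MP_1611f1_gt.TypC

/-!
Comparison of the types.
-/

namespace Pool.Agent.H.MP_1611f1_gt

open Topology Set Filter

variable {S : Type*} [TopologicalSpace S] {J K : Type*} {E : Surf S J} {col : J → K} {L : J → ℕ}
  (A : Arcs E col L) {σ : K → ℝ} (H : ∀ k, Hol (σ k))

/-- near a point of a strip and of the complement of the strips, the transverse function of the
strip is the identity or the inverse of the isomorphism -/
theorem TypD_near (e : Bool × K) {x : S} (h0 : ‖kap A e x‖ < 1 / 4) (h1 : kap A e x ≠ 0) :
    (∀ᶠ x' in 𝓝 x, ∀ t, Fe (iso H e) (lft (kap A e x')) t = t) ∨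
      ∀ᶠ x' in 𝓝 x, ∀ t, Fe (iso H e) (lft (kap A e x')) t = (iso H e).symm t := by
  have hc : ContinuousAt (fun x' => lft (kap A e x')) x :=
    ContinuousAt.comp (f := kap A e) (g := lft) (lft_contAt h1) (kap_cont A e).continuousAt
  rcases (norm_lt_iff _).mp h0 with h | h
  · left
    have h2 := hc.eventually_lt (g := fun _ => (1 / 4 : ℝ)) continuousAt_const h
    filter_upwards [h2] with x' hx' t
    exact Fe_small _ (le_of_lt hx') t
  · right
    have h2 := (continuousAt_const (y := (3 / 4 : ℝ))).eventually_lt hc h
    filter_upwards [h2] with x' hx' t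
    exact Fe_large _ (le_of_lt hx') t

/-- on the intersection of two types the functions differ by an increasing function -/
theorem Fa_rel (a b : Option (Bool × K)) {x : S} (ha : x ∈ VV A a) (hb : x ∈ VV A b) :
    ∃ G : ℝ → ℝ, StrictMono G ∧ (∀ i : ℤ, inaO i a → inaO i b → G i = i) ∧
      ∀ᶠ x' in 𝓝 x, ∀ t, Fa A H b x' t = G (Fa A H a x' t) := by
  rcases a with _ | e <;> rcases b with _ | e'
  · exact ⟨id, strictMono_id, fun i _ _ => rfl, Eventually.of_forall fun x' t => rfl⟩
  · rcases TypD_near A H e' (ha e') hb with h | h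
    · refine ⟨id, strictMono_id, fun i _ _ => rfl, ?_⟩
      filter_upwards [h] with x' hx' t
      exact hx' t
    · refine ⟨(iso H e').symm, (iso H e').symm.strictMono, fun i _ hi => ?_, ?_⟩
      · rw [OrderIso.symm_apply_eq]
        exact (iso_fix H hi).symm
      · filter_upwards [h] with x' hx' t
        exact hx' t
  · rcases TypD_near A H e (hb e) ha with h | h
    · refine ⟨id, strictMono_id, fun i _ _ => rfl, ?_⟩
      filter_upwards [h] with x' hx' t
      exact (hx' t).symm
    · refine ⟨iso H e, (iso H e).strictMono, fun i hi _ => iso_fix H hi, ?_⟩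
      filter_upwards [h] with x' hx' t
      change t = iso H e (Fe (iso H e) (lft (kap A e x')) t)
      rw [hx' t, OrderIso.apply_symm_apply]
  · by_cases he : e = e'
    · subst he
      exact ⟨id, strictMono_id, fun i _ _ => rfl, Eventually.of_forall fun x' t => rfl⟩
    · rcases kap_disj A he x with h | h
      · exact absurd h ha
      · exact absurd h hb

end Pool.Agent.H.MP_1611f1_gt
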