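import Pool.Agent.H.MP_1611f1_gt.SlB
import Pool.Agent.H.MP_1611f1_gt.SlC
import Pool.Agent.H.MP_1611f1_gt.TypD
import Pool.Agent.H.MP_1611f1_gt.Fib

/-!
Slices: compatibility.
-/

namespace Pool.Agent.H.MP_1611f1_gt

open Topology Set Filter

variable {S : Type*} [TopologicalSpace S] {J K : Type*} {E : Surf S J} {col : J → K} {L : J → ℕ}

variable (A : Arcs E col L) {σ : K → ℝ} (H : ∀ k, Hol (σ k)) {n : ℕ} {phi : S ≃ₜ S}
  (C : Chain A n phi)

theorem SlD_gt {i : ℤ} {a b : Option (Bool × K)} {x : S} {t : ℝ} (ht : (i : ℝ) < t) :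
    Fs A H C i a b x t = Fa A H b (C.ψ i x) t := if_neg (not_le.2 ht)

/-- comparison of the functions of two types along a homeomorphism of the surface -/
theorem SlD_rel (a b : Option (Bool × K)) (k : ℤ) {x : S} (ha : C.ψ k x ∈ VV A a)
    (hb : C.ψ k x ∈ VV A b) :
    ∃ G : ℝ → ℝ, StrictMono G ∧ (∀ i : ℤ, inaO i a → inaO i b → G i = i) ∧
      ∀ t : ℝ, ∀ᶠ z : S × ℝ in 𝓝 (x, t),
        Fa A H b (C.ψ k z.1) z.2 = G (Fa A H a (C.ψ k z.1) z.2) := by
  obtain ⟨G, hG, hGi, hev⟩ := Fa_rel A H a b ha hb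
  refine ⟨G, hG, hGi, fun t => ?_⟩
  have hc : Tendsto (fun z : S × ℝ => C.ψ k z.1) (𝓝 (x, t)) (𝓝 (C.ψ k x)) := by
    have : Continuous (fun z : S × ℝ => C.ψ k z.1) := (C.ψ k).continuous.comp continuous_fst
    exact this.tendsto (x, t)
  exact (hc.eventually hev).mono fun z hz => hz z.2

theorem SlD_not {i : ℤ} {e : Bool × K} (h : act i e) (h' : ina i e) : False := by
  rcases h with ⟨h1, h2⟩ | ⟨h1, h2⟩ <;> rcases h' with ⟨h3, h4⟩ | ⟨h3, h4⟩
  · rw [h2] at h4
    exact absurd h4 (by simp)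
  · exact (Int.not_even_iff_odd.2 h3) h1
  · exact (Int.not_even_iff_odd.2 h1) h3
  · rw [h2] at h4
    exact absurd h4 (by simp)

theorem SlD_none {i : ℤ} {e : Bool × K} (h : act i e) {a : Option (Bool × K)} (ha : inaO i a)
    {y : S} (hy : y ∈ VV A (some e)) (hy' : y ∈ VV A a) : a = none := by
  cases a with
  | none => rfl
  | some e' =>
    exfalso
    by_cases hee : e = e'
    · subst hee
      exact SlD_not h ha
    · rcases kap_disj A hee y with h1 | h1
      · exact hy h1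
      · exact hy' h1

theorem SlD_active {i : ℤ} {e : Bool × K} (h : act i e) (x : S) (t : ℝ) :
    Fs A H C i (some e) (some e) x t = Fa A H (some e) (C.ψ i x) t := by
  unfold Fs
  have : Fa A H (some e) (C.ψ (i - 1) x) t = Fa A H (some e) (C.ψ i x) t := by
    simp only [Fa]
    rw [C.step A h x]
  rw [this, ite_self]

/-- an active pair against an inactive pair, at the slice -/
theorem SlD_mixed {i : ℤ} {e : Bool × K} (he : act i e) {a' b' : Option (Bool × K)}
    (ha : inaO i a') (hb : inaO i b') {x : S} (hx : x ∈ DD A C i (some e) (some e))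
    (hx' : x ∈ DD A C i a' b') (t : ℝ) :
    OrdEq (x, t) (fun z : S × ℝ => Fs A H C i (some e) (some e) z.1 z.2)
      (fun z : S × ℝ => Fs A H C i a' b' z.1 z.2) := by
  have h1 : a' = none := SlD_none A he ha hx.1 hx'.1
  have h2 : b' = none := SlD_none A he hb hx.2 hx'.2
  subst h1
  subst h2
  obtain ⟨G, hG, -, hev⟩ := SlD_rel A H C (some e) none i hx.2 hx'.2
  apply OrdEq.of_comp G hG
  filter_upwards [hev t] with z hz
  have h3 : Fs A H C i none none z.1 z.2 = Fa A H none (C.ψ i z.1) z.2 := by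
    unfold Fs
    have : Fa A H none (C.ψ (i - 1) z.1) z.2 = Fa A H none (C.ψ i z.1) z.2 := rfl
    rw [this, ite_self]
  rw [h3, SlD_active A H C he, hz]

/-- **compatibility at one slice, same index** -/
theorem Fs_equiv_same [Finite J] [Finite K] {i : ℤ} {a b a' b' : Option (Bool × K)} (h : Adm i a b) (h' : Adm i a' b')
    {x : S} (hx : x ∈ DD A C i a b) (hx' : x ∈ DD A C i a' b') (t : ℝ) :
    OrdEq (x, t) (fun z : S × ℝ => Fs A H C i a b z.1 z.2)
      (fun z : S × ℝ => Fs A H C i a' b' z.1 z.2) := by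
  have hsnd : Tendsto (fun z : S × ℝ => z.2) (𝓝 (x, t)) (𝓝 t) :=
    continuous_snd.tendsto (x, t)
  rcases lt_trichotomy t (i : ℝ) with ht | ht | ht
  · obtain ⟨G, hG, -, hev⟩ := SlD_rel A H C a a' (i - 1) hx.1 hx'.1
    apply OrdEq.of_comp G hG
    filter_upwards [hev t, hsnd.eventually (Iio_mem_nhds ht)] with z hz hz2
    have hz3 : z.2 ≤ (i : ℝ) := le_of_lt hz2
    rw [Fs_le A H C hz3, Fs_le A H C hz3, hz]
  · subst ht
    rcases h with ⟨ha, hb⟩ | ⟨e, he, rfl, rfl⟩
    · rcases h' with ⟨ha', hb'⟩ | ⟨e, he, rfl, rfl⟩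
      · obtain ⟨G1, hG1, hG1i, hev1⟩ := SlD_rel A H C a a' (i - 1) hx.1 hx'.1
        obtain ⟨G2, hG2, hG2i, hev2⟩ := SlD_rel A H C b b' i hx.2 hx'.2
        have e1 : G1 i = i := hG1i i ha ha'
        have e2 : G2 i = i := hG2i i hb hb'
        have hG : StrictMono (fun v : ℝ => if v ≤ (i : ℝ) then G1 v else G2 v) := by
          intro v w hvw
          by_cases hw : w ≤ (i : ℝ)
          · have hv : v ≤ (i : ℝ) := hvw.le.trans hw
            simp only [if_pos hw, if_pos hv]
            exact hG1 hvw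
          · by_cases hv : v ≤ (i : ℝ)
            · simp only [if_pos hv, if_neg hw]
              calc G1 v ≤ G1 i := hG1.monotone hv
                _ = G2 i := by rw [e1, e2]
                _ < G2 w := hG2 (not_le.1 hw)
            · simp only [if_neg hv, if_neg hw]
              exact hG2 hvw
        apply OrdEq.of_comp _ hG
        filter_upwards [hev1 (i : ℝ), hev2 (i : ℝ)] with z hz1 hz2
        by_cases hz : z.2 ≤ (i : ℝ)
        · have h1 : Fa A H a (C.ψ (i - 1) z.1) z.2 ≤ (i : ℝ) := by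
            have := (Fa_mono A H a (C.ψ (i - 1) z.1)).monotone hz
            rwa [Fa_fix A H ha] at this
          rw [Fs_le A H C hz, Fs_le A H C hz, if_pos h1, hz1]
        · have hz' := not_le.1 hz
          have h1 : (i : ℝ) < Fa A H b (C.ψ i z.1) z.2 := by
            have := Fa_mono A H b (C.ψ i z.1) hz'
            rwa [Fa_fix A H hb] at this
          rw [SlD_gt A H C hz', SlD_gt A H C hz', if_neg (not_le.2 h1), hz2]
      · exact (SlD_mixed A H C he ha hb hx' hx _).symm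
    · rcases h' with ⟨ha', hb'⟩ | ⟨e', he', rfl, rfl⟩
      · exact SlD_mixed A H C he ha' hb' hx hx' _
      · have hee : e = e' := by
          by_contra hne
          rcases kap_disj A hne (C.ψ i x) with h1 | h1
          · exact hx.2 h1
          · exact hx'.2 h1
        subst hee
        exact OrdEq.refl _ _
  · obtain ⟨G, hG, -, hev⟩ := SlD_rel A H C b b' i hx.2 hx'.2
    apply OrdEq.of_comp G hG
    filter_upwards [hev t, hsnd.eventually (Ioi_mem_nhds ht)] with z hz hz2
    have hz3 : (i : ℝ) < z.2 := hz2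
    rw [SlD_gt A H C hz3, SlD_gt A H C hz3, hz]

/-- **compatibility of consecutive slices** -/
theorem Fs_equiv_next [Finite J] [Finite K] {i : ℤ} {a b a' b' : Option (Bool × K)} (h : Adm i a b)
    (h' : Adm (i + 1) a' b') {x : S} (hx : x ∈ DD A C i a b) (hx' : x ∈ DD A C (i + 1) a' b')
    {t : ℝ} (ht : (i : ℝ) < t) (ht' : t < i + 1) :
    OrdEq (x, t) (fun z : S × ℝ => Fs A H C i a b z.1 z.2)
      (fun z : S × ℝ => Fs A H C (i + 1) a' b' z.1 z.2) := by
  have hsnd : Tendsto (fun z : S × ℝ => z.2) (𝓝 (x, t)) (𝓝 t) :=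
    continuous_snd.tendsto (x, t)
  have hi : i + 1 - 1 = i := by ring
  have hx1 : C.ψ i x ∈ VV A a' := by
    have := hx'.1
    rwa [hi] at this
  obtain ⟨G, hG, -, hev⟩ := SlD_rel A H C b a' i hx.2 hx1
  apply OrdEq.of_comp G hG
  filter_upwards [hev t, hsnd.eventually (Ioi_mem_nhds ht), hsnd.eventually (Iio_mem_nhds ht')]
    with z hz hz2 hz3
  have hz4 : (i : ℝ) < z.2 := hz2
  have hz5 : z.2 ≤ ((i + 1 : ℤ) : ℝ) := by
    have h6 : z.2 < (i : ℝ) + 1 := hz3
    push_cast
    exact h6.le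
  rw [SlD_gt A H C hz4, Fs_le A H C hz5, hi, hz]

/-- **compatibility** -/
theorem Fs_equiv [Finite J] [Finite K] {i i' : ℤ} {a b a' b' : Option (Bool × K)} (h : Adm i a b)
    (h' : Adm i' a' b') {x : S} (hx : x ∈ DD A C i a b) (hx' : x ∈ DD A C i' a' b')
    {t : ℝ} (ht : t ∈ Ioo ((i : ℝ) - 1) (i + 1)) (ht' : t ∈ Ioo ((i' : ℝ) - 1) (i' + 1)) :
    OrdEq (x, t) (fun z : S × ℝ => Fs A H C i a b z.1 z.2)
      (fun z : S × ℝ => Fs A H C i' a' b' z.1 z.2) := by
  have h1 : i < i' + 2 := by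
    have : (i : ℝ) < i' + 2 := by linarith [ht.1, ht'.2]
    exact_mod_cast this
  have h2 : i' < i + 2 := by
    have : (i' : ℝ) < i + 2 := by linarith [ht.2, ht'.1]
    exact_mod_cast this
  have h3 : i' = i ∨ i' = i + 1 ∨ i = i' + 1 := by omega
  rcases h3 with h3 | h3 | h3
  · subst h3
    exact Fs_equiv_same A H C h h' hx hx' t
  · subst h3
    have h4 := ht'.1
    push_cast at h4
    exact Fs_equiv_next A H C h h' hx hx' (by linarith) ht.2
  · subst h3
    have h4 := ht.1
    push_cast at h4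
    exact (Fs_equiv_next A H C h' h hx' hx (by linarith) ht'.2).symm

end Pool.Agent.H.MP_1611f1_gt
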