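import Pool.Agent.H.MP_1611f1_gt.ChD
import Pool.Agent.H.MP_1611f1_gt.SlD
import Pool.Agent.H.MP_1611f1_gt.SlB

/-!
Compatibility of the charts of type I.
-/

namespace Pool.Agent.H.MP_1611f1_gt

open Topology Set Filter

variable {S : Type*} [TopologicalSpace S] {J K : Type*} {E : Surf S J} {col : J → K} {L : J → ℕ}
  {phi : S ≃ₜ S} {al be ga de : J → ℤ} {Y : Type*} [TopologicalSpace Y]
  (Fl : Filling E phi al be ga de Y) {n : ℕ} (A : Arcs E col L) {σ : K → ℝ}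
  (H : ∀ k, Hol (σ k)) (C : Chain A n phi)

include C in
/-- powers of the monodromy fix the collars -/
theorem CmpA_phi_col (k : ℤ) (j : J) (z) : (phi ^ k) (E.collar j z) = E.collar j z := by
  have h1 : C.ψ (0 + 4 * n * k) (E.collar j z) = (C.ψ 0 * phi ^ k) (E.collar j z) := by
    rw [C.per_k]
  rw [C.col] at h1
  apply (C.ψ 0).injective
  rw [C.col]
  exact h1.symm

/-- a chart of type I, pulled back to a point over the outer part -/
theorem typeI_outer [Finite J] [Finite K] (hn : 0 < n) {c : OpenPartialHomeomorph Y ((ℝ × ℝ) × ℝ)}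
    (hc : IsI Fl A H C c) {x : S} {t : ℝ} (hy : PP Fl n (x, t) ∈ c.source) :
    x ∈ Out E ∧ ∃ (i : ℤ) (a b : Option (Bool × K)), Adm i a b ∧ x ∈ DD A C i a b ∧
      t ∈ Ioo ((i : ℝ) - 1) (i + 1) ∧
      OrdEq (x, t) (fun z => (c (PP Fl n z)).2) (fun z => Fs A H C i a b z.1 z.2) := by
  obtain ⟨i, a, b, ξ, hA, hsrc, hval⟩ := hc
  rw [hsrc] at hy
  obtain ⟨⟨x₁, t₁⟩, ⟨⟨⟨hx1, hx2⟩, hx3⟩, ht1⟩, he⟩ := hy
  obtain ⟨k, hk1, hk2⟩ := (PP_eq Fl hn x₁ t₁ x t).1 he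
  have hcast : ((i + 4 * n * k : ℤ) : ℝ) = (i : ℝ) + 4 * n * k := by push_cast; ring
  refine ⟨?_, i + 4 * n * k, a, b, hA.shift k, ?_, ?_, ?_⟩
  · intro j w hw
    refine hx2 j w ?_
    rw [hk2, hw, CmpA_phi_col A C]
  · rw [DD_shift, ← hk2]
    exact hx3
  · rw [hcast, hk1]
    obtain ⟨h1, h2⟩ := ht1
    constructor
    · linarith
    · linarith
  · have hcont : Continuous fun z : S × ℝ => ((phi ^ k) z.1, z.2 - 4 * n * k) :=
      ((phi ^ k).continuous.comp continuous_fst).prodMk (continuous_snd.sub continuous_const)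
    have hWo : IsOpen ((ξ.source ∩ Out E ∩ DD A C i a b) ×ˢ Ioo ((i : ℝ) - 1) (i + 1)) :=
      ((ξ.open_source.inter Out_open).inter (DD_open A C i a b)).prod isOpen_Ioo
    have hmem : ∀ᶠ z : S × ℝ in 𝓝 (x, t), ((phi ^ k) z.1, z.2 - 4 * n * k) ∈
        (ξ.source ∩ Out E ∩ DD A C i a b) ×ˢ Ioo ((i : ℝ) - 1) (i + 1) := by
      refine hcont.continuousAt.eventually_mem (hWo.mem_nhds ?_)
      have ht : t - 4 * n * k = t₁ := by rw [hk1]; ring
      show ((phi ^ k) x, t - 4 * n * k) ∈ _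
      rw [← hk2, ht]
      exact ⟨⟨⟨hx1, hx2⟩, hx3⟩, ht1⟩
    refine OrdEq.of_comp (fun s => s + 4 * n * k) (fun u v huv => by simpa using huv)
      (hmem.mono fun z hz => ?_)
    have hPP : PP Fl n z = PP Fl n ((phi ^ k) z.1, z.2 - 4 * n * k) := by
      refine ((PP_eq Fl hn ((phi ^ k) z.1) (z.2 - 4 * n * k) z.1 z.2).2 ⟨k, by ring, rfl⟩).symm
    have h1 := hval _ hz
    have h2 := Fs_shift A H C i k a b z.1 (z.2 - 4 * n * k)
    rw [sub_add_cancel] at h2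
    show Fs A H C (i + 4 * n * k) a b z.1 z.2 = (c (PP Fl n z)).2 + 4 * n * k
    rw [hPP, h1, h2]

/-- compatibility of two charts of type I -/
theorem compat_outer [Finite J] [Finite K] (hn : 0 < n) {c c' : OpenPartialHomeomorph Y ((ℝ × ℝ) × ℝ)}
    (hc : IsI Fl A H C c) (hc' : IsI Fl A H C c') {x : S} {t : ℝ}
    (hy : PP Fl n (x, t) ∈ c.source) (hy' : PP Fl n (x, t) ∈ c'.source) :
    OrdEq (PP Fl n (x, t)) (fun z => (c z).2) (fun z => (c' z).2) := by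
  obtain ⟨-, i, a, b, hA, hx, ht, h1⟩ := typeI_outer Fl A H C hn hc hy
  obtain ⟨-, i', a', b', hA', hx', ht', h2⟩ := typeI_outer Fl A H C hn hc' hy'
  exact OrdEq.of_openMap (PP_open Fl hn)
    ((h1.trans (Fs_equiv A H C hA hA' hx hx' ht ht')).trans h2.symm)

end Pool.Agent.H.MP_1611f1_gt
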