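import Pool.Agent.H.MP_1611f1_gt.TypC

/-!
The collapse maps on the collars.
-/

namespace Pool.Agent.H.MP_1611f1_gt

open Topology Set Filter

variable {S : Type*} [TopologicalSpace S] {J K : Type*} {E : Surf S J} {col : J → K} {L : J → ℕ}
  (A : Arcs E col L)

theorem kap_collar_ne {e : Bool × K} {j : J} (h : e.2 ≠ col j) (z) :
    kap A e (E.collar j z) = 0 := by
  unfold kap
  split_ifs
  · exact (A.other e.2 j z h).2
  · exact (A.other e.2 j z h).1

/-- the collapse maps on the collar, in the coordinate `y`, at `y = k + u` -/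
theorem kap_collar (bb : Bool) (j : J) (hL : 0 < L j) (k : ℤ) (u : ℝ) (hu : u ∈ Icc (0 : ℝ) 1)
    (r : Ioo (1 : ℝ) 2) :
    kap A (bb, col j) (E.collar j ((((k + u) / (4 * L j) : ℝ) : AddCircle (1 : ℝ)), r)) =
      if bb = true then
        ((if k % 4 = 1 then u else if k % 4 = 3 then -u else 0 : ℝ) : AddCircle (1 : ℝ))
      else ((if k % 4 = 0 then u else if k % 4 = 2 then -u else 0 : ℝ) : AddCircle (1 : ℝ)) := by
  obtain ⟨N, k', hk'⟩ : ∃ N k' : ℕ, (k' : ℤ) = k + 4 * ((L j : ℤ) * N) := by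
    refine ⟨k.natAbs, (k + 4 * ((L j : ℤ) * k.natAbs)).toNat, ?_⟩
    rw [Int.toNat_of_nonneg]
    have h1 : (1 : ℤ) ≤ L j := by exact_mod_cast hL
    have h2 : (k.natAbs : ℤ) ≤ (L j : ℤ) * k.natAbs := by
      nlinarith [Int.natCast_nonneg k.natAbs]
    omega
  have hLr : (0 : ℝ) < L j := by exact_mod_cast hL
  have hkr : (k' : ℝ) = k + 4 * (L j * N) := by exact_mod_cast hk'
  have hpt : (((k + u) / (4 * L j) : ℝ) : AddCircle (1 : ℝ)) =
      (((k' + u) / (4 * L j) : ℝ) : AddCircle (1 : ℝ)) := by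
    have h1 : ((k' + u) / (4 * L j) : ℝ) = (k + u) / (4 * L j) + N * 1 := by
      rw [hkr]
      field_simp
      ring
    rw [h1, AddCircle.coe_add]
    have h2 : (((N : ℝ) * 1 : ℝ) : AddCircle (1 : ℝ)) = 0 := by
      rw [← nsmul_eq_mul, AddCircle.coe_nsmul, AddCircle.coe_period, smul_zero]
    rw [h2, add_zero]
  rw [hpt]
  cases bb
  · rw [if_neg Bool.false_ne_true]
    have h3 : kap A (false, col j) (E.collar j ((((k' + u) / (4 * L j) : ℝ) : AddCircle (1 : ℝ)), r)) =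
        A.a (col j) (E.collar j ((((k' + u) / (4 * L j) : ℝ) : AddCircle (1 : ℝ)), r)) := rfl
    rw [h3, A.end_a j k' u r hu]
    have e0 : k' % 4 = 0 ↔ k % 4 = 0 := by omega
    have e2 : k' % 4 = 2 ↔ k % 4 = 2 := by omega
    simp only [e0, e2]
  · rw [if_pos rfl]
    have h3 : kap A (true, col j) (E.collar j ((((k' + u) / (4 * L j) : ℝ) : AddCircle (1 : ℝ)), r)) =
        A.b (col j) (E.collar j ((((k' + u) / (4 * L j) : ℝ) : AddCircle (1 : ℝ)), r)) := rfl
    rw [h3, A.end_b j k' u r hu]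
    have e1 : k' % 4 = 1 ↔ k % 4 = 1 := by omega
    have e3 : k' % 4 = 3 ↔ k % 4 = 3 := by omega
    simp only [e1, e3]

/-- the collapse maps do not depend on the radius -/
theorem kap_radius (e : Bool × K) (hL : ∀ j, 0 < L j) (j : J) (θ : AddCircle (1 : ℝ))
    (r r' : Ioo (1 : ℝ) 2) : kap A e (E.collar j (θ, r)) = kap A e (E.collar j (θ, r')) := by
  by_cases h : e.2 = col j
  · obtain ⟨bb, k'⟩ := e
    obtain rfl : k' = col j := h
    obtain ⟨x, rfl⟩ : ∃ x : ℝ, (x : AddCircle (1 : ℝ)) = θ := QuotientAddGroup.mk_surjective θ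
    have hLr : (0 : ℝ) < L j := by exact_mod_cast hL j
    have hx : x = ((⌊4 * L j * x⌋ : ℝ) + Int.fract (4 * L j * x)) / (4 * L j) := by
      rw [Int.floor_add_fract]
      field_simp
    have hu : Int.fract (4 * L j * x) ∈ Icc (0 : ℝ) 1 :=
      ⟨Int.fract_nonneg _, (Int.fract_lt_one _).le⟩
    rw [hx, kap_collar A bb j (hL j) _ _ hu r, kap_collar A bb j (hL j) _ _ hu r']
  · rw [kap_collar_ne A h, kap_collar_ne A h]

end Pool.Agent.H.MP_1611f1_gt
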