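import Pool.Agent.H.MP_1611f1_gt.ColB
import Pool.Agent.H.MP_1611f1_gt.ColD

/-!
The collar function and the local functions.
-/

namespace Pool.Agent.H.MP_1611f1_gt

open Topology Set Filter

variable {S : Type*} [TopologicalSpace S] {J K : Type*} {E : Surf S J} {col : J → K} {L : J → ℕ}
  (A : Arcs E col L) {σ : K → ℝ} (H : ∀ k, Hol (σ k))

theorem ColE_strip (j : J) (e : Bool × K) (k : ℤ) (y : ℝ) (r : Ioo (1 : ℝ) 2)
    (hy : y ∈ Ioo (k : ℝ) (k + 1)) (s : ℝ → ℝ) (hs : ∀ u ∈ Ioo (0 : ℝ) 1, s u ∈ Ico (0 : ℝ) 1)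
    (hk : ∀ u ∈ Ioo (0 : ℝ) 1, ∀ r' : Ioo (1 : ℝ) 2,
      kap A e (E.collar j ((((k + u) / (4 * L j) : ℝ) : AddCircle (1 : ℝ)), r')) =
        ((s u : ℝ) : AddCircle (1 : ℝ)))
    (hG : ∃ G : ℝ → ℝ, StrictMono G ∧ ∀ u ∈ Icc (0 : ℝ) 1, ∀ t,
      MM (H (col j)) (k + u) t = G (Fe (iso H e) (s u) t)) :
    ∃ G : ℝ → ℝ, StrictMono G ∧ ∀ᶠ z : ℝ × Ioo (1 : ℝ) 2 in 𝓝 (y, r), ∀ t,
      MM (H (col j)) z.1 t =
        G (Fa A H (some e)
          (E.collar j (((z.1 / (4 * L j) : ℝ) : AddCircle (1 : ℝ)), z.2)) t) := by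
  obtain ⟨G, hG1, hG2⟩ := hG
  refine ⟨G, hG1, ?_⟩
  have hev : ∀ᶠ z : ℝ × Ioo (1 : ℝ) 2 in 𝓝 (y, r), z.1 ∈ Ioo (k : ℝ) (k + 1) :=
    (continuous_fst.tendsto (y, r)).eventually (Ioo_mem_nhds hy.1 hy.2)
  filter_upwards [hev]
  rintro ⟨y', r'⟩ hz t
  change y' ∈ Ioo (k : ℝ) (k + 1) at hz
  change MM (H (col j)) y' t = G (Fe (iso H e)
    (lft (kap A e (E.collar j (((y' / (4 * L j) : ℝ) : AddCircle (1 : ℝ)), r')))) t)
  obtain ⟨u, rfl⟩ : ∃ u : ℝ, y' = k + u := ⟨y' - k, by ring⟩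
  have hu : u ∈ Ioo (0 : ℝ) 1 := ⟨by linarith [hz.1], by linarith [hz.2]⟩
  rw [hk u hu r', lft_coe (hs u hu), hG2 u (Ioo_subset_Icc_self hu)]

theorem ColE_near (j : J) (k : ℤ) (y : ℝ) (r : Ioo (1 : ℝ) 2) (hy : |y - k| < 1 / 4) :
    ∃ G : ℝ → ℝ, StrictMono G ∧ ∀ᶠ z : ℝ × Ioo (1 : ℝ) 2 in 𝓝 (y, r), ∀ t,
      MM (H (col j)) z.1 t =
        G (Fa A H none (E.collar j (((z.1 / (4 * L j) : ℝ) : AddCircle (1 : ℝ)), z.2)) t) := by
  refine ⟨MM (H (col j)) k, MM_mono (H (col j)) k, ?_⟩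
  have hc : Continuous fun z : ℝ × Ioo (1 : ℝ) 2 => |z.1 - k| := by fun_prop
  filter_upwards [(hc.tendsto (y, r)).eventually (Iio_mem_nhds hy)]
  rintro ⟨y', r'⟩ hz t
  exact MM_near (H (col j)) k y' t (le_of_lt hz)

theorem ColE_norm {u : ℝ} (hu : u ∈ Ico (0 : ℝ) 1)
    (h : ‖((u : ℝ) : AddCircle (1 : ℝ))‖ < 1 / 4) : u < 1 / 4 ∨ 3 / 4 < u := by
  rw [norm_lt_iff, lft_coe hu] at h
  exact h

theorem ColE_neg (u : ℝ) : ((-u : ℝ) : AddCircle (1 : ℝ)) = ((1 - u : ℝ) : AddCircle (1 : ℝ)) := by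
  have h : ((1 : ℝ) : AddCircle (1 : ℝ)) = 0 := AddCircle.coe_period 1
  rw [sub_eq_add_neg, AddCircle.coe_add, h, zero_add]

/-- **the collar function is an increasing function of the local transverse functions** -/
theorem MM_rel (j : J) (hL : 0 < L j) (a : Option (Bool × K)) (y : ℝ) (r : Ioo (1 : ℝ) 2)
    (hx : E.collar j (((y / (4 * L j) : ℝ) : AddCircle (1 : ℝ)), r) ∈ VV A a) :
    ∃ G : ℝ → ℝ, StrictMono G ∧ ∀ᶠ z : ℝ × Ioo (1 : ℝ) 2 in 𝓝 (y, r), ∀ t,
      MM (H (col j)) z.1 t =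
        G (Fa A H a (E.collar j (((z.1 / (4 * L j) : ℝ) : AddCircle (1 : ℝ)), z.2)) t) := by
  obtain ⟨k, u, hu, rfl⟩ : ∃ (k : ℤ) (u : ℝ), u ∈ Ico (0 : ℝ) 1 ∧ y = k + u :=
    ⟨⌊y⌋, Int.fract y, ⟨Int.fract_nonneg y, Int.fract_lt_one y⟩, (Int.floor_add_fract y).symm⟩
  have hu' : u ∈ Icc (0 : ℝ) 1 := ⟨hu.1, hu.2.le⟩
  have hK := fun bb : Bool => kap_collar A bb j hL k u hu' r
  have h4 : k % 4 = 0 ∨ k % 4 = 1 ∨ k % 4 = 2 ∨ k % 4 = 3 := by omega
  rcases a with _ | ⟨bb, j'⟩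
  · have hx' : ∀ e, ‖kap A e (E.collar j ((((k + u) / (4 * L j) : ℝ) : AddCircle (1 : ℝ)), r))‖
      < 1 / 4 := hx
    have key : u < 1 / 4 ∨ 3 / 4 < u := by
      rcases h4 with h | h | h | h
      · have h1 := hx' (false, col j)
        rw [hK false] at h1
        simp only [h, Bool.false_eq_true, if_false, if_true] at h1
        exact ColE_norm hu h1
      · have h1 := hx' (true, col j)
        rw [hK true] at h1
        simp only [h, if_true] at h1
        exact ColE_norm hu h1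
      · have h1 := hx' (false, col j)
        rw [hK false] at h1
        simp only [h, Bool.false_eq_true, if_false, if_true] at h1
        norm_num at h1
        exact ColE_norm hu h1
      · have h1 := hx' (true, col j)
        rw [hK true] at h1
        simp only [h, if_true] at h1
        norm_num at h1
        exact ColE_norm hu h1
    rcases key with h | h
    · refine ColE_near A H j k (k + u) r ?_
      rw [abs_lt]
      constructor <;> linarith [hu.1]
    · refine ColE_near A H j (k + 1) (k + u) r ?_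
      push_cast
      rw [abs_lt]
      constructor <;> linarith [hu.2]
  · have hx' : kap A (bb, j') (E.collar j ((((k + u) / (4 * L j) : ℝ) : AddCircle (1 : ℝ)), r))
      ≠ 0 := hx
    have hj : j' = col j := by
      by_contra hne
      exact hx' (kap_collar_ne A (e := (bb, j')) hne _)
    subst hj
    rw [hK bb] at hx'
    have hne : ∀ h : u ≠ 0, (k + u : ℝ) ∈ Ioo (k : ℝ) (k + 1) := by
      intro h
      have h1 : 0 < u := lt_of_le_of_ne hu.1 (Ne.symm h)
      exact ⟨by linarith, by linarith [hu.2]⟩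
    have hu0 : u ≠ 0 := by
      rintro rfl
      apply hx'
      split_ifs <;> simp
    have hpos : ∀ v ∈ Ioo (0 : ℝ) 1, v ∈ Ico (0 : ℝ) 1 := fun v hv => ⟨hv.1.le, hv.2⟩
    have hneg : ∀ v ∈ Ioo (0 : ℝ) 1, 1 - v ∈ Ico (0 : ℝ) 1 := fun v hv =>
      ⟨by linarith [hv.2], by linarith [hv.1]⟩
    rcases bb with _ | _
    · rcases h4 with h | h | h | h
      · refine ColE_strip A H j (false, col j) k _ r (hne hu0) (fun v => v) hpos ?_ ?_
        · intro v hv r'
          rw [kap_collar A false j hL k v (Ioo_subset_Icc_self hv) r']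
          simp only [h, Bool.false_eq_true, if_false, if_true]
        · exact MM_letter0 (H (col j)) k h
      · exact absurd (by simp [h]) hx'
      · refine ColE_strip A H j (false, col j) k _ r (hne hu0) (fun v => 1 - v) hneg ?_ ?_
        · intro v hv r'
          rw [kap_collar A false j hL k v (Ioo_subset_Icc_self hv) r', ← ColE_neg]
          simp [h]
        · exact MM_letter2 (H (col j)) k h
      · exact absurd (by simp [h]) hx'
    · rcases h4 with h | h | h | h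
      · exact absurd (by simp [h]) hx'
      · refine ColE_strip A H j (true, col j) k _ r (hne hu0) (fun v => v) hpos ?_ ?_
        · intro v hv r'
          rw [kap_collar A true j hL k v (Ioo_subset_Icc_self hv) r']
          simp only [h, if_true]
        · exact MM_letter1 (H (col j)) k h
      · exact absurd (by simp [h]) hx'
      · refine ColE_strip A H j (true, col j) k _ r (hne hu0) (fun v => 1 - v) hneg ?_ ?_
        · intro v hv r'
          rw [kap_collar A true j hL k v (Ioo_subset_Icc_self hv) r', ← ColE_neg]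
          simp [h]
        · exact MM_letter3 (H (col j)) k h

end Pool.Agent.H.MP_1611f1_gt
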