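import Pool.Agent.H.MP_1611f1_gt.CmpA
import Pool.Agent.H.MP_1611f1_gt.ColE

/-!
Charts of type I over the collars.
-/

namespace Pool.Agent.H.MP_1611f1_gt

open Topology Set Filter

variable {S : Type*} [TopologicalSpace S] {J K : Type*} {E : Surf S J} {col : J → K} {L : J → ℕ}
  {phi : S ≃ₜ S} {al be ga de : J → ℤ} {Y : Type*} [TopologicalSpace Y]
  (Fl : Filling E phi al be ga de Y) {n : ℕ} (A : Arcs E col L) {σ : K → ℝ}
  (H : ∀ k, Hol (σ k)) (C : Chain A n phi)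

/-- gluing two increasing functions at a common value -/
theorem CmpB_glue {Ga Gb : ℝ → ℝ} (ha : StrictMono Ga) (hb : StrictMono Gb) {m : ℝ}
    (h : Ga m = Gb m) : StrictMono fun v => if v ≤ m then Ga v else Gb v := by
  intro v w hvw
  by_cases hv : v ≤ m
  · by_cases hw : w ≤ m
    · simp only [if_pos hv, if_pos hw]
      exact ha hvw
    · simp only [if_pos hv, if_neg hw]
      calc Ga v ≤ Ga m := ha.monotone hv
        _ = Gb m := h
        _ < Gb w := hb (not_le.mp hw)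
  · have hw : ¬ w ≤ m := fun hw => hv (hvw.le.trans hw)
    simp only [if_neg hv, if_neg hw]
    exact hb hvw

/-- charts of type I over the collars -/
theorem collar_I [Finite J] [Finite K] (hn : 0 < n) (hL : ∀ j, 0 < L j) {c : OpenPartialHomeomorph Y ((ℝ × ℝ) × ℝ)}
    (hc : IsI Fl A H C c) (j : J) {z : ℝ × Ioo (1 : ℝ) 2 × ℝ}
    (hy : QQ Fl L n j z ∈ c.source) :
    OrdEq z (fun z => (c (QQ Fl L n j z)).2) (fun z => MR (H (col j)) z.1 z.2.1 z.2.2) := by
  obtain ⟨y, r, t⟩ := z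
  -- the map to `S × ℝ`
  let K : ℝ × Ioo (1 : ℝ) 2 × ℝ → S × ℝ := fun z =>
    (E.collar j (((z.1 / (4 * L j) : ℝ) : AddCircle (1 : ℝ)), z.2.1), z.2.2)
  have hK : Continuous K := by
    refine Continuous.prodMk ((E.emb j).continuous.comp (Continuous.prodMk ?_ ?_)) ?_
    · exact (AddCircle.continuous_mk' (1 : ℝ)).comp (by fun_prop)
    · fun_prop
    · fun_prop
  obtain ⟨hOut, i, a, b, hadm, hDD, ht, hord⟩ := typeI_outer Fl A H C hn hc hy
  have h1 : OrdEq (y, r, t) (fun z => (c (QQ Fl L n j z)).2)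
      (fun z => Fs A H C i a b (K z).1 (K z).2) :=
    OrdEq.comp_cont (R := K) (z₀ := (y, r, t)) hK.continuousAt hord
  refine h1.trans ?_
  have hr : (5 : ℝ) / 3 < r := hOut j _ rfl
  have hr' : ∀ᶠ z : ℝ × Ioo (1 : ℝ) 2 × ℝ in 𝓝 (y, r, t), (5 : ℝ) / 3 < z.2.1 := by
    have h2 : Continuous fun z : ℝ × Ioo (1 : ℝ) 2 × ℝ => (z.2.1 : ℝ) := by fun_prop
    exact h2.continuousAt.eventually_const_lt hr
  have hca : E.collar j (((y / (4 * L j) : ℝ) : AddCircle (1 : ℝ)), r) ∈ VV A a := by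
    have := hDD.1
    rwa [C.col] at this
  have hcb : E.collar j (((y / (4 * L j) : ℝ) : AddCircle (1 : ℝ)), r) ∈ VV A b := by
    have := hDD.2
    rwa [C.col] at this
  obtain ⟨Ga, hGa, hGa'⟩ := MM_rel A H j (hL j) a y r hca
  obtain ⟨Gb, hGb, hGb'⟩ := MM_rel A H j (hL j) b y r hcb
  have hproj : Tendsto (fun z : ℝ × Ioo (1 : ℝ) 2 × ℝ => (z.1, z.2.1)) (𝓝 (y, r, t))
      (𝓝 (y, r)) := by
    have h2 : Continuous fun z : ℝ × Ioo (1 : ℝ) 2 × ℝ => (z.1, z.2.1) := by fun_prop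
    exact h2.continuousAt (x := (y, r, t))
  have hGa2 : ∀ᶠ z : ℝ × Ioo (1 : ℝ) 2 × ℝ in 𝓝 (y, r, t), ∀ t, MM (H (col j)) z.1 t =
        Ga (Fa A H a (E.collar j (((z.1 / (4 * L j) : ℝ) : AddCircle (1 : ℝ)), z.2.1)) t) :=
    hproj.eventually hGa'
  have hGb2 : ∀ᶠ z : ℝ × Ioo (1 : ℝ) 2 × ℝ in 𝓝 (y, r, t), ∀ t, MM (H (col j)) z.1 t =
        Gb (Fa A H b (E.collar j (((z.1 / (4 * L j) : ℝ) : AddCircle (1 : ℝ)), z.2.1)) t) :=
    hproj.eventually hGb'
  have hsnd : Continuous fun z : ℝ × Ioo (1 : ℝ) 2 × ℝ => z.2.2 := by fun_prop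
  -- the two values of `Fs`
  have hFl : ∀ z : ℝ × Ioo (1 : ℝ) 2 × ℝ, z.2.2 ≤ i → Fs A H C i a b (K z).1 (K z).2 =
      Fa A H a (E.collar j (((z.1 / (4 * L j) : ℝ) : AddCircle (1 : ℝ)), z.2.1)) z.2.2 := by
    intro z hz
    have : Fs A H C i a b (K z).1 (K z).2 = Fa A H a (C.ψ (i - 1) (K z).1) z.2.2 := if_pos hz
    rw [this, C.col]
  have hFg : ∀ z : ℝ × Ioo (1 : ℝ) 2 × ℝ, ¬ z.2.2 ≤ i → Fs A H C i a b (K z).1 (K z).2 =
      Fa A H b (E.collar j (((z.1 / (4 * L j) : ℝ) : AddCircle (1 : ℝ)), z.2.1)) z.2.2 := by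
    intro z hz
    have : Fs A H C i a b (K z).1 (K z).2 = Fa A H b (C.ψ i (K z).1) z.2.2 := if_neg hz
    rw [this, C.col]
  rcases lt_trichotomy t i with hti | hti | hti
  · apply OrdEq.of_comp Ga hGa
    filter_upwards [hr', hGa2, hsnd.continuousAt.eventually_lt_const (u := (i : ℝ)) hti]
      with z hz1 hz2 hz3
    rw [MR_outer (H (col j)) _ _ hz1.le, hz2, hFl z hz3.le]
  · rcases hadm with ⟨ha, hb⟩ | ⟨e, he, rfl, rfl⟩
    · have hab : Ga i = Gb i := by
        have h3 := hGa2.self_of_nhds i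
        have h4 := hGb2.self_of_nhds i
        rw [Fa_fix A H ha] at h3
        rw [Fa_fix A H hb] at h4
        exact h3.symm.trans h4
      apply OrdEq.of_comp _ (CmpB_glue hGa hGb hab)
      filter_upwards [hr', hGa2, hGb2] with z hz1 hz2 hz3
      rw [MR_outer (H (col j)) _ _ hz1.le]
      by_cases hz : z.2.2 ≤ i
      · rw [hFl z hz]
        have h5 : Fa A H a (E.collar j (((z.1 / (4 * L j) : ℝ) : AddCircle (1 : ℝ)), z.2.1))
            z.2.2 ≤ i := by
          have h6 := (Fa_mono A H a (E.collar j (((z.1 / (4 * L j) : ℝ) : AddCircle (1 : ℝ)),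
            z.2.1))).monotone hz
          rwa [Fa_fix A H ha] at h6
        simp only [if_pos h5]
        exact hz2 _
      · rw [hFg z hz]
        have h5 : ¬ Fa A H b (E.collar j (((z.1 / (4 * L j) : ℝ) : AddCircle (1 : ℝ)), z.2.1))
            z.2.2 ≤ i := by
          have h6 := (Fa_mono A H b (E.collar j (((z.1 / (4 * L j) : ℝ) : AddCircle (1 : ℝ)),
            z.2.1))) (not_le.mp hz)
          rw [Fa_fix A H hb] at h6
          exact not_le.mpr h6
        simp only [if_neg h5]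
        exact hz3 _
    · apply OrdEq.of_comp Ga hGa
      filter_upwards [hr', hGa2] with z hz1 hz2
      rw [MR_outer (H (col j)) _ _ hz1.le, hz2]
      by_cases hz : z.2.2 ≤ i
      · rw [hFl z hz]
      · rw [hFg z hz]
  · apply OrdEq.of_comp Gb hGb
    filter_upwards [hr', hGb2, hsnd.continuousAt.eventually_const_lt (u := (i : ℝ)) hti]
      with z hz1 hz2 hz3
    rw [MR_outer (H (col j)) _ _ hz1.le, hz2, hFg z (not_le.mpr hz3)]

end Pool.Agent.H.MP_1611f1_gt
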