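import Pool.Agent.H.MP_1611f1_gt.ChD
import Pool.Agent.H.MP_1611f1_gt.ChB
import Pool.Agent.H.MP_1611f1_gt.Fib

/-!
Charts of type II over the collars.
-/

namespace Pool.Agent.H.MP_1611f1_gt

open Topology Set Filter

variable {S : Type*} [TopologicalSpace S] {J K : Type*} {E : Surf S J} {col : J → K} {L : J → ℕ}
  {phi : S ≃ₜ S} {al be ga de : J → ℤ} {Y : Type*} [TopologicalSpace Y]
  (Fl : Filling E phi al be ga de Y) {n : ℕ} (A : Arcs E col L) {σ : K → ℝ}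
  (H : ∀ k, Hol (σ k)) (C : Chain A n phi)

/-- charts of type II over the collars -/
theorem collar_II (hn : 0 < n) (hL : ∀ j, 0 < L j)
    (hcol : ∀ j z, phi (E.collar j z) = E.collar j z)
    {c : OpenPartialHomeomorph Y ((ℝ × ℝ) × ℝ)}
    (hc : IsII (L := L) (n := n) (col := col) Fl H c) (j : J) {z : ℝ × Ioo (1 : ℝ) 2 × ℝ}
    (hy : QQ Fl L n j z ∈ c.source) :
    OrdEq z (fun z => (c (QQ Fl L n j z)).2) (fun z => MR (H (col j)) z.1 z.2.1 z.2.2) := by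
  obtain ⟨j', y₀, t₀, hs, hv⟩ := hc
  rw [hs] at hy
  obtain ⟨z', hz', heq⟩ := hy
  obtain ⟨hj, hr, k, m, h1, h2⟩ := QQ_eq Fl hn hcol j j' (hL j) z z' heq.symm
  subst hj
  set S : ℝ × Ioo (1 : ℝ) 2 × ℝ → ℝ × Ioo (1 : ℝ) 2 × ℝ :=
    fun w => (w.1 + 4 * L j * m, w.2.1, w.2.2 + 4 * n * k) with hS
  have hScont : Continuous S := by
    rw [hS]
    fun_prop
  have hSz : S z = z' := by
    rw [hS]
    ext
    · exact h1.symm
    · exact congrArg Subtype.val hr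
    · exact h2.symm
  have hopen : IsOpen (Ioo y₀ (y₀ + 1) ×ˢ ((univ : Set (Ioo (1 : ℝ) 2)) ×ˢ Ioo t₀ (t₀ + 1))) :=
    isOpen_Ioo.prod (isOpen_univ.prod isOpen_Ioo)
  have hev : ∀ᶠ w in 𝓝 z,
      S w ∈ Ioo y₀ (y₀ + 1) ×ˢ ((univ : Set (Ioo (1 : ℝ) 2)) ×ˢ Ioo t₀ (t₀ + 1)) := by
    apply hScont.continuousAt.eventually
    rw [hSz]
    exact hopen.mem_nhds hz'
  refine OrdEq.of_comp (fun v => v + (4 * σ (col j) * (L j * m) - 4 * (n * k))) ?_ ?_
  · intro a b hab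
    show a + _ < b + _
    linarith
  · filter_upwards [hev] with w hw
    have e1 : QQ Fl L n j (S w) = QQ Fl L n j w :=
      QQ_per Fl hn hcol j (hL j) w.1 w.2.1 w.2.2 k m
    have e2 := hv (S w) hw
    rw [e1] at e2
    have e3 : MR (H (col j)) (S w).1 (S w).2.1 (S w).2.2 =
        MR (H (col j)) w.1 w.2.1 w.2.2 - 4 * σ (col j) * (L j * m) + 4 * (n * k) := by
      show MR (H (col j)) (w.1 + 4 * L j * m) w.2.1 (w.2.2 + 4 * n * k) = _
      have c1 : w.1 + 4 * (L j : ℝ) * m = w.1 + 4 * (((L j : ℤ) * m : ℤ) : ℝ) := by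
        push_cast
        ring
      have c2 : w.2.2 + 4 * (n : ℝ) * k = w.2.2 + 4 * (((n : ℤ) * k : ℤ) : ℝ) := by
        push_cast
        ring
      rw [c1, c2, MR_y, MR_t]
      push_cast
      ring
    show MR (H (col j)) w.1 w.2.1 w.2.2 =
      (c (QQ Fl L n j w)).2 + (4 * σ (col j) * (L j * m) - 4 * (n * k))
    rw [e2, e3]
    ring

end Pool.Agent.H.MP_1611f1_gt
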