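import Pool.Agent.H.MP_1611f1_gt.ChD
import Pool.Agent.H.MP_1611f1_gt.ChB
import Pool.Agent.H.MP_1611f1_gt.Fib

/-!
Charts of type III over the collars.
-/

namespace Pool.Agent.H.MP_1611f1_gt

open Topology Set Filter

variable {S : Type*} [TopologicalSpace S] {J K : Type*} {E : Surf S J} {col : J → K} {L : J → ℕ}
  {phi : S ≃ₜ S} {al be ga de : J → ℤ} {Y : Type*} [TopologicalSpace Y]
  (Fl : Filling E phi al be ga de Y) {n : ℕ} (A : Arcs E col L) {σ : K → ℝ}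
  (H : ∀ k, Hol (σ k)) (C : Chain A n phi)

/-- charts of type III over the collars -/
theorem collar_III (hn : 0 < n) (hL : ∀ j, 0 < L j) (hde : ∀ j, de j ≠ 0)
    (hσ : ∀ j, σ (col j) * (de j * L j) = -(n * ga j))
    {c : OpenPartialHomeomorph Y ((ℝ × ℝ) × ℝ)}
    (hc : IsIII Fl c) (j : J) {z : ℝ × Ioo (1 : ℝ) 2 × ℝ}
    (hy : QQ Fl L n j z ∈ c.source) :
    (z.2.1 : ℝ) < 4 / 3 ∧
    OrdEq z (fun z => (c (QQ Fl L n j z)).2) (fun z => MR (H (col j)) z.1 z.2.1 z.2.2) := by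
  obtain ⟨j', s₀, hsrc, hval⟩ := hc
  rw [hsrc] at hy
  obtain ⟨⟨w, h⟩, ⟨hw, s, hs, hh⟩, hq⟩ := hy
  rw [QQ_torus Fl hn j z] at hq
  have hj : j' = j := Fl.q_disj j' j _ _ hq
  subst hj
  have hinj := (Fl.q_emb j').injective hq
  have hw1 : w = _ := congrArg Prod.fst hinj
  have hh1 : h = _ := congrArg Prod.snd hinj
  have hnorm : ∀ (r : Ioo (1 : ℝ) 2) (ψ : AddCircle (1 : ℝ)), ‖((polar r ψ : Metric.ball (0 : ℂ) 2) : ℂ)‖
      = (r : ℝ) := by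
    intro r ψ
    have h1 := r.2.1
    change ‖((r : ℝ) : ℂ) * (AddCircle.toCircle ψ : ℂ)‖ = (r : ℝ)
    rw [norm_mul, Circle.norm_coe, mul_one, Complex.norm_real, Real.norm_of_nonneg (by linarith)]
  have hr : (z.2.1 : ℝ) < 4 / 3 := by
    have h1 : ‖(w : ℂ)‖ < 4 / 3 := hw
    rw [hw1, hnorm] at h1
    exact h1
  refine ⟨hr, ?_⟩
  -- the height in coordinates
  have hcoe : ∀ z1 : ℝ × Ioo (1 : ℝ) 2 × ℝ,
      ga j' • ((z1.1 / (4 * L j') : ℝ) : AddCircle (1 : ℝ)) +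
        ((de j' * (z1.2.2 / (4 * n)) : ℝ) : AddCircle (1 : ℝ)) =
      ((ga j' * (z1.1 / (4 * L j')) + de j' * (z1.2.2 / (4 * n)) : ℝ) : AddCircle (1 : ℝ)) := by
    intro z1
    rw [AddCircle.coe_add, ← AddCircle.coe_zsmul, zsmul_eq_mul]
  obtain ⟨m, hm⟩ : ∃ m : ℤ, s = ga j' * (z.1 / (4 * L j')) + de j' * (z.2.2 / (4 * n)) + m := by
    have h1 : ((s : ℝ) : AddCircle (1 : ℝ)) =
        ((ga j' * (z.1 / (4 * L j')) + de j' * (z.2.2 / (4 * n)) : ℝ) : AddCircle (1 : ℝ)) := by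
      rw [← hcoe z]
      exact (show h = ((s : ℝ) : AddCircle (1 : ℝ)) from hh).symm.trans hh1
    have h2 : ((s - (ga j' * (z.1 / (4 * L j')) + de j' * (z.2.2 / (4 * n))) : ℝ) :
        AddCircle (1 : ℝ)) = 0 := by
      rw [AddCircle.coe_sub, h1, sub_self]
    obtain ⟨m, hm⟩ := (AddCircle.coe_eq_zero_iff (1 : ℝ)).1 h2
    refine ⟨m, ?_⟩
    rw [zsmul_eq_mul, mul_one] at hm
    linarith
  set sf : ℝ × Ioo (1 : ℝ) 2 × ℝ → ℝ := fun z1 =>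
    ga j' * (z1.1 / (4 * L j')) + de j' * (z1.2.2 / (4 * n)) + m with hsf
  have hsfc : Continuous sf := by
    rw [hsf]
    fun_prop
  have hnear : ∀ᶠ z1 in 𝓝 z, sf z1 ∈ Ioo s₀ (s₀ + 1) ∧ (z1.2.1 : ℝ) < 4 / 3 := by
    have h1 : ∀ᶠ z1 in 𝓝 z, sf z1 ∈ Ioo s₀ (s₀ + 1) := by
      refine hsfc.continuousAt.eventually_mem (isOpen_Ioo.mem_nhds ?_)
      change sf z ∈ Ioo s₀ (s₀ + 1)
      rw [hsf]
      change ga j' * (z.1 / (4 * L j')) + de j' * (z.2.2 / (4 * n)) + m ∈ Ioo s₀ (s₀ + 1)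
      rw [← hm]
      exact hs
    have h2 : ∀ᶠ z1 : ℝ × Ioo (1 : ℝ) 2 × ℝ in 𝓝 z, (z1.2.1 : ℝ) < 4 / 3 := by
      have h3 : Continuous fun z1 : ℝ × Ioo (1 : ℝ) 2 × ℝ => (z1.2.1 : ℝ) := by fun_prop
      exact h3.continuousAt.eventually (gt_mem_nhds hr)
    exact h1.and h2
  have hdeR : (de j' : ℝ) ≠ 0 := Int.cast_ne_zero.2 (hde j')
  have habs : 0 < |(de j' : ℝ)| := abs_pos.2 hdeR
  have hnR : (0 : ℝ) < n := Nat.cast_pos.2 hn
  have hLR : (0 : ℝ) < L j' := Nat.cast_pos.2 (hL j')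
  have hsign : ((de j').sign : ℝ) * |(de j' : ℝ)| = de j' := by
    rw [← Int.cast_abs, ← Int.cast_mul, Int.sign_mul_abs]
  have hG : StrictMono fun v : ℝ => 4 * n / |(de j' : ℝ)| * v - 4 * n / de j' * m := by
    intro a b hab
    have h1 : 0 < 4 * (n : ℝ) / |(de j' : ℝ)| := by positivity
    have h2 := mul_lt_mul_of_pos_left hab h1
    change 4 * n / |(de j' : ℝ)| * a - 4 * n / de j' * m <
      4 * n / |(de j' : ℝ)| * b - 4 * n / de j' * m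
    linarith
  refine OrdEq.of_comp _ hG (hnear.mono fun z1 hz1 => ?_)
  have hv : (c (QQ Fl L n j' z1)).2 = ((de j').sign : ℝ) * sf z1 := by
    rw [QQ_torus Fl hn j' z1, hcoe z1]
    have h1 : ((ga j' * (z1.1 / (4 * L j')) + de j' * (z1.2.2 / (4 * n)) : ℝ) :
        AddCircle (1 : ℝ)) = ((sf z1 : ℝ) : AddCircle (1 : ℝ)) := by
      rw [hsf]
      change _ = ((ga j' * (z1.1 / (4 * L j')) + de j' * (z1.2.2 / (4 * n)) + m : ℝ) :
        AddCircle (1 : ℝ))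
      rw [AddCircle.coe_add (1 : ℝ) (ga j' * (z1.1 / (4 * L j')) + de j' * (z1.2.2 / (4 * n))) m]
      have h2 : ((m : ℝ) : AddCircle (1 : ℝ)) = 0 :=
        (AddCircle.coe_eq_zero_iff (1 : ℝ)).2 ⟨m, by rw [zsmul_eq_mul, mul_one]⟩
      rw [h2, add_zero]
    rw [h1]
    refine hval _ _ ?_ hz1.1
    rw [hnorm]
    exact hz1.2
  change MR (H (col j')) z1.1 z1.2.1 z1.2.2 =
    4 * n / |(de j' : ℝ)| * (c (QQ Fl L n j' z1)).2 - 4 * n / de j' * m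
  rw [hv, MR_inner (H (col j')) z1.1 z1.2.2 hz1.2.le]
  have hσj := hσ j'
  have h5 : ((de j').sign : ℝ) / |(de j' : ℝ)| = 1 / de j' := by
    rw [div_eq_div_iff habs.ne' hdeR]
    have h6 : ((de j').sign : ℝ) * (de j' : ℝ) = |(de j' : ℝ)| := by
      rw [← Int.cast_mul, Int.sign_mul_self_eq_abs, Int.cast_abs]
    rw [h6, one_mul]
  have h7 : 4 * (n : ℝ) / |(de j' : ℝ)| * (((de j').sign : ℝ) * sf z1) =
      4 * n * sf z1 * (((de j').sign : ℝ) / |(de j' : ℝ)|) := by ring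
  rw [h7, h5, hsf]
  change z1.2.2 - σ (col j') * z1.1 = 4 * n * (ga j' * (z1.1 / (4 * L j')) +
    de j' * (z1.2.2 / (4 * n)) + m) * (1 / de j') - 4 * n / de j' * m
  have h8 : σ (col j') = -(n * ga j') / (de j' * L j') := by
    rw [eq_div_iff (mul_ne_zero hdeR hLR.ne')]
    exact hσj
  rw [h8]
  field_simp
  ring

end Pool.Agent.H.MP_1611f1_gt
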