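import Pool.Agent.H.MP_1611f1_gt.ChD
import Pool.Agent.H.MP_1611f1_gt.Fib

/-!
Charts of type III in the cores.
-/

namespace Pool.Agent.H.MP_1611f1_gt

open Topology Set Filter

variable {S : Type*} [TopologicalSpace S] {J K : Type*} {E : Surf S J} {col : J → K} {L : J → ℕ}
  {phi : S ≃ₜ S} {al be ga de : J → ℤ} {Y : Type*} [TopologicalSpace Y]
  (Fl : Filling E phi al be ga de Y) {n : ℕ} (A : Arcs E col L) {σ : K → ℝ}
  (H : ∀ k, Hol (σ k)) (C : Chain A n phi)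

/-- two charts of type III -/
theorem compat_core {c c' : OpenPartialHomeomorph Y ((ℝ × ℝ) × ℝ)}
    (hc : IsIII Fl c) (hc' : IsIII Fl c') {j : J} {w : Metric.ball (0 : ℂ) 2 × AddCircle (1 : ℝ)}
    (hy : Fl.q j w ∈ c.source) (hy' : Fl.q j w ∈ c'.source) :
    OrdEq (Fl.q j w) (fun z => (c z).2) (fun z => (c' z).2) := by
  obtain ⟨j1, s1, hs1, hv1⟩ := hc
  obtain ⟨j2, s2, hs2, hv2⟩ := hc'
  rw [hs1] at hy
  rw [hs2] at hy'
  obtain ⟨z1, ⟨hz1, s, hs, hzs⟩, hq1⟩ := hy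
  obtain ⟨z2, ⟨hz2, s', hs', hzs'⟩, hq2⟩ := hy'
  have hj1 : j1 = j := Fl.q_disj _ _ _ _ hq1
  have hj2 : j2 = j := Fl.q_disj _ _ _ _ hq2
  subst hj1
  subst hj2
  have hw1 : z1 = w := (Fl.q_emb _).injective hq1
  have hw2 : z2 = w := (Fl.q_emb _).injective hq2
  subst hw1
  subst hw2
  obtain ⟨m, hm⟩ : ∃ m : ℤ, s' = s + m := by
    have h1 : ((s' - s : ℝ) : AddCircle (1 : ℝ)) = 0 := by
      rw [AddCircle.coe_sub, ← hzs', ← hzs, sub_self]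
    rw [AddCircle.coe_eq_zero_iff] at h1
    obtain ⟨m, hm⟩ := h1
    refine ⟨m, ?_⟩
    rw [zsmul_eq_mul, mul_one] at hm
    linarith
  let R : Metric.ball (0 : ℂ) 2 × ℝ → Y := fun v => Fl.q j2 (v.1, ((v.2 : ℝ) : AddCircle (1 : ℝ)))
  have hR : IsOpenMap R := by
    apply (Fl.q_emb j2).isOpenMap.comp
    exact IsOpenMap.id.prodMap QuotientAddGroup.isOpenMap_coe
  have hzR : R (z2.1, s) = Fl.q j2 z2 := by
    change Fl.q j2 (z2.1, ((s : ℝ) : AddCircle (1 : ℝ))) = Fl.q j2 z2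
    rw [← hzs]
  rw [← hzR]
  apply OrdEq.of_openMap hR
  refine OrdEq.of_comp (fun v => v + ((de j2).sign : ℝ) * m) (fun a b h => by simpa using h) ?_
  have e1 : ∀ᶠ v : Metric.ball (0 : ℂ) 2 × ℝ in 𝓝 (z2.1, s), ‖(v.1 : ℂ)‖ < 4 / 3 := by
    have hc : Continuous (fun v : Metric.ball (0 : ℂ) 2 × ℝ => ‖(v.1 : ℂ)‖) :=
      (continuous_subtype_val.comp continuous_fst).norm
    exact hc.continuousAt.eventually (eventually_lt_nhds hz2)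
  have e2 : ∀ᶠ v : Metric.ball (0 : ℂ) 2 × ℝ in 𝓝 (z2.1, s), v.2 ∈ Ioo s1 (s1 + 1) :=
    continuous_snd.continuousAt.eventually (Ioo_mem_nhds hs.1 hs.2)
  have e3 : ∀ᶠ v : Metric.ball (0 : ℂ) 2 × ℝ in 𝓝 (z2.1, s), v.2 + m ∈ Ioo s2 (s2 + 1) := by
    have hc : Continuous (fun v : Metric.ball (0 : ℂ) 2 × ℝ => v.2 + (m : ℝ)) :=
      continuous_snd.add continuous_const
    rw [hm] at hs'
    exact hc.continuousAt.eventually (Ioo_mem_nhds hs'.1 hs'.2)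
  filter_upwards [e1, e2, e3] with v h1 h2 h3
  change (c' (Fl.q j2 (v.1, ((v.2 : ℝ) : AddCircle (1 : ℝ))))).2 =
    (c (Fl.q j2 (v.1, ((v.2 : ℝ) : AddCircle (1 : ℝ))))).2 + ((de j2).sign : ℝ) * m
  rw [hv1 v.1 v.2 h1 h2]
  have h4 : ((v.2 : ℝ) : AddCircle (1 : ℝ)) = ((v.2 + m : ℝ) : AddCircle (1 : ℝ)) := by
    rw [AddCircle.coe_add]
    have : ((m : ℝ) : AddCircle (1 : ℝ)) = 0 := by
      rw [AddCircle.coe_eq_zero_iff]
      exact ⟨m, by rw [zsmul_eq_mul, mul_one]⟩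
    rw [this, add_zero]
  rw [h4, hv2 v.1 _ h1 h3]
  ring

end Pool.Agent.H.MP_1611f1_gt
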