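import Pool.Agent.H.MP_1611f1_gt.ChE
import Pool.Agent.H.MP_1611f1_gt.ChF
import Pool.Agent.H.MP_1611f1_gt.ChG
import Pool.Agent.H.MP_1611f1_gt.ChC

/-!
The charts cover.
-/

namespace Pool.Agent.H.MP_1611f1_gt

open Topology Set Filter

variable {S : Type*} [TopologicalSpace S] {J K : Type*} {E : Surf S J} {col : J → K} {L : J → ℕ}
  {phi : S ≃ₜ S} {al be ga de : J → ℤ} {Y : Type*} [TopologicalSpace Y]
  (Fl : Filling E phi al be ga de Y) {n : ℕ} (A : Arcs E col L) {σ : K → ℝ}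
  (H : ∀ k, Hol (σ k)) (C : Chain A n phi)

/-- all charts -/
def AllCharts : Set (OpenPartialHomeomorph Y ((ℝ × ℝ) × ℝ)) :=
  {c | IsI Fl A H C c ∨ IsII (L := L) (n := n) (col := col) Fl H c ∨ IsIII Fl c}

include C in
theorem CmpF_phi_col (j : J) (z : AddCircle (1 : ℝ) × Ioo (1 : ℝ) 2) :
    phi (E.collar j z) = E.collar j z := by
  have h1 := C.per 0
  have h2 : (C.ψ (0 + 4 * n)) (E.collar j z) = (C.ψ 0 * phi) (E.collar j z) := by rw [h1]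
  rw [C.col] at h2
  have h3 : (C.ψ 0 * phi) (E.collar j z) = C.ψ 0 (phi (E.collar j z)) := rfl
  rw [h3] at h2
  have h4 : C.ψ 0 (E.collar j z) = C.ψ 0 (phi (E.collar j z)) := by rw [C.col]; exact h2
  exact ((C.ψ 0).injective h4).symm

theorem CmpF_QQ (hn : 0 < n) (hL : ∀ j, 0 < L j) (j : J) (z : ℝ × Ioo (1 : ℝ) 2 × ℝ) :
    ∃ c ∈ AllCharts Fl A H C, QQ Fl L n j z ∈ c.source := by
  obtain ⟨c, h1, h2, -⟩ := exII Fl H hn hL (fun j z => CmpF_phi_col A C j z) j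
    (z.1 - 1 / 2) (z.2.2 - 1 / 2)
  refine ⟨c, Or.inr (Or.inl h1), ?_⟩
  rw [h2]
  refine ⟨z, ⟨⟨by linarith, by linarith⟩, mem_univ _, ⟨by linarith, by linarith⟩⟩, rfl⟩

theorem CmpF_PP [Finite J] [Finite K] (hn : 0 < n) (hL : ∀ j, 0 < L j) (x : S) (t : ℝ) :
    ∃ c ∈ AllCharts Fl A H C, PP Fl n (x, t) ∈ c.source := by
  by_cases hx : x ∈ Out E
  · obtain ⟨ξ, hξ⟩ := E.flat x
    obtain ⟨a, b, hab, hD⟩ := DD_cover A C ⌊t⌋ x
    obtain ⟨c, h1, h2, -⟩ := exI Fl A H C hn ⌊t⌋ a b hab ξ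
    refine ⟨c, Or.inl h1, ?_⟩
    rw [h2]
    have h3 := Int.floor_le t
    have h4 := Int.lt_floor_add_one t
    exact ⟨(x, t), ⟨⟨⟨hξ, hx⟩, hD⟩, ⟨by linarith, by linarith⟩⟩, rfl⟩
  · have hx' : ∃ j w, x = E.collar j w := by
      by_contra hcon
      push Not at hcon
      exact hx fun j w hw => absurd hw (hcon j w)
    obtain ⟨j, w, rfl⟩ := hx'
    obtain ⟨y, hy, -⟩ := exists_QQ Fl (L := L) (n := n) j (hL j) w t
    rw [hy]
    exact CmpF_QQ Fl A H C hn hL j _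

theorem charts_cover [Finite J] [Finite K] (hn : 0 < n) (hL : ∀ j, 0 < L j) (hde : ∀ j, de j ≠ 0)
    (hdet : ∀ j, al j * de j - be j * ga j = 1) (y : Y) :
    ∃ c ∈ AllCharts Fl A H C, y ∈ c.source := by
  rcases Fl.cover y with ⟨⟨x, t⟩, rfl⟩ | ⟨j, ⟨w, h⟩, rfl⟩
  · have hn' : (4 * (n : ℝ)) ≠ 0 := by
      have : (n : ℝ) ≠ 0 := by exact_mod_cast hn.ne'
      positivity
    have h1 : Fl.p (x, t) = PP Fl n (x, 4 * n * t) := by
      rw [PP]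
      congr 2
      field_simp
    rw [h1]
    exact CmpF_PP Fl A H C hn hL x _
  · by_cases hw : ‖(w : ℂ)‖ < 4 / 3
    · obtain ⟨u, hu⟩ := QuotientAddGroup.mk_surjective h
      have hu' : h = ((u : ℝ) : AddCircle (1 : ℝ)) := hu.symm
      obtain ⟨c, h1, h2, -⟩ := exIII Fl hde j (u - 1 / 2)
      refine ⟨c, Or.inr (Or.inr h1), ?_⟩
      rw [h2]
      exact ⟨(w, h), ⟨hw, u, ⟨by linarith, by linarith⟩, hu'⟩, rfl⟩
    · obtain ⟨z, hz, -⟩ := exists_QQ_torus Fl hn hdet j (hL j) w h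
        (by linarith [not_lt.1 hw])
      rw [hz]
      exact CmpF_QQ Fl A H C hn hL j z

end Pool.Agent.H.MP_1611f1_gt
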