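import Pool.Agent.H.MP_1611f1_gt.ChC

/-!
Trichotomy.
-/

namespace Pool.Agent.H.MP_1611f1_gt

open Topology Set Filter

variable {S : Type*} [TopologicalSpace S] {J K : Type*} {E : Surf S J} {col : J → K} {L : J → ℕ}
  {phi : S ≃ₜ S} {al be ga de : J → ℤ} {Y : Type*} [TopologicalSpace Y]
  (Fl : Filling E phi al be ga de Y) {n : ℕ}

/-- every point of `Y` is over the outer part outside the collars, or over a collar, or in the
core of a solid torus -/
theorem trichotomy (hn : 0 < n) (hL : ∀ j, 0 < L j)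
    (hdet : ∀ j, al j * de j - be j * ga j = 1) (y : Y) :
    (∃ x t, y = PP Fl n (x, t) ∧ ∀ j w, x ≠ E.collar j w) ∨
    (∃ j z, y = QQ Fl L n j z) ∨
    (∃ j w h, y = Fl.q j (w, h) ∧ ‖(w : ℂ)‖ ≤ 1) := by
  rcases Fl.cover y with ⟨⟨x, t⟩, hz⟩ | ⟨j, ⟨w, h⟩, hz⟩
  · have hn' : (n : ℝ) ≠ 0 := by
      have : (0 : ℝ) < n := by exact_mod_cast hn
      exact this.ne'
    have h1 : y = PP Fl n (x, 4 * n * t) := by
      rw [← hz]
      unfold PP
      congr 2
      field_simp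
    by_cases hx : ∃ j w, x = E.collar j w
    · obtain ⟨j, w, rfl⟩ := hx
      obtain ⟨v, hv, -⟩ := exists_QQ Fl (L := L) (n := n) j (hL j) w (4 * n * t)
      exact Or.inr (Or.inl ⟨j, _, h1.trans hv⟩)
    · push Not at hx
      exact Or.inl ⟨x, _, h1, hx⟩
  · by_cases hw : ‖(w : ℂ)‖ ≤ 1
    · exact Or.inr (Or.inr ⟨j, w, h, hz.symm, hw⟩)
    · obtain ⟨z, hz', -⟩ := exists_QQ_torus Fl hn hdet j (hL j) w h (not_le.1 hw)
      exact Or.inr (Or.inl ⟨j, z, hz.symm.trans hz'⟩)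

end Pool.Agent.H.MP_1611f1_gt
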