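import Pool.Agent.H.MP_1611f1_gt.CmpA
import Pool.Agent.H.MP_1611f1_gt.CmpB
import Pool.Agent.H.MP_1611f1_gt.CmpC
import Pool.Agent.H.MP_1611f1_gt.CmpD
import Pool.Agent.H.MP_1611f1_gt.CmpE
import Pool.Agent.H.MP_1611f1_gt.CmpF
import Pool.Agent.H.MP_1611f1_gt.CmpG

/-!
Compatibility, the foliation.
-/

namespace Pool.Agent.H.MP_1611f1_gt

open Topology Set Filter

variable {S : Type*} [TopologicalSpace S] {J K : Type*} {E : Surf S J} {col : J → K} {L : J → ℕ}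
  {phi : S ≃ₜ S} {al be ga de : J → ℤ} {Y : Type*} [TopologicalSpace Y]
  (Fl : Filling E phi al be ga de Y) {n : ℕ} (A : Arcs E col L) {σ : K → ℝ}
  (H : ∀ k, Hol (σ k)) (C : Chain A n phi)

theorem CmpH_norm_polar (r : Ioo (1 : ℝ) 2) (ψ : AddCircle (1 : ℝ)) :
    ‖((polar r ψ : Metric.ball (0 : ℂ) 2) : ℂ)‖ = r := by
  have h1 := r.2.1
  rw [polar, norm_mul, Circle.norm_coe, mul_one, Complex.norm_real,
      Real.norm_of_nonneg (by linarith)]

/-- no point of the mapping torus is in the core -/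
theorem CmpH_core (j : J) (w : Metric.ball (0 : ℂ) 2)
    (h : AddCircle (1 : ℝ)) (hw : ‖(w : ℂ)‖ ≤ 1) (x : S) (t : ℝ) :
    PP Fl n (x, t) ≠ Fl.q j (w, h) := by
  intro he
  obtain ⟨⟨θ, r⟩, hw'⟩ := Fl.overlap x (t / (4 * n)) j (w, h) he
  subst hw'
  have h1 : Fl.p (E.collar j (θ, r), t / (4 * n)) = Fl.q j (w, h) := he
  rw [Fl.glue] at h1
  have h2 := (Fl.q_emb j).injective h1
  have h3 : polar r (al j • θ + ((be j * (t / (4 * n)) : ℝ) : AddCircle (1 : ℝ))) = w :=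
    (Prod.mk.inj h2).1
  have h4 := CmpH_norm_polar r (al j • θ + ((be j * (t / (4 * n)) : ℝ) : AddCircle (1 : ℝ)))
  rw [h3] at h4
  have h5 := r.2.1
  linarith

theorem CmpH_srcI {c : OpenPartialHomeomorph Y ((ℝ × ℝ) × ℝ)} (hc : IsI Fl A H C c) {y : Y}
    (hy : y ∈ c.source) : ∃ x t, y = PP Fl n (x, t) := by
  obtain ⟨i, a, b, ξ, -, hs, -⟩ := hc
  rw [hs] at hy
  obtain ⟨z, -, hz⟩ := hy
  exact ⟨z.1, z.2, hz.symm⟩

theorem CmpH_srcII {c : OpenPartialHomeomorph Y ((ℝ × ℝ) × ℝ)}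
    (hc : IsII (L := L) (n := n) (col := col) Fl H c) {y : Y}
    (hy : y ∈ c.source) : ∃ j w t, y = PP Fl n (E.collar j w, t) := by
  obtain ⟨j, y₀, t₀, hs, -⟩ := hc
  rw [hs] at hy
  obtain ⟨z, -, hz⟩ := hy
  exact ⟨j, _, z.2.2, hz.symm⟩

theorem CmpH_srcIII {c : OpenPartialHomeomorph Y ((ℝ × ℝ) × ℝ)}
    (hc : IsIII Fl c) {y : Y}
    (hy : y ∈ c.source) : ∃ j z, y = Fl.q j z := by
  obtain ⟨j, s₀, hs, -⟩ := hc
  rw [hs] at hy
  obtain ⟨z, -, hz⟩ := hy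
  exact ⟨j, z, hz.symm⟩

include C in
/-- over the points outside the collars there are only charts of type I -/
theorem CmpH_onlyI (hn : 0 < n) {c : OpenPartialHomeomorph Y ((ℝ × ℝ) × ℝ)}
    (hc : c ∈ AllCharts Fl A H C) {x : S} {t : ℝ} (hx : ∀ j w, x ≠ E.collar j w)
    (hy : PP Fl n (x, t) ∈ c.source) : IsI Fl A H C c := by
  rcases hc with hc | hc | hc
  · exact hc
  · obtain ⟨j, w, t', h⟩ := CmpH_srcII Fl H hc hy
    obtain ⟨k, -, hk⟩ := (PP_eq Fl hn _ _ _ _).1 h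
    rw [C.phi_zpow_col] at hk
    exact absurd hk (hx _ _)
  · obtain ⟨j, z, h⟩ := CmpH_srcIII Fl hc hy
    obtain ⟨w, hw⟩ := Fl.overlap x (t / (4 * n)) j z h
    exact absurd hw (hx _ _)

theorem charts_compat [Finite J] [Finite K] (hn : 0 < n) (hL : ∀ j, 0 < L j) (hde : ∀ j, de j ≠ 0)
    (hdet : ∀ j, al j * de j - be j * ga j = 1)
    (hσ : ∀ j, σ (col j) * (de j * L j) = -(n * ga j)) (c) (hc : c ∈ AllCharts Fl A H C) (c')
    (hc' : c' ∈ AllCharts Fl A H C) (y : Y) (hy : y ∈ c.source) (hy' : y ∈ c'.source) :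
    OrdEq y (fun z => (c z).2) (fun z => (c' z).2) := by
  rcases trichotomy Fl hn hL hdet y with ⟨x, t, rfl, hx⟩ | ⟨j, z, rfl⟩ | ⟨j, w, h, rfl, hw⟩
  · exact compat_outer Fl A H C hn (CmpH_onlyI Fl A H C hn hc hx hy)
      (CmpH_onlyI Fl A H C hn hc' hx hy') hy hy'
  · have key : ∀ c ∈ AllCharts Fl A H C, QQ Fl L n j z ∈ c.source →
        OrdEq z (fun z => (c (QQ Fl L n j z)).2) (fun z => MR (H (col j)) z.1 z.2.1 z.2.2) := by
      intro c hc hy
      rcases hc with hc | hc | hc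
      · exact collar_I Fl A H C hn hL hc j hy
      · exact collar_II Fl H hn hL C.phi_col hc j hy
      · exact (collar_III Fl H hn hL hde hσ hc j hy).2
    exact OrdEq.of_openMap (QQ_open Fl hn j (hL j)) ((key c hc hy).trans (key c' hc' hy').symm)
  · have key : ∀ c ∈ AllCharts Fl A H C, Fl.q j (w, h) ∈ c.source → IsIII Fl c := by
      intro c hc hy
      rcases hc with hc | hc | hc
      · obtain ⟨x, t, h'⟩ := CmpH_srcI Fl A H C hc hy
        exact absurd h'.symm (CmpH_core Fl j w h hw x t)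
      · obtain ⟨j', w', t, h'⟩ := CmpH_srcII Fl H hc hy
        exact absurd h'.symm (CmpH_core Fl j w h hw _ t)
      · exact hc
    exact compat_core Fl (key c hc hy) (key c' hc' hy') hy hy'

/-- the foliation -/
theorem exists_foliation [Finite J] [Finite K] (hn : 0 < n) (hL : ∀ j, 0 < L j) (hde : ∀ j, de j ≠ 0)
    (hdet : ∀ j, al j * de j - be j * ga j = 1)
    (hσ : ∀ j, σ (col j) * (de j * L j) = -(n * ga j)) :
    ∃ F : Foliation Y, F.charts = AllCharts Fl A H C :=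
  ⟨{ charts := AllCharts Fl A H C
     cover := charts_cover Fl A H C hn hL hde hdet
     compat := fun c hc c' hc' y hy hy' =>
      charts_compat Fl A H C hn hL hde hdet hσ c hc c' hc' y hy hy' }, rfl⟩

end Pool.Agent.H.MP_1611f1_gt
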