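import Mathlib

/-!
The cut-off function and the blending.
-/

namespace Pool.Agent.H.MP_1611f1_gt

open Topology Set Filter

/-- the cut-off function -/
noncomputable def chi (u : ℝ) : ℝ := max 0 (min 1 (2 * u - 1 / 2))

theorem chi_cont : Continuous chi := by
  unfold chi; fun_prop

theorem chi_nonneg (u : ℝ) : 0 ≤ chi u := le_max_left _ _

theorem chi_le_one (u : ℝ) : chi u ≤ 1 := max_le zero_le_one (min_le_left _ _)

theorem chi_zero {u : ℝ} (h : u ≤ 1 / 4) : chi u = 0 := by
  unfold chi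
  exact max_eq_left ((min_le_right _ _).trans (by linarith))

theorem chi_one {u : ℝ} (h : 3 / 4 ≤ u) : chi u = 1 := by
  unfold chi
  rw [min_eq_left (by linarith), max_eq_right zero_le_one]

/-- blending from the identity to the inverse of `A` -/
noncomputable def Fe (A : ℝ ≃o ℝ) (u t : ℝ) : ℝ := (1 - chi u) * t + chi u * A.symm t

theorem Fe_cont (A : ℝ ≃o ℝ) : Continuous fun z : ℝ × ℝ => Fe A z.1 z.2 := by
  have h1 : Continuous fun z : ℝ × ℝ => chi z.1 := chi_cont.comp continuous_fst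
  have h2 : Continuous fun z : ℝ × ℝ => A.symm z.2 := A.symm.continuous.comp continuous_snd
  unfold Fe
  exact ((continuous_const.sub h1).mul continuous_snd).add (h1.mul h2)

theorem Fe_mono (A : ℝ ≃o ℝ) (u : ℝ) : StrictMono (Fe A u) := by
  intro s t hst
  have h1 : A.symm s < A.symm t := A.symm.strictMono hst
  have h2 := chi_nonneg u
  have h3 := chi_le_one u
  unfold Fe
  rcases h2.lt_or_eq with h | h
  · have h4 : chi u * A.symm s < chi u * A.symm t := mul_lt_mul_of_pos_left h1 h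
    have h5 : (1 - chi u) * s ≤ (1 - chi u) * t :=
      mul_le_mul_of_nonneg_left hst.le (by linarith)
    linarith
  · rw [← h]; linarith

theorem Fe_four (A : ℝ ≃o ℝ) (hA : ∀ t, A (t + 4) = A t + 4) (u t : ℝ) :
    Fe A u (t + 4) = Fe A u t + 4 := by
  have h1 : A.symm (t + 4) = A.symm t + 4 := by
    rw [OrderIso.symm_apply_eq, hA, OrderIso.apply_symm_apply]
  unfold Fe
  rw [h1]; ring

theorem Fe_fix (A : ℝ ≃o ℝ) {t : ℝ} (hA : A t = t) (u : ℝ) : Fe A u t = t := by
  have h1 : A.symm t = t := by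
    rw [OrderIso.symm_apply_eq, hA]
  unfold Fe
  rw [h1]; ring

theorem Fe_small (A : ℝ ≃o ℝ) {u : ℝ} (hu : u ≤ 1 / 4) (t : ℝ) : Fe A u t = t := by
  rw [Fe, chi_zero hu]; ring

theorem Fe_large (A : ℝ ≃o ℝ) {u : ℝ} (hu : 3 / 4 ≤ u) (t : ℝ) : Fe A u t = A.symm t := by
  rw [Fe, chi_one hu]; ring

end Pool.Agent.H.MP_1611f1_gt
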