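import Pool.Agent.H.MP_1611f1_gt.Hol
import Pool.Agent.H.MP_1611f1_gt.TypB

/-!
The transverse function on the collars.
-/

namespace Pool.Agent.H.MP_1611f1_gt

open Topology Set Filter

variable {σ : ℝ} (H : Hol σ)

/-- the function on `[0,4]` -/
noncomputable def M4 (v t : ℝ) : ℝ :=
  if v ≤ 1 then H.th (Fe H.A v t)
  else if v ≤ 2 then H.th (H.A.symm (Fe H.B (v - 1) t))
  else if v ≤ 3 then H.th (H.A.symm (H.B.symm (H.A (Fe H.A (3 - v) t))))
  else H.th (H.A.symm (H.B.symm (H.A (H.B (Fe H.B (4 - v) t)))))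

/-- the transverse function on the collar -/
noncomputable def MM (y t : ℝ) : ℝ := M4 H (y - 4 * ⌊y / 4⌋) t - 4 * σ * ⌊y / 4⌋

theorem M4_cont : Continuous fun z : ℝ × ℝ => M4 H z.1 z.2 := by
  have hA : Continuous H.A := H.A.continuous
  have hA' : Continuous H.A.symm := H.A.symm.continuous
  have hB : Continuous H.B := H.B.continuous
  have hB' : Continuous H.B.symm := H.B.symm.continuous
  have c1 : Continuous fun z : ℝ × ℝ => H.th (Fe H.A z.1 z.2) := H.cont.comp (Fe_cont H.A)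
  have c2 : Continuous fun z : ℝ × ℝ => H.th (H.A.symm (Fe H.B (z.1 - 1) z.2)) :=
    H.cont.comp (hA'.comp ((Fe_cont H.B).comp
      ((continuous_fst.sub continuous_const).prodMk continuous_snd)))
  have c3 : Continuous fun z : ℝ × ℝ =>
      H.th (H.A.symm (H.B.symm (H.A (Fe H.A (3 - z.1) z.2)))) :=
    H.cont.comp (hA'.comp (hB'.comp (hA.comp ((Fe_cont H.A).comp
      ((continuous_const.sub continuous_fst).prodMk continuous_snd)))))
  have c4 : Continuous fun z : ℝ × ℝ =>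
      H.th (H.A.symm (H.B.symm (H.A (H.B (Fe H.B (4 - z.1) z.2))))) :=
    H.cont.comp (hA'.comp (hB'.comp (hA.comp (hB.comp ((Fe_cont H.B).comp
      ((continuous_const.sub continuous_fst).prodMk continuous_snd))))))
  have h3 : Continuous fun z : ℝ × ℝ =>
      if z.1 ≤ 3 then H.th (H.A.symm (H.B.symm (H.A (Fe H.A (3 - z.1) z.2))))
      else H.th (H.A.symm (H.B.symm (H.A (H.B (Fe H.B (4 - z.1) z.2))))) := by
    refine Continuous.if_le c3 c4 continuous_fst continuous_const fun z hz => ?_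
    rw [hz, Fe_small H.A (by norm_num), Fe_large H.B (by norm_num), OrderIso.apply_symm_apply]
  have h2 : Continuous fun z : ℝ × ℝ =>
      if z.1 ≤ 2 then H.th (H.A.symm (Fe H.B (z.1 - 1) z.2))
      else if z.1 ≤ 3 then H.th (H.A.symm (H.B.symm (H.A (Fe H.A (3 - z.1) z.2))))
      else H.th (H.A.symm (H.B.symm (H.A (H.B (Fe H.B (4 - z.1) z.2))))) := by
    refine Continuous.if_le c2 h3 continuous_fst continuous_const fun z hz => ?_
    rw [hz, if_pos (by norm_num), Fe_large H.B (by norm_num), Fe_large H.A (by norm_num),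
      OrderIso.apply_symm_apply]
  refine Continuous.if_le c1 h2 continuous_fst continuous_const fun z hz => ?_
  rw [hz, if_pos (by norm_num), Fe_large H.A (by norm_num), Fe_small H.B (by norm_num)]

theorem M4_four (t : ℝ) : M4 H 4 t = M4 H 0 t - 4 * σ := by
  have h1 : M4 H 4 t = H.th (H.A.symm (H.B.symm (H.A (H.B t)))) := by
    unfold M4
    rw [if_neg (by norm_num), if_neg (by norm_num), if_neg (by norm_num),
      Fe_small H.B (by norm_num)]
  have h2 : M4 H 0 t = H.th t := by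
    unfold M4
    rw [if_pos (by norm_num), Fe_small H.A (by norm_num)]
  have h3 := H.rot (H.A.symm (H.B.symm (H.A (H.B t))))
  rw [OrderIso.apply_symm_apply, OrderIso.apply_symm_apply, OrderIso.symm_apply_apply,
    OrderIso.symm_apply_apply] at h3
  rw [h1, h2, h3]
  ring

theorem M4_mono (v : ℝ) : StrictMono (M4 H v) := by
  have hA := H.A.strictMono
  have hA' := H.A.symm.strictMono
  have hB := H.B.strictMono
  have hB' := H.B.symm.strictMono
  intro a b hab
  unfold M4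
  split_ifs
  · exact H.mono (Fe_mono _ _ hab)
  · exact H.mono (hA' (Fe_mono _ _ hab))
  · exact H.mono (hA' (hB' (hA (Fe_mono _ _ hab))))
  · exact H.mono (hA' (hB' (hA (hB (Fe_mono _ _ hab)))))

theorem ColA_symm (A : ℝ ≃o ℝ) (hA : ∀ t, A (t + 4) = A t + 4) (t : ℝ) :
    A.symm (t + 4) = A.symm t + 4 := by
  apply A.injective
  rw [OrderIso.apply_symm_apply, hA, OrderIso.apply_symm_apply]

theorem M4_add (v t : ℝ) : M4 H v (t + 4) = M4 H v t + 4 := by
  have hA' := ColA_symm H.A H.A4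
  have hB' := ColA_symm H.B H.B4
  unfold M4
  split_ifs
  · rw [Fe_four _ H.A4, H.th4]
  · rw [Fe_four _ H.B4, hA', H.th4]
  · rw [Fe_four _ H.A4, H.A4, hB', hA', H.th4]
  · rw [Fe_four _ H.B4, H.B4, H.A4, hB', hA', H.th4]

theorem MM_cont : Continuous fun z : ℝ × ℝ => MM H z.1 z.2 := by
  have h1 : Continuous fun z : ℝ × ℝ => (fun (z : ℝ × ℝ) (v : ℝ) =>
      M4 H (4 * v) z.2 + 4 * σ * v) z (Int.fract (z.1 / 4)) := by
    have hs : Continuous fun z : ℝ × ℝ => z.1 / 4 := continuous_fst.div_const 4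
    refine ContinuousOn.comp_fract (f := fun (z : ℝ × ℝ) (v : ℝ) =>
      M4 H (4 * v) z.2 + 4 * σ * v) ?_ hs fun z => ?_
    · refine Continuous.continuousOn ?_
      have h2 : Continuous fun p : (ℝ × ℝ) × ℝ => M4 H (4 * p.2) p.1.2 :=
        (M4_cont H).comp ((continuous_const.mul continuous_snd).prodMk
          (continuous_snd.comp continuous_fst))
      exact h2.add (continuous_const.mul continuous_snd)
    · show M4 H (4 * 0) z.2 + 4 * σ * 0 = M4 H (4 * 1) z.2 + 4 * σ * 1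
      rw [mul_zero, mul_one, M4_four]
      ring
  have h3 : (fun z : ℝ × ℝ => MM H z.1 z.2) = fun z : ℝ × ℝ => (fun (z : ℝ × ℝ) (v : ℝ) =>
      M4 H (4 * v) z.2 + 4 * σ * v) z (Int.fract (z.1 / 4)) - σ * z.1 := by
    funext z
    show M4 H (z.1 - 4 * ⌊z.1 / 4⌋) z.2 - 4 * σ * ⌊z.1 / 4⌋ =
      M4 H (4 * Int.fract (z.1 / 4)) z.2 + 4 * σ * Int.fract (z.1 / 4) - σ * z.1
    have h4 : 4 * Int.fract (z.1 / 4) = z.1 - 4 * ⌊z.1 / 4⌋ := by
      rw [Int.fract]
      ring
    rw [h4]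
    have h5 : Int.fract (z.1 / 4) = (z.1 - 4 * ⌊z.1 / 4⌋) / 4 := by linarith
    rw [h5]
    ring
  rw [h3]
  exact h1.sub (continuous_const.mul continuous_fst)

theorem MM_mono (y : ℝ) : StrictMono (MM H y) := by
  intro a b hab
  have h1 := M4_mono H (y - 4 * ⌊y / 4⌋) hab
  show M4 H (y - 4 * ⌊y / 4⌋) a - 4 * σ * ⌊y / 4⌋ < M4 H (y - 4 * ⌊y / 4⌋) b - 4 * σ * ⌊y / 4⌋
  linarith

theorem MM_y (y t : ℝ) (k : ℤ) : MM H (y + 4 * k) t = MM H y t - 4 * σ * k := by
  have h1 : (y + 4 * k) / 4 = y / 4 + k := by ring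
  have h2 : ⌊(y + 4 * k) / 4⌋ = ⌊y / 4⌋ + k := by rw [h1, Int.floor_add_intCast]
  unfold MM
  rw [h2, Int.cast_add]
  have h3 : y + 4 * (k : ℝ) - 4 * ((⌊y / 4⌋ : ℝ) + k) = y - 4 * ⌊y / 4⌋ := by ring
  rw [h3]
  ring

theorem ColA_M4_int (v t : ℝ) (k : ℤ) : M4 H v (t + 4 * k) = M4 H v t + 4 * k := by
  induction k using Int.induction_on with
  | zero => rw [Int.cast_zero, mul_zero, add_zero, add_zero]
  | succ n ih =>
    have h1 : t + 4 * (((n : ℤ) + 1 : ℤ) : ℝ) = t + 4 * ((n : ℤ) : ℝ) + 4 := by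
      rw [Int.cast_add, Int.cast_one]
      ring
    rw [h1, M4_add, ih, Int.cast_add, Int.cast_one]
    ring
  | pred n ih =>
    have h1 : t + 4 * ((-(n : ℤ) : ℤ) : ℝ) = t + 4 * ((-(n : ℤ) - 1 : ℤ) : ℝ) + 4 := by
      rw [Int.cast_sub, Int.cast_one]
      ring
    rw [h1, M4_add] at ih
    rw [Int.cast_sub, Int.cast_one]
    rw [Int.cast_sub, Int.cast_one] at ih
    linarith

theorem MM_t (y t : ℝ) (k : ℤ) : MM H y (t + 4 * k) = MM H y t + 4 * k := by
  unfold MM
  rw [ColA_M4_int]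
  ring

end Pool.Agent.H.MP_1611f1_gt
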