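import Pool.Agent.H.MP_1611f1_gt.ColA

/-!
The letters.
-/

namespace Pool.Agent.H.MP_1611f1_gt

open Topology Set Filter

variable {σ : ℝ} (H : Hol σ)

theorem ColB_MM (v t : ℝ) (h0 : 0 ≤ v) (h4 : v ≤ 4) : MM H v t = M4 H v t := by
  rcases h4.lt_or_eq with h | h
  · have hf : ⌊v / 4⌋ = 0 := by
      rw [Int.floor_eq_iff, Int.cast_zero]
      constructor
      · positivity
      · linarith
    unfold MM
    rw [hf, Int.cast_zero, mul_zero, mul_zero, sub_zero, sub_zero]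
  · subst h
    have hf : ⌊(4 : ℝ) / 4⌋ = 1 := by
      rw [div_self (by norm_num), Int.floor_one]
    unfold MM
    rw [hf, Int.cast_one, mul_one, mul_one, sub_self, M4_four]

theorem ColB_eval (k c : ℤ) (hk : k % 4 = c) (u t : ℝ) (h0 : 0 ≤ (c : ℝ) + u)
    (h4 : (c : ℝ) + u ≤ 4) :
    MM H (k + u) t = M4 H (c + u) t - 4 * σ * ((k / 4 : ℤ) : ℝ) := by
  have h1 : k = c + 4 * (k / 4) := by omega
  have h2 : (k : ℝ) = (c : ℝ) + 4 * ((k / 4 : ℤ) : ℝ) := by exact_mod_cast h1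
  have h3 : (k : ℝ) + u = ((c : ℝ) + u) + 4 * ((k / 4 : ℤ) : ℝ) := by
    rw [h2]
    have h5 : ((((c : ℝ) + 4 * ((k / 4 : ℤ) : ℝ))) + u) = ((c : ℝ) + u) + 4 * ((k / 4 : ℤ) : ℝ) := by
      ring
    exact h5
  rw [h3, MM_y, ColB_MM H _ t h0 h4]

/-- the value of `MM` inside the interval `[k, k+1]` (letter `A`) -/
theorem MM_letter0 (k : ℤ) (hk : k % 4 = 0) : ∃ G : ℝ → ℝ, StrictMono G ∧
    ∀ u ∈ Icc (0 : ℝ) 1, ∀ t, MM H (k + u) t = G (Fe H.A u t) := by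
  refine ⟨fun v => H.th v - 4 * σ * ((k / 4 : ℤ) : ℝ), fun a b hab => ?_, fun u hu t => ?_⟩
  · have := H.mono hab
    show H.th a - 4 * σ * ((k / 4 : ℤ) : ℝ) < H.th b - 4 * σ * ((k / 4 : ℤ) : ℝ)
    linarith
  · have h0 : (((0 : ℤ) : ℝ)) = 0 := Int.cast_zero
    rw [ColB_eval H k 0 hk u t (by rw [h0]; linarith [hu.1]) (by rw [h0]; linarith [hu.2]), h0,
      zero_add]
    unfold M4
    rw [if_pos hu.2]

/-- letter `B` -/
theorem MM_letter1 (k : ℤ) (hk : k % 4 = 1) : ∃ G : ℝ → ℝ, StrictMono G ∧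
    ∀ u ∈ Icc (0 : ℝ) 1, ∀ t, MM H (k + u) t = G (Fe H.B u t) := by
  refine ⟨fun v => H.th (H.A.symm v) - 4 * σ * ((k / 4 : ℤ) : ℝ), fun a b hab => ?_,
    fun u hu t => ?_⟩
  · have := H.mono (H.A.symm.strictMono hab)
    show H.th (H.A.symm a) - 4 * σ * ((k / 4 : ℤ) : ℝ) <
      H.th (H.A.symm b) - 4 * σ * ((k / 4 : ℤ) : ℝ)
    linarith
  · have h0 : (((1 : ℤ) : ℝ)) = 1 := Int.cast_one
    rw [ColB_eval H k 1 hk u t (by rw [h0]; linarith [hu.1]) (by rw [h0]; linarith [hu.2]), h0]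
    unfold M4
    rcases hu.1.lt_or_eq with h | h
    · rw [if_neg (by linarith), if_pos (by linarith [hu.2])]
      have h5 : (1 : ℝ) + u - 1 = u := by ring
      rw [h5]
    · rw [← h, if_pos (by norm_num), Fe_large H.A (by norm_num), Fe_small H.B (by norm_num)]

/-- letter `A⁻¹` -/
theorem MM_letter2 (k : ℤ) (hk : k % 4 = 2) : ∃ G : ℝ → ℝ, StrictMono G ∧
    ∀ u ∈ Icc (0 : ℝ) 1, ∀ t, MM H (k + u) t = G (Fe H.A (1 - u) t) := by
  refine ⟨fun v => H.th (H.A.symm (H.B.symm (H.A v))) - 4 * σ * ((k / 4 : ℤ) : ℝ),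
    fun a b hab => ?_, fun u hu t => ?_⟩
  · have := H.mono (H.A.symm.strictMono (H.B.symm.strictMono (H.A.strictMono hab)))
    show H.th (H.A.symm (H.B.symm (H.A a))) - 4 * σ * ((k / 4 : ℤ) : ℝ) <
      H.th (H.A.symm (H.B.symm (H.A b))) - 4 * σ * ((k / 4 : ℤ) : ℝ)
    linarith
  · have h0 : (((2 : ℤ) : ℝ)) = 2 := by norm_num
    rw [ColB_eval H k 2 hk u t (by rw [h0]; linarith [hu.1]) (by rw [h0]; linarith [hu.2]), h0]
    unfold M4
    rcases hu.1.lt_or_eq with h | h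
    · rw [if_neg (by linarith), if_neg (by linarith), if_pos (by linarith [hu.2])]
      have h5 : (3 : ℝ) - (2 + u) = 1 - u := by ring
      rw [h5]
    · rw [← h, if_neg (by norm_num), if_pos (by norm_num), Fe_large H.B (by norm_num),
        Fe_large H.A (by norm_num)]
      show H.th (H.A.symm (H.B.symm t)) - 4 * σ * ((k / 4 : ℤ) : ℝ) =
        H.th (H.A.symm (H.B.symm (H.A (H.A.symm t)))) - 4 * σ * ((k / 4 : ℤ) : ℝ)
      rw [OrderIso.apply_symm_apply]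

/-- letter `B⁻¹` -/
theorem MM_letter3 (k : ℤ) (hk : k % 4 = 3) : ∃ G : ℝ → ℝ, StrictMono G ∧
    ∀ u ∈ Icc (0 : ℝ) 1, ∀ t, MM H (k + u) t = G (Fe H.B (1 - u) t) := by
  refine ⟨fun v => H.th (H.A.symm (H.B.symm (H.A (H.B v)))) - 4 * σ * ((k / 4 : ℤ) : ℝ),
    fun a b hab => ?_, fun u hu t => ?_⟩
  · have := H.mono (H.A.symm.strictMono (H.B.symm.strictMono (H.A.strictMono
      (H.B.strictMono hab))))
    show H.th (H.A.symm (H.B.symm (H.A (H.B a)))) - 4 * σ * ((k / 4 : ℤ) : ℝ) <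
      H.th (H.A.symm (H.B.symm (H.A (H.B b)))) - 4 * σ * ((k / 4 : ℤ) : ℝ)
    linarith
  · have h0 : (((3 : ℤ) : ℝ)) = 3 := by norm_num
    rw [ColB_eval H k 3 hk u t (by rw [h0]; linarith [hu.1]) (by rw [h0]; linarith [hu.2]), h0]
    unfold M4
    rcases hu.1.lt_or_eq with h | h
    · rw [if_neg (by linarith), if_neg (by linarith), if_neg (by linarith)]
      have h5 : (4 : ℝ) - (3 + u) = 1 - u := by ring
      rw [h5]
    · rw [← h, if_neg (by norm_num), if_neg (by norm_num), if_pos (by norm_num),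
        Fe_small H.A (by norm_num), Fe_large H.B (by norm_num)]
      show H.th (H.A.symm (H.B.symm (H.A t))) - 4 * σ * ((k / 4 : ℤ) : ℝ) =
        H.th (H.A.symm (H.B.symm (H.A (H.B (H.B.symm t))))) - 4 * σ * ((k / 4 : ℤ) : ℝ)
      rw [OrderIso.apply_symm_apply]

theorem ColB_any (k : ℤ) (t : ℝ) :
    (∀ s ∈ Icc (0 : ℝ) (1 / 4), MM H (k + s) t = MM H (k + 0) t) ∧
      (∀ s ∈ Icc (3 / 4 : ℝ) 1, MM H (k + s) t = MM H (k + 1) t) := by
  have hk : k % 4 = 0 ∨ k % 4 = 1 ∨ k % 4 = 2 ∨ k % 4 = 3 := by omega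
  have m0 : (0 : ℝ) ∈ Icc (0 : ℝ) 1 := ⟨le_refl _, zero_le_one⟩
  have m1 : (1 : ℝ) ∈ Icc (0 : ℝ) 1 := ⟨zero_le_one, le_refl _⟩
  have key1 : ∀ (A : ℝ ≃o ℝ) (G : ℝ → ℝ),
      (∀ u ∈ Icc (0 : ℝ) 1, ∀ t, MM H (k + u) t = G (Fe A u t)) →
      (∀ s ∈ Icc (0 : ℝ) (1 / 4), MM H (k + s) t = MM H (k + 0) t) ∧
      (∀ s ∈ Icc (3 / 4 : ℝ) 1, MM H (k + s) t = MM H (k + 1) t) := by
    intro A G hG
    refine ⟨fun s hs => ?_, fun s hs => ?_⟩
    · rw [hG s ⟨hs.1, by linarith [hs.2]⟩ t, hG 0 m0 t, Fe_small A hs.2,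
        Fe_small A (by norm_num)]
    · rw [hG s ⟨by linarith [hs.1], hs.2⟩ t, hG 1 m1 t, Fe_large A hs.1,
        Fe_large A (by norm_num)]
  have key2 : ∀ (A : ℝ ≃o ℝ) (G : ℝ → ℝ),
      (∀ u ∈ Icc (0 : ℝ) 1, ∀ t, MM H (k + u) t = G (Fe A (1 - u) t)) →
      (∀ s ∈ Icc (0 : ℝ) (1 / 4), MM H (k + s) t = MM H (k + 0) t) ∧
      (∀ s ∈ Icc (3 / 4 : ℝ) 1, MM H (k + s) t = MM H (k + 1) t) := by
    intro A G hG
    refine ⟨fun s hs => ?_, fun s hs => ?_⟩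
    · rw [hG s ⟨hs.1, by linarith [hs.2]⟩ t, hG 0 m0 t, Fe_large A (by linarith [hs.2]),
        Fe_large A (by norm_num)]
    · rw [hG s ⟨by linarith [hs.1], hs.2⟩ t, hG 1 m1 t, Fe_small A (by linarith [hs.1]),
        Fe_small A (by norm_num)]
  rcases hk with h | h | h | h
  · obtain ⟨G, -, hG⟩ := MM_letter0 H k h
    exact key1 H.A G hG
  · obtain ⟨G, -, hG⟩ := MM_letter1 H k h
    exact key1 H.B G hG
  · obtain ⟨G, -, hG⟩ := MM_letter2 H k h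
    exact key2 H.A G hG
  · obtain ⟨G, -, hG⟩ := MM_letter3 H k h
    exact key2 H.B G hG

/-- near the ends of the intervals `[k, k+1]` the function `MM` does not depend on `y` -/
theorem MM_near (k : ℤ) (y t : ℝ) (hy : |y - k| ≤ 1 / 4) : MM H y t = MM H k t := by
  rw [abs_le] at hy
  rcases le_or_gt 0 (y - k) with h | h
  · have h1 := (ColB_any H k t).1 (y - k) ⟨h, hy.2⟩
    have h2 : (k : ℝ) + (y - k) = y := by ring
    rw [h2, add_zero] at h1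
    exact h1
  · have h1 := (ColB_any H (k - 1) t).2 (y - k + 1) ⟨by linarith [hy.1], by linarith⟩
    have h2 : (((k - 1 : ℤ) : ℝ)) + (y - k + 1) = y := by
      rw [Int.cast_sub, Int.cast_one]
      ring
    have h3 : (((k - 1 : ℤ) : ℝ)) + 1 = k := by
      rw [Int.cast_sub, Int.cast_one]
      ring
    rw [h2, h3] at h1
    exact h1

end Pool.Agent.H.MP_1611f1_gt
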