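import Pool.Agent.H.MP_1611f1_gt.Defs

/-!
Surfaces: local path connectedness and a retraction.
-/

namespace Pool.Agent.H.MP_1611f1_gt

open Topology Set Filter

variable {S : Type*} [TopologicalSpace S] {J : Type*} {E : Surf S J}

/-- surfaces are locally path connected -/
theorem Surf.locPath (E : Surf S J) : LocallyPathConnectedSpace S := by
  classical
  let _ : ChartedSpace (ℝ × ℝ) S :=
    { atlas := univ
      chartAt := fun x => (E.flat x).choose
      mem_chart_source := fun x => (E.flat x).choose_spec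
      chart_mem_atlas := fun _ => mem_univ _ }
  exact ChartedSpace.locallyPathConnectedSpace (ℝ × ℝ) S

/-- the radial push `(θ, r) ↦ (θ, max r (11/6))` of a collar -/
noncomputable def TauC_push (w : AddCircle (1 : ℝ) × Ioo (1 : ℝ) 2) :
    AddCircle (1 : ℝ) × Ioo (1 : ℝ) 2 :=
  (w.1, ⟨max (w.2 : ℝ) (11 / 6), lt_of_lt_of_le w.2.2.1 (le_max_left _ _),
    max_lt w.2.2.2 (by norm_num)⟩)

theorem TauC_push_fst (w : AddCircle (1 : ℝ) × Ioo (1 : ℝ) 2) : (TauC_push w).1 = w.1 := rfl

theorem TauC_push_snd (w : AddCircle (1 : ℝ) × Ioo (1 : ℝ) 2) :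
    ((TauC_push w).2 : ℝ) = max (w.2 : ℝ) (11 / 6) := rfl

theorem TauC_push_cont : Continuous TauC_push := by
  unfold TauC_push
  fun_prop

theorem TauC_push_eq (w : AddCircle (1 : ℝ) × Ioo (1 : ℝ) 2) (h : 11 / 6 ≤ (w.2 : ℝ)) :
    TauC_push w = w := by
  refine Prod.ext rfl (Subtype.ext ?_)
  rw [TauC_push_snd]
  exact max_eq_left h

/-- the retraction -/
noncomputable def TauC_r (E : Surf S J) (x : S) : S := by
  classical
  exact if h : ∃ j w, x = E.collar j w then
    E.collar h.choose (TauC_push h.choose_spec.choose) else x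

theorem TauC_r_collar (E : Surf S J) (j : J) (w : AddCircle (1 : ℝ) × Ioo (1 : ℝ) 2) :
    TauC_r E (E.collar j w) = E.collar j (TauC_push w) := by
  classical
  have h : ∃ j' w', E.collar j w = E.collar j' w' := ⟨j, w, rfl⟩
  unfold TauC_r
  rw [dif_pos h]
  have h2 := h.choose_spec.choose_spec
  have h3 : j = h.choose := E.disj _ _ _ _ h2
  have key : ∀ j' w', E.collar j w = E.collar j' w' →
      E.collar j' (TauC_push w') = E.collar j (TauC_push w) := by
    intro j' w' e
    have e1 := E.disj _ _ _ _ e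
    subst e1
    have e2 := (E.emb j).injective e
    rw [e2]
  exact key _ _ h2

theorem TauC_r_out (E : Surf S J) (x : S) (h : ∀ j w, x ≠ E.collar j w) : TauC_r E x = x := by
  classical
  unfold TauC_r
  rw [dif_neg]
  rintro ⟨j, w, e⟩
  exact h j w e

theorem TauC_r_far (E : Surf S J) (x : S) (h : ∀ j w, x = E.collar j w → 11 / 6 ≤ (w.2 : ℝ)) :
    TauC_r E x = x := by
  classical
  by_cases hx : ∃ j w, x = E.collar j w
  · obtain ⟨j, w, rfl⟩ := hx
    rw [TauC_r_collar, TauC_push_eq _ (h j w rfl)]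
  · push Not at hx
    exact TauC_r_out E x hx

theorem TauC_r_cont [Finite J] (E : Surf S J) : Continuous (TauC_r E) := by
  classical
  rw [continuous_iff_continuousAt]
  intro x
  by_cases hx : ∃ j w, x = E.collar j w
  · obtain ⟨j, w, rfl⟩ := hx
    have h1 : ContinuousAt (TauC_r E ∘ E.collar j) w := by
      have : TauC_r E ∘ E.collar j = E.collar j ∘ TauC_push := by
        funext w'
        exact TauC_r_collar E j w'
      rw [this]
      exact ((E.emb j).continuous.comp TauC_push_cont).continuousAt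
    exact ((E.emb j).continuousAt_iff).1 h1
  · push Not at hx
    have hcl : IsClosed (⋃ j, E.collar j '' {z | (z.2 : ℝ) ≤ 11 / 6}) :=
      isClosed_iUnion_of_finite fun j => E.closed j _ (by norm_num)
    have hmem : x ∈ (⋃ j, E.collar j '' {z | (z.2 : ℝ) ≤ 11 / 6})ᶜ := by
      intro hc
      obtain ⟨j, hj⟩ := mem_iUnion.1 hc
      obtain ⟨w, -, hw⟩ := hj
      exact hx j w hw.symm
    have hev : ∀ᶠ y in 𝓝 x, TauC_r E y = y := by
      filter_upwards [hcl.isOpen_compl.mem_nhds hmem] with y hy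
      apply TauC_r_far
      intro j w hw
      by_contra hlt
      push Not at hlt
      exact hy (mem_iUnion.2 ⟨j, w, hlt.le, hw.symm⟩)
    exact (continuousAt_id (x := x)).congr (by
      filter_upwards [hev] with y hy
      exact hy.symm)

/-- pushing the collars outwards -/
theorem Surf.exists_retract [Finite J] (E : Surf S J) :
    ∃ r : S → S, Continuous r ∧
      (∀ x, (∀ j w, x = E.collar j w → 11 / 6 ≤ (w.2 : ℝ)) → r x = x) ∧
      (∀ x, (∀ j w, x ≠ E.collar j w) → r x = x) ∧
      (∀ j w, ∃ w' : AddCircle (1 : ℝ) × Ioo (1 : ℝ) 2, r (E.collar j w) = E.collar j w' ∧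
        w'.1 = w.1 ∧ 11 / 6 ≤ (w'.2 : ℝ)) := by
  refine ⟨TauC_r E, TauC_r_cont E, TauC_r_far E, TauC_r_out E, fun j w =>
    ⟨TauC_push w, TauC_r_collar E j w, rfl, ?_⟩⟩
  rw [TauC_push_snd]
  exact le_max_right _ _

end Pool.Agent.H.MP_1611f1_gt
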