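import Mathlib

/-!
The one-dimensional data.
-/

namespace Pool.Agent.H.MP_1611f1_gt

open Set

/-- the data -/
structure Hol (σ : ℝ) where
  A : ℝ ≃o ℝ
  B : ℝ ≃o ℝ
  th : ℝ → ℝ
  mono : StrictMono th
  cont : Continuous th
  A4 : ∀ t, A (t + 4) = A t + 4
  B4 : ∀ t, B (t + 4) = B t + 4
  th4 : ∀ t, th (t + 4) = th t + 4
  Afix : ∀ m : ℤ, A (2 * m) = 2 * m
  Bfix : ∀ m : ℤ, B (2 * m + 1) = 2 * m + 1
  rot : ∀ t, th (B.symm (A.symm (B (A t)))) = th t + 4 * σ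

end Pool.Agent.H.MP_1611f1_gt
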