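import Pool.Agent.H.MP_1611f1_gt.CmpF
import Pool.Agent.H.MP_1611f1_gt.TauA

/-!
Leaf paths in the meridian discs.
-/

namespace Pool.Agent.H.MP_1611f1_gt

open Topology Set Filter

variable {S : Type*} [TopologicalSpace S] {J K : Type*} {E : Surf S J} {col : J → K} {L : J → ℕ}
  {phi : S ≃ₜ S} {al be ga de : J → ℤ} {Y : Type*} [TopologicalSpace Y]
  (Fl : Filling E phi al be ga de Y) {n : ℕ} (A : Arcs E col L) {σ : K → ℝ}
  (H : ∀ k, Hol (σ k)) (C : Chain A n phi) (F : Foliation Y)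

/-- leaf paths in the meridian discs -/
theorem leaf_disc (hde : ∀ j, de j ≠ 0) (hF : F.charts = AllCharts Fl A H C) (j : J)
    (w w' : Metric.ball (0 : ℂ) 2) (h : AddCircle (1 : ℝ)) (hw : ‖(w : ℂ)‖ < 4 / 3)
    (hw' : ‖(w' : ℂ)‖ < 4 / 3) : F.SameLeaf (Fl.q j (w, h)) (Fl.q j (w', h)) := by
  have hmem : ∀ s : unitInterval,
      ‖((1 - (s : ℝ)) • (w : ℂ) + (s : ℝ) • (w' : ℂ))‖ < 4 / 3 := by
    intro s
    have h1 : (w : ℂ) ∈ Metric.ball (0 : ℂ) (4 / 3) := mem_ball_zero_iff.2 hw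
    have h2 : (w' : ℂ) ∈ Metric.ball (0 : ℂ) (4 / 3) := mem_ball_zero_iff.2 hw'
    have h3 := (convex_ball (0 : ℂ) (4 / 3)) h1 h2 (sub_nonneg.2 s.2.2) s.2.1
      (sub_add_cancel 1 (s : ℝ))
    exact mem_ball_zero_iff.1 h3
  let c : unitInterval → Metric.ball (0 : ℂ) 2 := fun s =>
    ⟨(1 - (s : ℝ)) • (w : ℂ) + (s : ℝ) • (w' : ℂ),
      mem_ball_zero_iff.2 ((hmem s).trans (by norm_num))⟩
  have hc : Continuous c := by
    apply Continuous.subtype_mk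
    fun_prop
  have hc0 : c 0 = w := by
    apply Subtype.ext
    simp [c]
  have hc1 : c 1 = w' := by
    apply Subtype.ext
    simp [c]
  obtain ⟨u, rfl⟩ := QuotientAddGroup.mk_surjective h
  obtain ⟨ch, hIII, hsrc, hval⟩ := exIII Fl hde j (u - 1 / 2)
  have hu : u ∈ Ioo (u - 1 / 2) (u - 1 / 2 + 1) := ⟨by linarith, by linarith⟩
  have key := F.sameLeaf_of (fun s => Fl.q j (c s, ((u : ℝ) : AddCircle (1 : ℝ))))
    ((Fl.q_emb j).continuous.comp (hc.prodMk continuous_const)) (fun s => by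
      refine ⟨ch, ?_, ?_, Eventually.of_forall fun s' => ?_⟩
      · rw [hF]
        exact Or.inr (Or.inr hIII)
      · rw [hsrc]
        exact ⟨(c s, ((u : ℝ) : AddCircle (1 : ℝ))), ⟨hmem s, u, hu, rfl⟩, rfl⟩
      · rw [hval (c s') u (hmem s') hu, hval (c s) u (hmem s) hu])
  rw [hc0, hc1] at key
  exact key

end Pool.Agent.H.MP_1611f1_gt
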