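import Pool.Agent.H.MP_1611f1_gt.CmpF
import Pool.Agent.H.MP_1611f1_gt.TauA

/-!
Horizontal leaf paths.
-/

namespace Pool.Agent.H.MP_1611f1_gt

open Topology Set Filter

variable {S : Type*} [TopologicalSpace S] {J K : Type*} {E : Surf S J} {col : J → K} {L : J → ℕ}
  {phi : S ≃ₜ S} {al be ga de : J → ℤ} {Y : Type*} [TopologicalSpace Y]
  (Fl : Filling E phi al be ga de Y) {n : ℕ} (A : Arcs E col L) {σ : K → ℝ}
  (H : ∀ k, Hol (σ k)) (C : Chain A n phi) (F : Foliation Y)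

/-- horizontal leaf paths -/
theorem leaf_horizontal [Finite J] [Finite K] (hn : 0 < n) (hF : F.charts = AllCharts Fl A H C) (i : ℤ)
    {t : ℝ} (ht : t ∈ Ico (i : ℝ) (i + 1)) (γ : unitInterval → S) (hγ : Continuous γ)
    (hγ' : ∀ s, γ s ∈ Out E ∧ C.ψ i (γ s) ∈ VV A none) :
    F.SameLeaf (PP Fl n (γ 0, t)) (PP Fl n (γ 1, t)) := by
  refine F.sameLeaf_of (fun s => PP Fl n (γ s, t))
    ((PP_cont Fl hn).comp (hγ.prodMk continuous_const)) fun s => ?_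
  obtain ⟨hout, hV⟩ := hγ' s
  obtain ⟨a, ha, hD⟩ := DD_cover_none A C i (γ s) hV
  have hadm : Adm i a none := Or.inl ⟨ha, trivial⟩
  obtain ⟨ξ, hξ⟩ := E.flat (γ s)
  obtain ⟨c, hc, hsrc, hval⟩ := exI Fl A H C hn i a none hadm ξ
  have htI : t ∈ Ioo ((i : ℝ) - 1) (i + 1) := ⟨by linarith [ht.1], ht.2⟩
  have hU : IsOpen (ξ.source ∩ Out E ∩ DD A C i a none) :=
    (ξ.open_source.inter Out_open).inter (DD_open A C i a none)
  have hmem : γ s ∈ ξ.source ∩ Out E ∩ DD A C i a none := ⟨⟨hξ, hout⟩, hD⟩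
  have hev : ∀ᶠ s' in 𝓝 s, γ s' ∈ ξ.source ∩ Out E ∩ DD A C i a none :=
    hγ.continuousAt (hU.mem_nhds hmem)
  have key : ∀ x ∈ ξ.source ∩ Out E ∩ DD A C i a none, (c (PP Fl n (x, t))).2 = t := by
    intro x hx
    rw [hval (x, t) ⟨hx, htI⟩]
    exact Fs_ge A H C hadm hx.2 ht.1
  refine ⟨c, ?_, ?_, ?_⟩
  · rw [hF]
    exact Or.inl hc
  · rw [hsrc]
    exact ⟨(γ s, t), ⟨hmem, htI⟩, rfl⟩
  · filter_upwards [hev] with s' hs'
    exact (key _ hs').trans (key _ hmem).symm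

end Pool.Agent.H.MP_1611f1_gt
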