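import Pool.Agent.H.MP_1611f1_gt.CmpF
import Pool.Agent.H.MP_1611f1_gt.TauA

/-!
Leaf paths in the strips.
-/

namespace Pool.Agent.H.MP_1611f1_gt

open Topology Set Filter

variable {S : Type*} [TopologicalSpace S] {J K : Type*} {E : Surf S J} {col : J → K} {L : J → ℕ}
  {phi : S ≃ₜ S} {al be ga de : J → ℤ} {Y : Type*} [TopologicalSpace Y]
  (Fl : Filling E phi al be ga de Y) {n : ℕ} (A : Arcs E col L) {σ : K → ℝ}
  (H : ∀ k, Hol (σ k)) (C : Chain A n phi) (F : Foliation Y)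

theorem LfE_excl {i : ℤ} {e : Bool × K} (h : ina i e) (h' : act i e) : False := by
  rcases h with ⟨h1, h2⟩ | ⟨h1, h2⟩ <;> rcases h' with ⟨h3, h4⟩ | ⟨h3, h4⟩
  · rw [h2] at h4
    exact absurd h4 (by simp)
  · exact (Int.not_even_iff_odd.2 h3) h1
  · exact (Int.not_even_iff_odd.2 h1) h3
  · rw [h2] at h4
    exact absurd h4 (by simp)

theorem LfE_next {i : ℤ} {e : Bool × K} (h : ina i e) : act (i + 1) e := by
  rcases h with ⟨h1, h2⟩ | ⟨h1, h2⟩
  · exact Or.inr ⟨h1.add_one, h2⟩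
  · exact Or.inl ⟨h1.add_one, h2⟩

theorem LfE_prev {i : ℤ} {e : Bool × K} (h : act i e) : ina (i - 1) e := by
  rcases h with ⟨h1, h2⟩ | ⟨h1, h2⟩
  · exact Or.inr ⟨h1.sub_odd odd_one, h2⟩
  · exact Or.inl ⟨h1.sub_odd odd_one, h2⟩

theorem LfE_two {i : ℤ} {e : Bool × K} (h : ina i e) : ina (i + 2) e := by
  rcases h with ⟨h1, h2⟩ | ⟨h1, h2⟩
  · exact Or.inl ⟨h1.add even_two, h2⟩
  · exact Or.inr ⟨h1.add_even even_two, h2⟩

/-- the levels of the blending -/
theorem LfE_solve (B : ℝ ≃o ℝ) {X : Type*} [TopologicalSpace X] {k : X → ℝ}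
    (hk : Continuous k) (c : ℝ) :
    ∃ τ : X → ℝ, Continuous τ ∧ ∀ x, Fe B (k x) (τ x) = c := by
  have hsurj : ∀ u, ∃ t, Fe B u t = c := by
    intro u
    have h0 := chi_nonneg u
    have h1 := chi_le_one u
    have h2 : Fe B u (min c (B c)) ≤ c := by
      have h3 : B.symm (min c (B c)) ≤ c := by
        have h4 := B.symm.monotone (min_le_right c (B c))
        rwa [OrderIso.symm_apply_apply] at h4
      have h4 := min_le_left c (B c)
      unfold Fe
      nlinarith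
    have h3 : c ≤ Fe B u (max c (B c)) := by
      have h3 : c ≤ B.symm (max c (B c)) := by
        have h4 := B.symm.monotone (le_max_right c (B c))
        rwa [OrderIso.symm_apply_apply] at h4
      have h4 := le_max_left c (B c)
      unfold Fe
      nlinarith
    have hle : min c (B c) ≤ max c (B c) := min_le_max
    have hcont : Continuous fun t => Fe B u t :=
      (Fe_cont B).comp (continuous_const.prodMk continuous_id)
    obtain ⟨t, -, ht⟩ := intermediate_value_Icc hle hcont.continuousOn ⟨h2, h3⟩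
    exact ⟨t, ht⟩
  choose τ hτ using fun x => hsurj (k x)
  refine ⟨τ, ?_, hτ⟩
  have hlev : ∀ a, Continuous fun x => Fe B (k x) a := fun a =>
    (Fe_cont B).comp (hk.prodMk continuous_const)
  rw [continuous_iff_continuousAt]
  intro x
  refine tendsto_order.2 ⟨fun a ha => ?_, fun a ha => ?_⟩
  · have h1 : Fe B (k x) a < c := by
      rw [← hτ x]
      exact Fe_mono B _ ha
    have h2 : ∀ᶠ y in 𝓝 x, Fe B (k y) a < c :=
      (hlev a).continuousAt.eventually (gt_mem_nhds h1)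
    filter_upwards [h2] with y hy
    rw [← hτ y] at hy
    exact (Fe_mono B (k y)).lt_iff_lt.1 hy
  · have h1 : c < Fe B (k x) a := by
      rw [← hτ x]
      exact Fe_mono B _ ha
    have h2 : ∀ᶠ y in 𝓝 x, c < Fe B (k y) a :=
      (hlev a).continuousAt.eventually (lt_mem_nhds h1)
    filter_upwards [h2] with y hy
    rw [← hτ y] at hy
    exact (Fe_mono B (k y)).lt_iff_lt.1 hy

theorem LfE_Fs {i : ℤ} {e : Bool × K} (h : act i e) (x : S) (t : ℝ) :
    Fs A H C i (some e) (some e) x t = Fe (iso H e) (lft (kap A e (C.ψ (i - 1) x))) t := by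
  unfold Fs Fa
  simp only
  rw [C.step A h x, ite_self]

/-- near the slice of an inactive strip -/
theorem LfE_cover {i : ℤ} {e : Bool × K} (h : ina i e) {x : S} (hx : kap A e (C.ψ i x) ≠ 0) :
    ∃ a, inaO i a ∧ x ∈ DD A C i a (some e) := by
  rcases VV_cover A (C.ψ (i - 1) x) with h1 | ⟨e', h1⟩
  · exact ⟨none, trivial, h1, hx⟩
  · rcases ina_or_act i e' with h2 | h2
    · exact ⟨some e', h2, h1, hx⟩
    · exfalso
      have hne : e ≠ e' := by
        rintro rfl
        exact LfE_excl h h2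
      rcases kap_disj A hne (C.ψ i x) with h3 | h3
      · exact hx h3
      · rw [C.step A h2 x] at h3
        exact h1 h3

theorem LfE_main [Finite J] [Finite K] (hn : 0 < n) (hF : F.charts = AllCharts Fl A H C) (i : ℤ)
    (e : Bool × K) (hi : ina i e)
    {t : ℝ} (ht : t ∈ Ico (i : ℝ) (i + 2)) (γ : unitInterval → S)
    (hγ : Continuous γ) (hγ' : ∀ s, γ s ∈ Out E ∧ kap A e (C.ψ i (γ s)) ≠ 0) :
    ∃ t' ∈ Ico (i : ℝ) (i + 2), F.SameLeaf (PP Fl n (γ 0, t)) (PP Fl n (γ 1, t')) := by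
  have hact : act (i + 1) e := LfE_next hi
  have hfix : ∀ u, Fe (iso H e) u (i : ℝ) = i := fun u => Fe_fix _ (iso_fix H hi) u
  have hfix2 : ∀ u, Fe (iso H e) u ((i : ℝ) + 2) = (i : ℝ) + 2 := by
    intro u
    have h1 : iso H e (((i + 2 : ℤ)) : ℝ) = ((i + 2 : ℤ) : ℝ) := iso_fix H (LfE_two hi)
    have h2 := Fe_fix _ h1 u
    push_cast at h2
    exact h2
  have hk : Continuous fun s => lft (kap A e (C.ψ i (γ s))) := by
    rw [continuous_iff_continuousAt]
    intro s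
    exact ContinuousAt.comp (g := lft) (f := fun s => kap A e (C.ψ i (γ s)))
      (lft_contAt (hγ' s).2)
      (((kap_cont A e).comp ((C.ψ i).continuous.comp hγ)).continuousAt)
  obtain ⟨τ, hτc, hτ⟩ := LfE_solve (iso H e) hk (Fe (iso H e) (lft (kap A e (C.ψ i (γ 0)))) t)
  set c : ℝ := Fe (iso H e) (lft (kap A e (C.ψ i (γ 0)))) t with hc
  have hτ0 : τ 0 = t := (Fe_mono _ _).injective (hτ 0)
  have hc1 : (i : ℝ) ≤ c := by
    rw [hc, ← hfix (lft (kap A e (C.ψ i (γ 0))))]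
    exact (Fe_mono _ _).monotone ht.1
  have hc2 : c < (i : ℝ) + 2 := by
    rw [hc, ← hfix2 (lft (kap A e (C.ψ i (γ 0))))]
    exact Fe_mono _ _ ht.2
  have hτ1 : ∀ s, (i : ℝ) ≤ τ s := by
    intro s
    refine (Fe_mono (iso H e) (lft (kap A e (C.ψ i (γ s))))).le_iff_le.1 ?_
    rw [hτ s, hfix]
    exact hc1
  have hτ2 : ∀ s, τ s < (i : ℝ) + 2 := by
    intro s
    refine (Fe_mono (iso H e) (lft (kap A e (C.ψ i (γ s))))).lt_iff_lt.1 ?_
    rw [hτ s, hfix2]
    exact hc2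
  have hg : Continuous fun s => PP Fl n (γ s, τ s) := (PP_cont Fl hn).comp (hγ.prodMk hτc)
  have hleaf : F.SameLeaf (PP Fl n (γ 0, τ 0)) (PP Fl n (γ 1, τ 1)) := by
    refine F.sameLeaf_of (fun s => PP Fl n (γ s, τ s)) hg fun s => ?_
    obtain ⟨hout, hV⟩ := hγ' s
    obtain ⟨ξ, hξ⟩ := E.flat (γ s)
    rcases hc1.eq_or_lt with hci | hci
    · -- the slice
      have hτi : ∀ s, τ s = (i : ℝ) := by
        intro s
        refine (Fe_mono (iso H e) (lft (kap A e (C.ψ i (γ s))))).injective ?_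
        rw [hτ s, hfix]
        exact hci.symm
      obtain ⟨a, ha, hD⟩ := LfE_cover A C hi hV
      have hadm : Adm i a (some e) := Or.inl ⟨ha, hi⟩
      obtain ⟨c', hc', hsrc, hval⟩ := exI Fl A H C hn i a (some e) hadm ξ
      have hU : IsOpen (ξ.source ∩ Out E ∩ DD A C i a (some e)) :=
        (ξ.open_source.inter Out_open).inter (DD_open A C i a (some e))
      have hmem : γ s ∈ ξ.source ∩ Out E ∩ DD A C i a (some e) := ⟨⟨hξ, hout⟩, hD⟩
      have hev : ∀ᶠ s' in 𝓝 s, γ s' ∈ ξ.source ∩ Out E ∩ DD A C i a (some e) :=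
        hγ.continuousAt (hU.mem_nhds hmem)
      have hI : ∀ s', τ s' ∈ Ioo ((i : ℝ) - 1) (i + 1) := by
        intro s'
        rw [hτi s']
        exact ⟨by linarith, by linarith⟩
      have key : ∀ s', γ s' ∈ ξ.source ∩ Out E ∩ DD A C i a (some e) →
          (c' (PP Fl n (γ s', τ s'))).2 = (i : ℝ) := by
        intro s' hs'
        rw [hval (γ s', τ s') ⟨hs', hI s'⟩]
        show Fs A H C i a (some e) (γ s') (τ s') = (i : ℝ)
        rw [hτi s']
        exact Fs_slice A H C ha _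
      refine ⟨c', ?_, ?_, ?_⟩
      · rw [hF]
        exact Or.inl hc'
      · rw [hsrc]
        exact ⟨(γ s, τ s), ⟨hmem, hI s⟩, rfl⟩
      · filter_upwards [hev] with s' hs'
        exact (key _ hs').trans (key _ hmem).symm
    · -- above the slice
      have hτi : ∀ s, (i : ℝ) < τ s := by
        intro s
        refine (Fe_mono (iso H e) (lft (kap A e (C.ψ i (γ s))))).lt_iff_lt.1 ?_
        rw [hτ s, hfix]
        exact hci
      have hadm : Adm (i + 1) (some e) (some e) := Or.inr ⟨e, hact, rfl, rfl⟩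
      obtain ⟨c', hc', hsrc, hval⟩ := exI Fl A H C hn (i + 1) (some e) (some e) hadm ξ
      have hU : IsOpen (ξ.source ∩ Out E ∩ DD A C (i + 1) (some e) (some e)) :=
        (ξ.open_source.inter Out_open).inter (DD_open A C (i + 1) (some e) (some e))
      have hi1 : i + 1 - 1 = i := by ring
      have hD : γ s ∈ DD A C (i + 1) (some e) (some e) := by
        constructor
        · show kap A e (C.ψ (i + 1 - 1) (γ s)) ≠ 0
          rw [hi1]
          exact hV
        · show kap A e (C.ψ (i + 1) (γ s)) ≠ 0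
          rw [C.step A hact, hi1]
          exact hV
      have hmem : γ s ∈ ξ.source ∩ Out E ∩ DD A C (i + 1) (some e) (some e) := ⟨⟨hξ, hout⟩, hD⟩
      have hev : ∀ᶠ s' in 𝓝 s, γ s' ∈ ξ.source ∩ Out E ∩ DD A C (i + 1) (some e) (some e) :=
        hγ.continuousAt (hU.mem_nhds hmem)
      have hI : ∀ s', τ s' ∈ Ioo (((i + 1 : ℤ) : ℝ) - 1) (((i + 1 : ℤ) : ℝ) + 1) := by
        intro s'
        have h1 := hτi s'
        have h2 := hτ2 s'
        push_cast
        exact ⟨by linarith, by linarith⟩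
      have key : ∀ s', γ s' ∈ ξ.source ∩ Out E ∩ DD A C (i + 1) (some e) (some e) →
          (c' (PP Fl n (γ s', τ s'))).2 = c := by
        intro s' hs'
        rw [hval (γ s', τ s') ⟨hs', hI s'⟩]
        show Fs A H C (i + 1) (some e) (some e) (γ s') (τ s') = c
        rw [LfE_Fs A H C hact, hi1]
        exact hτ s'
      refine ⟨c', ?_, ?_, ?_⟩
      · rw [hF]
        exact Or.inl hc'
      · rw [hsrc]
        exact ⟨(γ s, τ s), ⟨hmem, hI s⟩, rfl⟩
      · filter_upwards [hev] with s' hs'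
        exact (key _ hs').trans (key _ hmem).symm
  refine ⟨τ 1, ⟨hτ1 1, hτ2 1⟩, ?_⟩
  rw [hτ0] at hleaf
  exact hleaf

/-- leaf paths in the strips -/
theorem leaf_strip [Finite J] [Finite K] (hn : 0 < n) (hF : F.charts = AllCharts Fl A H C) (i : ℤ)
    {t : ℝ} (ht : t ∈ Ico (i : ℝ) (i + 1)) (e : Bool × K) (γ : unitInterval → S)
    (hγ : Continuous γ) (hγ' : ∀ s, γ s ∈ Out E ∧ kap A e (C.ψ i (γ s)) ≠ 0) :
    ∃ (i' : ℤ) (t' : ℝ), t' ∈ Ico (i' : ℝ) (i' + 1) ∧
      (∀ x, kap A e (C.ψ i' x) = kap A e (C.ψ i x)) ∧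
      F.SameLeaf (PP Fl n (γ 0, t)) (PP Fl n (γ 1, t')) := by
  obtain ⟨i₀, hi₀, heq, ht₀⟩ : ∃ i₀ : ℤ, ina i₀ e ∧
      (∀ x, kap A e (C.ψ i₀ x) = kap A e (C.ψ i x)) ∧ t ∈ Ico (i₀ : ℝ) (i₀ + 2) := by
    rcases ina_or_act i e with h | h
    · exact ⟨i, h, fun x => rfl, ht.1, by linarith [ht.2]⟩
    · refine ⟨i - 1, LfE_prev h, fun x => (C.step A h x).symm, ?_, ?_⟩
      · push_cast
        linarith [ht.1]
      · push_cast
        linarith [ht.2]
  obtain ⟨t', ht', hleaf⟩ := LfE_main Fl A H C F hn hF i₀ e hi₀ ht₀ γ hγ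
    (fun s => ⟨(hγ' s).1, by rw [heq]; exact (hγ' s).2⟩)
  rcases lt_or_ge t' ((i₀ : ℝ) + 1) with h1 | h1
  · exact ⟨i₀, t', ⟨ht'.1, h1⟩, heq, hleaf⟩
  · refine ⟨i₀ + 1, t', ⟨?_, ?_⟩, fun x => ?_, hleaf⟩
    · push_cast
      exact h1
    · push_cast
      linarith [ht'.2]
    · have h2 := C.step A (LfE_next hi₀) x
      have hi1 : i₀ + 1 - 1 = i₀ := by ring
      rw [hi1] at h2
      exact h2.trans (heq x)

end Pool.Agent.H.MP_1611f1_gt
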