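import Pool.Agent.H.MP_1611f1_gt.Defs
import Pool.Agent.H.MP_1611f1_gt.Hol
import Pool.Agent.H.MP_1611f1_gt.TypA
import Pool.Agent.H.MP_1611f1_gt.TypB

/-!
The transverse functions (by type) of the foliation on `S × ℝ` for a fixed arc system.
-/

namespace Pool.Agent.H.MP_1611f1_gt

open Topology Set Filter

section

variable {S : Type*} [TopologicalSpace S] {J K : Type*} {E : Surf S J} {col : J → K} {L : J → ℕ}

/-- the collapse maps, indexed by `Bool × K` -/
def kap (A : Arcs E col L) (e : Bool × K) (x : S) : AddCircle (1 : ℝ) :=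
  if e.1 = true then A.b e.2 x else A.a e.2 x

theorem kap_cont (A : Arcs E col L) (e : Bool × K) : Continuous (kap A e) := by
  obtain ⟨b, j⟩ := e
  cases b
  · exact (A.a j).continuous
  · exact (A.b j).continuous

theorem kap_disj (A : Arcs E col L) {e e' : Bool × K} (h : e ≠ e') (x : S) :
    kap A e x = 0 ∨ kap A e' x = 0 := by
  obtain ⟨b, j⟩ := e
  obtain ⟨b', j'⟩ := e'
  cases b <;> cases b'
  · have hj : j ≠ j' := fun hh => h (by rw [hh])
    exact A.disj_aa j j' x hj
  · exact A.disj_ab j j' x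
  · exact (A.disj_ab j' j x).symm
  · have hj : j ≠ j' := fun hh => h (by rw [hh])
    exact A.disj_bb j j' x hj

/-- the order isomorphisms, indexed by `Bool × K` -/
def iso {σ : K → ℝ} (H : ∀ k, Hol (σ k)) (e : Bool × K) : ℝ ≃o ℝ :=
  if e.1 = true then (H e.2).B else (H e.2).A

theorem iso_four {σ : K → ℝ} (H : ∀ k, Hol (σ k)) (e : Bool × K) (t : ℝ) :
    iso H e (t + 4) = iso H e t + 4 := by
  obtain ⟨b, j⟩ := e
  cases b
  · exact (H j).A4 t
  · exact (H j).B4 t

/-- `e` is inactive at the integer `i` -/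
def ina (i : ℤ) (e : Bool × K) : Prop := (Even i ∧ e.1 = false) ∨ (Odd i ∧ e.1 = true)

/-- `e` is active at the integer `i` -/
def act (i : ℤ) (e : Bool × K) : Prop := (Even i ∧ e.1 = true) ∨ (Odd i ∧ e.1 = false)

theorem ina_or_act (i : ℤ) (e : Bool × K) : ina i e ∨ act i e := by
  obtain ⟨b, j⟩ := e
  rcases Int.even_or_odd i with h | h <;> cases b
  · exact Or.inl (Or.inl ⟨h, rfl⟩)
  · exact Or.inr (Or.inl ⟨h, rfl⟩)
  · exact Or.inr (Or.inr ⟨h, rfl⟩)
  · exact Or.inl (Or.inr ⟨h, rfl⟩)

theorem iso_fix {σ : K → ℝ} (H : ∀ k, Hol (σ k)) {i : ℤ} {e : Bool × K} (h : ina i e) :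
    iso H e i = i := by
  obtain ⟨b, j⟩ := e
  rcases h with ⟨⟨m, hm⟩, hb⟩ | ⟨⟨m, hm⟩, hb⟩
  · have hb' : b = false := hb
    subst hb'
    have h1 := (H j).Afix m
    have h2 : ((i : ℤ) : ℝ) = 2 * m := by rw [hm]; push_cast; ring
    rw [h2]
    exact h1
  · have hb' : b = true := hb
    subst hb'
    have h1 := (H j).Bfix m
    have h2 : ((i : ℤ) : ℝ) = 2 * m + 1 := by rw [hm]; push_cast; ring
    rw [h2]
    exact h1

/-- the open sets of the types -/
def VV (A : Arcs E col L) (a : Option (Bool × K)) : Set S :=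
  match a with
  | none => {x | ∀ e, ‖kap A e x‖ < 1 / 4}
  | some e => {x | kap A e x ≠ 0}

/-- the transverse functions of the types -/
noncomputable def Fa (A : Arcs E col L) {σ : K → ℝ} (H : ∀ k, Hol (σ k)) (a : Option (Bool × K))
    (x : S) (t : ℝ) : ℝ :=
  match a with
  | none => t
  | some e => Fe (iso H e) (lft (kap A e x)) t

/-- `a` is inactive at `i` -/
def inaO (i : ℤ) (a : Option (Bool × K)) : Prop :=
  match a with
  | none => True
  | some e => ina i e

variable (A : Arcs E col L) {σ : K → ℝ} (H : ∀ k, Hol (σ k))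

theorem VV_open [Finite J] [Finite K] (a : Option (Bool × K)) : IsOpen (VV A a) := by
  cases a with
  | none =>
    have h1 : VV A none = ⋂ e : Bool × K, {x | ‖kap A e x‖ < 1 / 4} := by
      ext x
      simp only [VV, Set.mem_ofPred_eq, mem_iInter]
    rw [h1]
    exact isOpen_iInter_of_finite fun e =>
      isOpen_lt (kap_cont A e).norm continuous_const
  | some e =>
    exact isOpen_ne.preimage (kap_cont A e)

theorem VV_cover (x : S) : x ∈ VV A none ∨ ∃ e, x ∈ VV A (some e) := by
  by_cases h : ∃ e, kap A e x ≠ 0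
  · exact Or.inr h
  · left
    intro e
    have h1 : kap A e x = 0 := by
      by_contra hne
      exact h ⟨e, hne⟩
    rw [h1, norm_zero]
    norm_num

theorem Fa_cont (a : Option (Bool × K)) :
    ContinuousOn (fun z : S × ℝ => Fa A H a z.1 z.2) (VV A a ×ˢ univ) := by
  cases a with
  | none => exact continuous_snd.continuousOn
  | some e =>
    rintro ⟨x, t⟩ ⟨hx, -⟩
    have hx' : kap A e x ≠ 0 := hx
    have h1 : ContinuousAt (fun z : S × ℝ => lft (kap A e z.1)) (x, t) :=
      ContinuousAt.comp (g := lft) (f := fun z : S × ℝ => kap A e z.1) (lft_contAt hx')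
        ((kap_cont A e).comp continuous_fst).continuousAt
    have h2 : ContinuousAt (fun z : S × ℝ => (lft (kap A e z.1), z.2)) (x, t) :=
      h1.prodMk continuous_snd.continuousAt
    have h3 : ContinuousAt (fun z : S × ℝ => Fe (iso H e) (lft (kap A e z.1)) z.2) (x, t) :=
      ContinuousAt.comp (g := fun z : ℝ × ℝ => Fe (iso H e) z.1 z.2)
        (f := fun z : S × ℝ => (lft (kap A e z.1), z.2)) (Fe_cont (iso H e)).continuousAt h2
    exact h3.continuousWithinAt

theorem Fa_mono (a : Option (Bool × K)) (x : S) : StrictMono (Fa A H a x) := by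
  cases a with
  | none => exact strictMono_id
  | some e => exact Fe_mono _ _

theorem Fa_shift (a : Option (Bool × K)) (x : S) (t : ℝ) (k : ℤ) :
    Fa A H a x (t + 4 * k) = Fa A H a x t + 4 * k := by
  have h4 : ∀ s : ℝ, Fa A H a x (s + 4) = Fa A H a x s + 4 := by
    intro s
    cases a with
    | none => rfl
    | some e => exact Fe_four _ (iso_four H e) _ _
  induction k using Int.induction_on with
  | zero => simp
  | succ n ih =>
    have h1 : t + 4 * (((n : ℤ) + 1 : ℤ) : ℝ) = (t + 4 * ((n : ℤ) : ℝ)) + 4 := by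
      push_cast; ring
    rw [h1, h4, ih]
    push_cast; ring
  | pred n ih =>
    have h1 := h4 (t + 4 * ((-(n : ℤ) - 1 : ℤ) : ℝ))
    have h2 : t + 4 * ((-(n : ℤ) - 1 : ℤ) : ℝ) + 4 = t + 4 * ((-(n : ℤ) : ℤ) : ℝ) := by
      push_cast; ring
    rw [h2, ih] at h1
    push_cast at h1 ⊢
    linarith

theorem Fa_fix {a : Option (Bool × K)} {i : ℤ} (h : inaO i a) (x : S) : Fa A H a x i = i := by
  cases a with
  | none => rfl
  | some e => exact Fe_fix _ (iso_fix H h) _

end

end Pool.Agent.H.MP_1611f1_gt
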