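import Pool.Agent.H.MP_1611f1_gt.TauC
import Pool.Agent.H.MP_1611f1_gt.TypC
import Pool.Agent.H.MP_1611f1_gt.ColD

/-!
Paths in the strips and in the complement.
-/

namespace Pool.Agent.H.MP_1611f1_gt

open Topology Set Filter

variable {S : Type*} [TopologicalSpace S] {J K : Type*} {E : Surf S J} {col : J → K}

variable {L : J → ℕ} (A : Arcs E col L)

/-- a strip is not everything: every point of a strip can be joined inside the strip to a point
near its side -/
theorem strip_path [ConnectedSpace S] [Nonempty J] (hL : ∀ j, 0 < L j) (e : Bool × K) (x : S)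
    (hx : kap A e x ≠ 0) :
    ∃ x' : S, JoinedIn {z | kap A e z ≠ 0} x x' ∧ ‖kap A e x'‖ < 1 / 4 := by
  have hloc := E.locPath
  by_contra hno
  push Not at hno
  have hW : IsOpen {z | kap A e z ≠ 0} := (kap_cont A e).isOpen_preimage _ isOpen_ne
  have hCo : IsOpen (pathComponentIn {z | kap A e z ≠ 0} x) := hW.pathComponentIn x
  have hCl : IsClosed (pathComponentIn {z | kap A e z ≠ 0} x) := by
    refine isClosed_of_closure_subset fun z hz => ?_
    have hclosed : IsClosed {z | 1 / 4 ≤ ‖kap A e z‖} :=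
      isClosed_le continuous_const (kap_cont A e).norm
    have h1 : closure (pathComponentIn {z | kap A e z ≠ 0} x) ⊆ {z | 1 / 4 ≤ ‖kap A e z‖} :=
      closure_minimal (fun y hy => hno y hy) hclosed
    have hzW : z ∈ {z | kap A e z ≠ 0} := by
      intro h0
      have h2 : 1 / 4 ≤ ‖kap A e z‖ := h1 hz
      rw [h0, norm_zero] at h2
      norm_num at h2
    have hzC : IsOpen (pathComponentIn {z | kap A e z ≠ 0} z) := hW.pathComponentIn z
    have hmem : z ∈ pathComponentIn {z | kap A e z ≠ 0} z := JoinedIn.refl hzW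
    obtain ⟨y, hy1, hy2⟩ := mem_closure_iff.1 hz _ hzC hmem
    exact JoinedIn.trans hy2 (JoinedIn.symm hy1)
  have huniv := IsClopen.eq_univ ⟨hCl, hCo⟩ ⟨x, JoinedIn.refl hx⟩
  obtain ⟨j⟩ := ‹Nonempty J›
  have hmem : E.collar j ((((0 : ℤ) + (0 : ℝ)) / (4 * L j) : ℝ), ⟨3 / 2, by norm_num, by norm_num⟩) ∈
      pathComponentIn {z | kap A e z ≠ 0} x := by
    rw [huniv]
    exact mem_univ _
  have h3 : kap A e (E.collar j ((((0 : ℤ) + (0 : ℝ)) / (4 * L j) : ℝ),
      ⟨3 / 2, by norm_num, by norm_num⟩)) ≠ 0 := JoinedIn.target_mem hmem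
  apply h3
  by_cases hej : e.2 = col j
  · obtain ⟨bb, k'⟩ := e
    obtain rfl : k' = col j := hej
    rw [kap_collar A bb j (hL j) 0 0 ⟨le_refl _, zero_le_one⟩]
    cases bb <;> simp
  · exact kap_collar_ne A hej _

/-- every point outside the strips can be joined to an end, in terms of `VV` -/
theorem none_reach {x : S} (hx : x ∈ VV A none) :
    ∃ j z, JoinedIn (VV A none) x (E.collar j z) := by
  have h : VV A none = {x : S | ∀ k, ‖A.a k x‖ < 1 / 4 ∧ ‖A.b k x‖ < 1 / 4} := by
    ext y
    constructor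
    · intro hy j
      exact ⟨hy (false, j), hy (true, j)⟩
    · rintro hy ⟨b, j⟩
      cases b
      · exact (hy j).1
      · exact (hy j).2
  rw [h] at hx ⊢
  exact A.reach x hx

end Pool.Agent.H.MP_1611f1_gt
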