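import Pool.Agent.H.MP_1611f1_gt.LfA
import Pool.Agent.H.MP_1611f1_gt.LfD
import Pool.Agent.H.MP_1611f1_gt.LfE
import Pool.Agent.H.MP_1611f1_gt.TauD

/-!
From the outer part to the base point.
-/

namespace Pool.Agent.H.MP_1611f1_gt

open Topology Set Filter

variable {S : Type*} [TopologicalSpace S] {J K : Type*} {E : Surf S J} {col : J → K} {L : J → ℕ}
  {phi : S ≃ₜ S} {al be ga de : J → ℤ} {Y : Type*} [TopologicalSpace Y]
  (Fl : Filling E phi al be ga de Y) {n : ℕ} (A : Arcs E col L) {σ : K → ℝ}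
  (H : ∀ k, Hol (σ k)) (C : Chain A n phi) (F : Foliation Y)

include C in
/-- the retraction, with its effect on the collapse maps -/
theorem LfF_ret [Finite J] [Finite K] (hL : ∀ j, 0 < L j) : ∃ r : S → S, Continuous r ∧
    (∀ x, (∀ j w, x = E.collar j w → 11 / 6 ≤ (w.2 : ℝ)) → r x = x) ∧
    (∀ z j w, r z = E.collar j w → 11 / 6 ≤ (w.2 : ℝ)) ∧
    (∀ z (i : ℤ) (e : Bool × K), kap A e (C.ψ i (r z)) = kap A e (C.ψ i z)) ∧
    (∀ j w, ∃ w', r (E.collar j w) = E.collar j w') := by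
  obtain ⟨r, hr, h1, h2, h3⟩ := E.exists_retract
  refine ⟨r, hr, h1, ?_, ?_, fun j w => ⟨_, (h3 j w).choose_spec.1⟩⟩
  · intro z j w hz
    by_cases hc : ∃ j w, z = E.collar j w
    · obtain ⟨j', w', rfl⟩ := hc
      obtain ⟨w'', h4, -, h5⟩ := h3 j' w'
      rw [h4] at hz
      obtain rfl := E.disj _ _ _ _ hz
      rw [← (E.emb j').injective hz]
      exact h5
    · push Not at hc
      rw [h2 z hc] at hz
      exact absurd hz (hc j w)
  · intro z i e
    by_cases hc : ∃ j w, z = E.collar j w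
    · obtain ⟨j', w', rfl⟩ := hc
      obtain ⟨w'', h4, h5, -⟩ := h3 j' w'
      rw [h4, C.col, C.col]
      obtain ⟨θ, ρ⟩ := w'
      obtain ⟨θ', ρ'⟩ := w''
      simp only at h5
      subst h5
      exact kap_radius A e hL j' θ' ρ' ρ
    · push Not at hc
      rw [h2 z hc]

theorem LfF_out {x : S} (hx : ∀ j w, x = E.collar j w → 11 / 6 ≤ (w.2 : ℝ)) : x ∈ Out E := by
  intro j w h
  have := hx j w h
  norm_num at this ⊢
  linarith

theorem LfF_QQ (hL : ∀ j, 0 < L j) (j : J) (w : AddCircle (1 : ℝ) × Ioo (1 : ℝ) 2)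
    (t : ℝ) : ∃ y : ℝ, PP Fl n (E.collar j w, t) = QQ Fl L n j (y, w.2, t) := by
  obtain ⟨θ, r⟩ := w
  obtain ⟨x, rfl⟩ : ∃ x : ℝ, (x : AddCircle (1 : ℝ)) = θ := QuotientAddGroup.mk_surjective θ
  refine ⟨4 * L j * x, ?_⟩
  have hLr : (L j : ℝ) ≠ 0 := by
    have h1 : (0 : ℝ) < L j := by exact_mod_cast hL j
    exact h1.ne'
  unfold QQ
  have h1 : 4 * (L j : ℝ) * x / (4 * L j) = x := by field_simp
  simp only [h1]

theorem LfF_A [Finite J] [Finite K] [ConnectedSpace S] (hn : 0 < n) (hL : ∀ j, 0 < L j)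
    (hF : F.charts = AllCharts Fl A H C) (x : S) (i : ℤ) (t : ℝ)
    (ht : t ∈ Ico (i : ℝ) (i + 1))
    (hx : ∀ j w, x = E.collar j w → 11 / 6 ≤ (w.2 : ℝ)) (hV : C.ψ i x ∈ VV A none) :
    ∃ j z, F.SameLeaf (PP Fl n (x, t)) (QQ Fl L n j z) := by
  obtain ⟨r, hr, h1, h2, h3, h0⟩ := LfF_ret A C hL
  obtain ⟨j, w, δ, hδ⟩ := none_reach A hV
  have h4 := leaf_horizontal Fl A H C F hn hF i ht (fun s => r ((C.ψ i).symm (δ s)))
    (hr.comp ((C.ψ i).symm.continuous.comp δ.continuous)) (fun s => ⟨LfF_out (h2 _), by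
      intro e
      rw [h3]
      have := hδ s e
      simpa using this⟩)
  simp only [Path.source, Path.target, Homeomorph.symm_apply_apply] at h4
  rw [h1 x hx] at h4
  have h5 : (C.ψ i).symm (E.collar j w) = E.collar j w := by
    rw [Homeomorph.symm_apply_eq, C.col]
  obtain ⟨w', h6⟩ := h0 j w
  rw [h5, h6] at h4
  obtain ⟨y, h7⟩ := LfF_QQ Fl (n := n) hL j w' t
  rw [h7] at h4
  exact ⟨j, _, h4⟩

/-- from the outer part (outside the collars or at radius `≥ 11/6`) to a collar -/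
theorem leaf_outer [Finite J] [Finite K] [Nonempty J] [ConnectedSpace S] (hn : 0 < n)
    (hL : ∀ j, 0 < L j) (hF : F.charts = AllCharts Fl A H C) (x : S) (t : ℝ)
    (hx : ∀ j w, x = E.collar j w → 11 / 6 ≤ (w.2 : ℝ)) :
    ∃ j z, F.SameLeaf (PP Fl n (x, t)) (QQ Fl L n j z) := by
  have ht : t ∈ Ico ((⌊t⌋ : ℤ) : ℝ) ((⌊t⌋ : ℤ) + 1) := ⟨Int.floor_le t, Int.lt_floor_add_one t⟩
  rcases VV_cover A (C.ψ ⌊t⌋ x) with hV | ⟨e, he⟩
  · exact LfF_A Fl A H C F hn hL hF x ⌊t⌋ t ht hx hV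
  · obtain ⟨r, hr, h1, h2, h3, h0⟩ := LfF_ret A C hL
    obtain ⟨x', ⟨δ, hδ⟩, hx'⟩ := strip_path A hL e _ he
    obtain ⟨i', t', ht', hk, hs⟩ := leaf_strip Fl A H C F hn hF ⌊t⌋ ht e
      (fun s => r ((C.ψ ⌊t⌋).symm (δ s)))
      (hr.comp ((C.ψ ⌊t⌋).symm.continuous.comp δ.continuous)) (fun s => ⟨LfF_out (h2 _), by
        rw [h3]
        have := hδ s
        simpa using this⟩)
    simp only [Path.source, Path.target, Homeomorph.symm_apply_apply] at hs
    rw [h1 x hx] at hs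
    have h5 : kap A e (C.ψ i' (r ((C.ψ ⌊t⌋).symm x'))) = kap A e x' := by
      rw [hk, h3, Homeomorph.apply_symm_apply]
    have h6 : kap A e x' ≠ 0 := by
      have := hδ 1
      simpa using this
    obtain ⟨j, z, h8⟩ := LfF_A Fl A H C F hn hL hF _ i' t' ht' (h2 _) (by
      intro e'
      by_cases hee : e' = e
      · subst hee
        rw [h5]
        exact hx'
      · rcases kap_disj A hee (C.ψ i' (r ((C.ψ ⌊t⌋).symm x'))) with h7 | h7
        · rw [h7, norm_zero]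
          norm_num
        · rw [h5] at h7
          exact absurd h7 h6)
    exact ⟨j, z, hs.trans F h8⟩

end Pool.Agent.H.MP_1611f1_gt
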