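import Pool.Agent.H.MP_1611f1_gt.LfB
import Pool.Agent.H.MP_1611f1_gt.LfC
import Pool.Agent.H.MP_1611f1_gt.LfF
import Pool.Agent.H.MP_1611f1_gt.CmpG

/-!
Tautness.
-/

namespace Pool.Agent.H.MP_1611f1_gt

open Topology Set Filter

variable {S : Type*} [TopologicalSpace S] {J K : Type*} {E : Surf S J} {col : J → K} {L : J → ℕ}
  {phi : S ≃ₜ S} {al be ga de : J → ℤ} {Y : Type*} [TopologicalSpace Y]
  (Fl : Filling E phi al be ga de Y) {n : ℕ} (A : Arcs E col L) {σ : K → ℝ}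
  (H : ∀ k, Hol (σ k)) (C : Chain A n phi) (F : Foliation Y)

theorem leaf_all [Finite J] [Finite K] [Nonempty J] [ConnectedSpace S] (hn : 0 < n)
    (hL : ∀ j, 0 < L j) (hde : ∀ j, de j ≠ 0) (hdet : ∀ j, al j * de j - be j * ga j = 1)
    (hF : F.charts = AllCharts Fl A H C) (y : Y) :
    ∃ j z, F.SameLeaf y (QQ Fl L n j z) := by
  rcases trichotomy Fl hn hL hdet y with ⟨x, t, rfl, hx⟩ | ⟨j', z, rfl⟩ | ⟨j', w, h, rfl, hw⟩
  · exact leaf_outer Fl A H C F hn hL hF x t fun j' w e => absurd e (hx j' w)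
  · exact ⟨j', z, Foliation.SameLeaf.refl F _⟩
  · have hn76 : ‖((7 / 6 : ℝ) : ℂ)‖ = 7 / 6 := by
      rw [Complex.norm_real, Real.norm_of_nonneg (by norm_num)]
    let w' : Metric.ball (0 : ℂ) 2 := ⟨((7 / 6 : ℝ) : ℂ), by
      rw [mem_ball_zero_iff, hn76]; norm_num⟩
    have hw' : ‖(w' : ℂ)‖ = 7 / 6 := hn76
    have h1 := leaf_disc Fl A H C F hde hF j' w w' h (by linarith) (by rw [hw']; norm_num)
    obtain ⟨z, hz, -⟩ := exists_QQ_torus (L := L) Fl hn hdet j' (hL j') w' h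
      (by rw [hw']; norm_num)
    rw [hz] at h1
    exact ⟨j', z, h1⟩

theorem taut [Finite J] [Finite K] [Nonempty J] [ConnectedSpace S] (hn : 0 < n)
    (hL : ∀ j, 0 < L j) (hde : ∀ j, de j ≠ 0) (hdet : ∀ j, al j * de j - be j * ga j = 1)
    (hF : F.charts = AllCharts Fl A H C) : F.Taut := by
  intro y
  obtain ⟨j, ⟨y', r, t'⟩, ht'⟩ := leaf_all Fl A H C F hn hL hde hdet hF y
  refine ⟨fun s => QQ Fl L n j (y', r, 4 * n * s), t' / (4 * n),
    transversal Fl A H C F hn hL hF j y' r, ?_⟩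
  have hn' : (4 * (n : ℝ)) ≠ 0 := by
    have : (0 : ℝ) < n := by exact_mod_cast hn
    positivity
  have e : 4 * (n : ℝ) * (t' / (4 * n)) = t' := by field_simp
  show F.SameLeaf y (QQ Fl L n j (y', r, 4 * n * (t' / (4 * n))))
  rw [e]
  exact ht'

end Pool.Agent.H.MP_1611f1_gt
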