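import Pool.Agent.H.MP_1611f1_gt.CmpF
import Pool.Agent.H.MP_1611f1_gt.TauA

/-!
The closed transversal.
-/

namespace Pool.Agent.H.MP_1611f1_gt

open Topology Set Filter

variable {S : Type*} [TopologicalSpace S] {J K : Type*} {E : Surf S J} {col : J → K} {L : J → ℕ}
  {phi : S ≃ₜ S} {al be ga de : J → ℤ} {Y : Type*} [TopologicalSpace Y]
  (Fl : Filling E phi al be ga de Y) {n : ℕ} (A : Arcs E col L) {σ : K → ℝ}
  (H : ∀ k, Hol (σ k)) (C : Chain A n phi) (F : Foliation Y)

/-- the closed transversals: the vertical lines over the collars -/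
theorem transversal [Finite J] [Finite K] (hn : 0 < n) (hL : ∀ j, 0 < L j)
    (hF : F.charts = AllCharts Fl A H C) (j : J) (y : ℝ) (r : Ioo (1 : ℝ) 2) :
    F.ClosedTransversal (fun s => QQ Fl L n j (y, r, 4 * n * s)) := by
  have hnr : (0 : ℝ) < n := by exact_mod_cast hn
  refine F.transversal_of _ ?_ ?_ ?_
  · exact (QQ_cont Fl hn j).comp (by fun_prop)
  · intro s
    have h := QQ_per Fl hn (C.phi_col A) j (hL j) y r (4 * n * s) 1 0
    have e1 : y + 4 * (L j : ℝ) * ((0 : ℤ) : ℝ) = y := by push_cast; ring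
    have e2 : 4 * (n : ℝ) * s + 4 * n * ((1 : ℤ) : ℝ) = 4 * n * (s + 1) := by push_cast; ring
    rw [e1, e2] at h
    exact h
  · intro s
    obtain ⟨c, hc, hsrc, hval⟩ := exII Fl H hn hL (C.phi_col A) j (y - 1 / 2) (4 * n * s - 1 / 2)
    refine ⟨c, ?_, ?_, 1 / (8 * n), by positivity, ?_⟩
    · rw [hF]
      exact Or.inr (Or.inl hc)
    · rw [hsrc]
      refine ⟨(y, r, 4 * n * s), ⟨⟨by simp only; linarith, by simp only; linarith⟩,
        mem_univ _, ⟨by simp only; linarith, by simp only; linarith⟩⟩, rfl⟩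
    · have key : ∀ a ∈ Ioo (s - 1 / (8 * n)) (s + 1 / (8 * n)),
          (c (QQ Fl L n j (y, r, 4 * n * a))).2 = MR (H (col j)) y r (4 * n * a) := by
        intro a ha
        have h1 : 4 * (n : ℝ) * (1 / (8 * n)) = 1 / 2 := by
          field_simp
          norm_num
        have h2 : 4 * (n : ℝ) * (s - 1 / (8 * n)) < 4 * n * a :=
          mul_lt_mul_of_pos_left ha.1 (by positivity)
        have h3 : 4 * (n : ℝ) * a < 4 * n * (s + 1 / (8 * n)) :=
          mul_lt_mul_of_pos_left ha.2 (by positivity)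
        rw [mul_sub, h1] at h2
        rw [mul_add, h1] at h3
        exact hval (y, r, 4 * n * a) ⟨⟨by simp only; linarith, by simp only; linarith⟩,
          mem_univ _, ⟨h2, by simp only; linarith⟩⟩
      intro a ha b hb hab
      simp only [key a ha, key b hb]
      exact MR_mono (H (col j)) y r (mul_lt_mul_of_pos_left hab (by positivity))

end Pool.Agent.H.MP_1611f1_gt
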