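import Pool.Agent.H.MP_1611f1_gt.CmpF
import Pool.Agent.H.MP_1611f1_gt.TauA

/-!
Radial leaf paths.
-/

namespace Pool.Agent.H.MP_1611f1_gt

open Topology Set Filter

variable {S : Type*} [TopologicalSpace S] {J K : Type*} {E : Surf S J} {col : J → K} {L : J → ℕ}
  {phi : S ≃ₜ S} {al be ga de : J → ℤ} {Y : Type*} [TopologicalSpace Y]
  (Fl : Filling E phi al be ga de Y) {n : ℕ} (A : Arcs E col L) {σ : K → ℝ}
  (H : ∀ k, Hol (σ k)) (C : Chain A n phi) (F : Foliation Y)

/-- radial leaf paths over the collars -/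
theorem leaf_radial [Finite J] [Finite K] (hn : 0 < n) (hL : ∀ j, 0 < L j)
    (hF : F.charts = AllCharts Fl A H C) (j : J) (y t : ℝ) (r r' : Ioo (1 : ℝ) 2) :
    ∃ t', F.SameLeaf (QQ Fl L n j (y, r, t)) (QQ Fl L n j (y, r', t')) := by
  obtain ⟨g, hg, hgc⟩ := MR_solve (H (col j)) y (MR (H (col j)) y r t)
  have hgr : g r = t := (MR_mono (H (col j)) y r).injective (hgc r)
  have hmem : ∀ s : unitInterval, (1 - (s : ℝ)) * r + s * r' ∈ Ioo (1 : ℝ) 2 := fun s =>
    (convex_Ioo (1 : ℝ) 2) r.2 r'.2 (by linarith [s.2.2]) s.2.1 (by ring)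
  have hrho : Continuous fun s : unitInterval =>
      (⟨(1 - (s : ℝ)) * r + s * r', hmem s⟩ : Ioo (1 : ℝ) 2) := by
    refine Continuous.subtype_mk ?_ _
    exact ((continuous_const.sub continuous_subtype_val).mul continuous_const).add
      (continuous_subtype_val.mul continuous_const)
  obtain ⟨rho, hrc, hr0, hr1⟩ : ∃ rho : unitInterval → Ioo (1 : ℝ) 2, Continuous rho ∧
      rho 0 = r ∧ rho 1 = r' := by
    refine ⟨_, hrho, ?_, ?_⟩
    · refine Subtype.ext ?_
      change (1 - (0 : ℝ)) * r + (0 : ℝ) * r' = r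
      ring
    · refine Subtype.ext ?_
      change (1 - (1 : ℝ)) * r + (1 : ℝ) * r' = r'
      ring
  have hgrho : Continuous fun s => g (rho s) := hg.comp (continuous_subtype_val.comp hrc)
  have hγ : Continuous fun s => QQ Fl L n j (y, rho s, g (rho s)) :=
    (QQ_cont Fl hn j).comp (continuous_const.prodMk (hrc.prodMk hgrho))
  have h := F.sameLeaf_of (fun s => QQ Fl L n j (y, rho s, g (rho s))) hγ ?_
  · refine ⟨g r', ?_⟩
    have h0 : QQ Fl L n j (y, rho 0, g (rho 0)) = QQ Fl L n j (y, r, t) := by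
      rw [hr0, hgr]
    have h1 : QQ Fl L n j (y, rho 1, g (rho 1)) = QQ Fl L n j (y, r', g r') := by
      rw [hr1]
    rw [← h0, ← h1]
    exact h
  · intro s
    obtain ⟨c, hc, hs, hv⟩ := exII Fl H hn hL C.phi_col j (y - 1 / 2) (g (rho s) - 1 / 2)
    refine ⟨c, ?_, ?_, ?_⟩
    · rw [hF]
      exact Or.inr (Or.inl hc)
    · rw [hs]
      refine ⟨(y, rho s, g (rho s)), ⟨⟨?_, ?_⟩, mem_univ _, ⟨?_, ?_⟩⟩, rfl⟩
      · change y - 1 / 2 < y
        linarith
      · change y < y - 1 / 2 + 1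
        linarith
      · change g (rho s) - 1 / 2 < g (rho s)
        linarith
      · change g (rho s) < g (rho s) - 1 / 2 + 1
        linarith
    · have key : ∀ s' : unitInterval, g (rho s') ∈ Ioo (g (rho s) - 1 / 2) (g (rho s) - 1 / 2 + 1) →
          (c (QQ Fl L n j (y, rho s', g (rho s')))).2 = MR (H (col j)) y r t := by
        intro s' hs'
        have h3 := hv (y, rho s', g (rho s')) ⟨⟨by
          change y - 1 / 2 < y
          linarith, by
          change y < y - 1 / 2 + 1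
          linarith⟩, mem_univ _, hs'⟩
        exact h3.trans (hgc (rho s'))
      have h4 : ∀ᶠ s' in 𝓝 s, g (rho s') ∈ Ioo (g (rho s) - 1 / 2) (g (rho s) - 1 / 2 + 1) :=
        (hgrho.tendsto s).eventually (Ioo_mem_nhds (by linarith) (by linarith))
      filter_upwards [h4] with s' hs'
      exact (key s' hs').trans (key s ⟨by linarith, by linarith⟩).symm

end Pool.Agent.H.MP_1611f1_gt
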