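import Pool.Agent.H.MP_1611f1_gt.LfG
import Pool.Agent.H.MP_1611f1_gt.CmpH
import Pool.Agent.H.MP_1611f1_gt.OneD
import Pool.Agent.H.MP_1611f1_gt.Chn

/-!
The main theorem.
-/

namespace Pool.Agent.H.MP_1611f1_gt

open Topology Set Filter

theorem main {S : Type*} [TopologicalSpace S] [ConnectedSpace S] {J K : Type*} [Finite J]
    [Finite K] [Nonempty J] {Y : Type*} [TopologicalSpace Y] (E : Surf S J) (col : J → K)
    (L : J → ℕ) (hL : ∀ j, 0 < L j) (A : Arcs E col L) (n : ℕ) (hn : 0 < n) (Φ : Factors A n)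
    (al be ga de : J → ℤ) (hdet : ∀ j, al j * de j - be j * ga j = 1) (hde : ∀ j, de j ≠ 0)
    (σ : K → ℝ) (hσ : ∀ k, |σ k| < 1)
    (hslope : ∀ j, (ga j : ℝ) / de j = σ (col j) * L j / n)
    (Fl : Filling E Φ.phi al be ga de Y) : ∃ F : Foliation Y, F.Taut := by
  obtain ⟨C⟩ := exists_chain hn Φ
  have hn' : (n : ℝ) ≠ 0 := by
    have : (0 : ℝ) < n := by exact_mod_cast hn
    exact this.ne'
  have hde' : ∀ j, (de j : ℝ) ≠ 0 := fun j => by exact_mod_cast hde j
  have H : ∀ k, Hol (-σ k) := fun k =>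
    Classical.choice (exists_hol _ (by rw [abs_neg]; exact hσ k))
  obtain ⟨F, hF⟩ := exists_foliation Fl A H C hn hL hde hdet (fun j => by
    have h1 := hslope j
    have h2 := hde' j
    rw [div_eq_div_iff h2 hn'] at h1
    linarith)
  exact ⟨F, taut Fl A H C F hn hL hde hdet hF⟩

end Pool.Agent.H.MP_1611f1_gt
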