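import Pool.Agent.H.MP_1611f1_gt.Hol

/-!
Gluing order isomorphisms; the map A.
-/

namespace Pool.Agent.H.MP_1611f1_gt

open Set

theorem OneA_mem (f : ℤ → (ℝ ≃o ℝ)) (h0 : ∀ m : ℤ, f m (2 * m) = 2 * m)
    (h1 : ∀ m : ℤ, f m (2 * m + 2) = 2 * m + 2) (m : ℤ) (t : ℝ)
    (ht : (2 * m : ℝ) ≤ t ∧ t < 2 * m + 2) :
    (2 * m : ℝ) ≤ f m t ∧ f m t < 2 * m + 2 := by
  constructor
  · have := (f m).monotone ht.1
    rwa [h0 m] at this
  · have := (f m).strictMono ht.2
    rwa [h1 m] at this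

theorem OneA_floor (m : ℤ) (t : ℝ) (ht : (2 * m : ℝ) ≤ t ∧ t < 2 * m + 2) :
    ⌊t / 2⌋ = m := by
  rw [Int.floor_eq_iff]
  constructor
  · linarith [ht.1]
  · linarith [ht.2]

theorem OneA_floor' (t : ℝ) :
    (2 * (⌊t / 2⌋ : ℤ) : ℝ) ≤ t ∧ t < 2 * (⌊t / 2⌋ : ℤ) + 2 := by
  have h1 := Int.floor_le (t / 2)
  have h2 := Int.lt_floor_add_one (t / 2)
  constructor <;> linarith

/-- gluing order isomorphisms along the even integers -/
theorem exists_blockIso (f : ℤ → (ℝ ≃o ℝ)) (h0 : ∀ m : ℤ, f m (2 * m) = 2 * m)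
    (h1 : ∀ m : ℤ, f m (2 * m + 2) = 2 * m + 2) :
    ∃ A : ℝ ≃o ℝ, ∀ m : ℤ, ∀ t ∈ Icc (2 * m : ℝ) (2 * m + 2), A t = f m t := by
  have hsm : StrictMono (fun t : ℝ => f ⌊t / 2⌋ t) := by
    intro s t hst
    have hs := OneA_mem f h0 h1 ⌊s / 2⌋ s (OneA_floor' s)
    have ht := OneA_mem f h0 h1 ⌊t / 2⌋ t (OneA_floor' t)
    have hle : ⌊s / 2⌋ ≤ ⌊t / 2⌋ := Int.floor_le_floor (by linarith)
    rcases hle.eq_or_lt with h | h
    · show f ⌊s / 2⌋ s < f ⌊t / 2⌋ t
      rw [← h]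
      exact (f _).strictMono hst
    · show f ⌊s / 2⌋ s < f ⌊t / 2⌋ t
      have h' : (⌊s / 2⌋ : ℝ) + 1 ≤ (⌊t / 2⌋ : ℝ) := by exact_mod_cast h
      linarith [hs.2, ht.1]
  have hsurj : Function.Surjective (fun t : ℝ => f ⌊t / 2⌋ t) := by
    intro y
    have hy := OneA_floor' y
    refine ⟨(f ⌊y / 2⌋).symm y, ?_⟩
    have hmem : (2 * (⌊y / 2⌋ : ℤ) : ℝ) ≤ (f ⌊y / 2⌋).symm y ∧
        (f ⌊y / 2⌋).symm y < 2 * (⌊y / 2⌋ : ℤ) + 2 := by
      constructor
      · rw [OrderIso.le_symm_apply, h0]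
        exact hy.1
      · rw [OrderIso.symm_apply_lt, h1]
        exact hy.2
    show f ⌊(f ⌊y / 2⌋).symm y / 2⌋ ((f ⌊y / 2⌋).symm y) = y
    rw [OneA_floor _ _ hmem]
    exact (f ⌊y / 2⌋).apply_symm_apply y
  refine ⟨StrictMono.orderIsoOfSurjective _ hsm hsurj, ?_⟩
  intro m t ht
  show f ⌊t / 2⌋ t = f m t
  rcases ht.2.eq_or_lt with h | h
  · have hfl : ⌊t / 2⌋ = m + 1 := by
      apply OneA_floor
      push_cast
      constructor <;> linarith
    rw [hfl, h, h1]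
    have := h0 (m + 1)
    push_cast at this
    rw [show (2 * (m : ℝ) + 2) = 2 * (m + 1) by ring]
    exact this
  · rw [OneA_floor m t ⟨ht.1, h⟩]

/-- the piecewise linear map of `[0,2]` -/
theorem exists_e (r : ℝ) (h0 : 0 < r) (h1 : r < 1) :
    ∃ e : ℝ ≃o ℝ, e 0 = 0 ∧ e 2 = 2 ∧ (∀ x ≤ r, e x = x / r) ∧
      (∀ x, r ≤ x → x ≤ 1 → e x = 1 + (x - r)) ∧
      (∀ x, 1 ≤ x → e x = 2 - r + r * (x - 1)) := by
  let g : ℝ → ℝ := fun x => if x ≤ r then x / r else if x ≤ 1 then 1 + (x - r) else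
    2 - r + r * (x - 1)
  have g1 : ∀ x ≤ r, g x = x / r := by
    intro x hx
    simp only [g]
    rw [if_pos hx]
  have g2 : ∀ x, r ≤ x → x ≤ 1 → g x = 1 + (x - r) := by
    intro x hx hx1
    rcases hx.eq_or_lt with h | h
    · rw [g1 x h.ge, ← h, div_self h0.ne']
      ring
    · simp only [g]
      rw [if_neg (not_le.mpr h), if_pos hx1]
  have g3 : ∀ x, 1 ≤ x → g x = 2 - r + r * (x - 1) := by
    intro x hx
    rcases hx.eq_or_lt with h | h
    · rw [g2 x (by linarith) h.ge, ← h]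
      ring
    · simp only [g]
      rw [if_neg (not_le.mpr (lt_trans h1 h)), if_neg (not_le.mpr h)]
  have m1 : ∀ s t : ℝ, s < t → t ≤ r → g s < g t := by
    intro s t hst ht
    rw [g1 s (by linarith), g1 t ht]
    exact (div_lt_div_iff_of_pos_right h0).mpr hst
  have m2 : ∀ s t : ℝ, s < t → r ≤ s → t ≤ 1 → g s < g t := by
    intro s t hst hs ht
    rw [g2 s hs (by linarith), g2 t (by linarith) ht]
    linarith
  have m3 : ∀ s t : ℝ, s < t → 1 ≤ s → g s < g t := by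
    intro s t hst hs
    rw [g3 s hs, g3 t (by linarith)]
    have : r * (s - 1) < r * (t - 1) := mul_lt_mul_of_pos_left (by linarith) h0
    linarith
  have m12 : ∀ s t : ℝ, s < t → t ≤ 1 → g s < g t := by
    intro s t hst ht
    rcases le_or_gt t r with h | h
    · exact m1 s t hst h
    · rcases le_or_gt r s with h' | h'
      · exact m2 s t hst h' ht
      · exact lt_trans (m1 s r h' le_rfl) (m2 r t h le_rfl ht)
  have hsm : StrictMono g := by
    intro s t hst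
    rcases le_or_gt t 1 with h | h
    · exact m12 s t hst h
    · rcases le_or_gt 1 s with h' | h'
      · exact m3 s t hst h'
      · exact lt_trans (m12 s 1 h' le_rfl) (m3 1 t h le_rfl)
  have hsurj : Function.Surjective g := by
    intro y
    rcases le_or_gt y 1 with h | h
    · refine ⟨r * y, ?_⟩
      rw [g1 (r * y) (by nlinarith)]
      field_simp
    · rcases le_or_gt y (2 - r) with h' | h'
      · refine ⟨r + (y - 1), ?_⟩
        rw [g2 _ (by linarith) (by linarith)]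
        ring
      · refine ⟨1 + (y - 2 + r) / r, ?_⟩
        have hp : 0 < (y - 2 + r) / r := div_pos (by linarith) h0
        rw [g3 _ (by linarith)]
        field_simp
        ring
  refine ⟨StrictMono.orderIsoOfSurjective g hsm hsurj, ?_, ?_, ?_, ?_, ?_⟩
  · show g 0 = 0
    rw [g1 0 h0.le]
    simp
  · show g 2 = 2
    rw [g3 2 (by norm_num)]
    ring
  · exact g1
  · exact g2
  · exact g3

/-- conjugation of an order isomorphism of the line by a translation -/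
def OneA_conj (e : ℝ ≃o ℝ) (c : ℝ) : ℝ ≃o ℝ where
  toFun t := e (t - c) + c
  invFun t := e.symm (t - c) + c
  left_inv t := by simp
  right_inv t := by simp
  map_rel_iff' := by
    intro a b
    show e (a - c) + c ≤ e (b - c) + c ↔ a ≤ b
    rw [add_le_add_iff_right, e.le_iff_le, sub_le_sub_iff_right]

theorem OneA_conj_apply (e : ℝ ≃o ℝ) (c t : ℝ) : OneA_conj e c t = e (t - c) + c := rfl

/-- the map `A` -/
theorem exists_A (r : ℝ) (h0 : 0 < r) (h1 : r < 1) :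
    ∃ (e A : ℝ ≃o ℝ), (e 0 = 0 ∧ e 2 = 2 ∧ (∀ x ≤ r, e x = x / r) ∧
      (∀ x, r ≤ x → x ≤ 1 → e x = 1 + (x - r)) ∧
      (∀ x, 1 ≤ x → e x = 2 - r + r * (x - 1))) ∧
      (∀ t, A (t + 4) = A t + 4) ∧ (∀ m : ℤ, A (2 * m) = 2 * m) ∧
      (∀ t ∈ Icc (0 : ℝ) 2, A t = e t) ∧ (∀ t ∈ Icc (2 : ℝ) 4, A t = e.symm (t - 2) + 2) := by
  obtain ⟨e, he⟩ := exists_e r h0 h1
  have e0 : e 0 = 0 := he.1
  have e2 : e 2 = 2 := he.2.1
  have s0 : e.symm 0 = 0 := by rw [OrderIso.symm_apply_eq, e0]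
  have s2 : e.symm 2 = 2 := by rw [OrderIso.symm_apply_eq, e2]
  let f : ℤ → (ℝ ≃o ℝ) := fun m => OneA_conj (if Even m then e else e.symm) (2 * m)
  have hf0 : ∀ m : ℤ, f m (2 * m) = 2 * m := by
    intro m
    simp only [f]
    rw [OneA_conj_apply, sub_self]
    split_ifs
    · rw [e0, zero_add]
    · rw [s0, zero_add]
  have hf2 : ∀ m : ℤ, f m (2 * m + 2) = 2 * m + 2 := by
    intro m
    simp only [f]
    rw [OneA_conj_apply, add_sub_cancel_left]
    split_ifs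
    · rw [e2, add_comm]
    · rw [s2, add_comm]
  obtain ⟨A, hA⟩ := exists_blockIso f hf0 hf2
  refine ⟨e, A, he, ?_, ?_, ?_, ?_⟩
  · intro t
    have ht := OneA_floor' t
    set m : ℤ := ⌊t / 2⌋ with hm
    rw [hA m t ⟨ht.1, ht.2.le⟩, hA (m + 2) (t + 4) (by
      push_cast
      constructor <;> linarith [ht.1, ht.2])]
    simp only [f]
    rw [OneA_conj_apply, OneA_conj_apply]
    have hev : Even (m + 2) ↔ Even m := by
      rw [Int.even_add]
      simp
    have hsub : t + 4 - 2 * ((m + 2 : ℤ) : ℝ) = t - 2 * (m : ℝ) := by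
      push_cast
      ring
    rw [hsub]
    have hcast : (2 * ((m + 2 : ℤ) : ℝ)) = 2 * (m : ℝ) + 4 := by
      push_cast
      ring
    rw [hcast]
    simp only [hev]
    ring
  · intro m
    rw [hA m (2 * m) ⟨le_rfl, by linarith⟩, hf0]
  · intro t ht
    rw [hA 0 t (by
      push_cast
      constructor <;> linarith [ht.1, ht.2])]
    simp only [f]
    rw [OneA_conj_apply, if_pos (by simp)]
    simp
  · intro t ht
    rw [hA 1 t (by
      push_cast
      constructor <;> linarith [ht.1, ht.2])]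
    simp only [f]
    rw [OneA_conj_apply, if_neg (by simp)]
    simp

end Pool.Agent.H.MP_1611f1_gt
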